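import Pool.Agent.J6H16.E2.Mk3
import Pool.Agent.J6H16.PR.Ce

/-!
# Project E3 (helper16): the bilinear forms in a shell, for the difference of the primes and of the model
-/

set_option autoImplicit false

namespace Pool.Agent.J6H16.E3

open Finset Filter Topology
open Pool.Agent.N782.GN hiding f1
open Pool.Agent.N855.GN
open Pool.Agent.H304R3.HK (UH bb LamK CS)
open Pool.Agent.J6H16.PF Pool.Agent.J6H16.PR Pool.Agent.J6H16.E2

open Classical in
/-- the coefficients: primitive products of a prime of the window and a number with the weight `gP`, in a shell -/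
noncomputable def bs (z0 : ℕ) (c4 M x y : ℝ) (Z1 Z2 : ℝ) (w : ZI) : ℝ :=
  if Z1 < nz w ∧ nz w ≤ Z2 then (if ct w = 1 then cv (fw M x y) (gP z0 c4 M) w else 0) else 0

theorem bs_ne {z0 : ℕ} {c4 M x y Z1 Z2 : ℝ} {w : ZI} (h : bs z0 c4 M x y Z1 Z2 w ≠ 0) :
    (Z1 < nz w ∧ nz w ≤ Z2) ∧ ct w = 1 ∧ cv (fw M x y) (gP z0 c4 M) w ≠ 0 := by
  unfold bs at h
  split_ifs at h with h1 h2
  · exact ⟨h1, h2, h⟩
  · exact absurd rfl h
  · exact absurd rfl h

theorem cvP_bd {z0 : ℕ} {c3 c4 M x y : ℝ} {B : ℕ} (h : Big z0 c3 c4 M B) {E : ℕ} {t : ZI} (ht : t ≠ 0) (hn : nz t ≤ M ^ E) :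
    |cv (fw M x y) (gP z0 c4 M) t| ≤ 36 * E := by
  have hM : 1 < M := by linarith [h.M3]
  have hl := Real.log_pos hM
  have h1 := cv_bd (f := fw M x y) (g := gP z0 c4 M) (κ := 1 / Real.log M) (C1 := 9) (by positivity) (by norm_num)
    (fw_le hM _ _) h.gP_bd ht
  refine h1.trans ?_
  have h2 : Real.log (nz t) ≤ E * Real.log M := by
    rw [← Real.log_pow]
    exact Real.log_le_log (nz_pos ht) hn
  calc 9 * (1 / Real.log M) * (4 * Real.log (nz t)) ≤ 9 * (1 / Real.log M) * (4 * (E * Real.log M)) := by gcongr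
    _ = 36 * E := by field_simp; ring

theorem fw_rough {z0 : ℕ} {c3 c4 M x y : ℝ} {B : ℕ} (h : Big z0 c3 c4 M B) (hx : M ^ c3 ≤ x) {m : ZI}
    (hm : fw M x y m ≠ 0) : rough (zf M) m ∧ ct m = 1 := by
  have h2 := fw_ne hm
  exact ⟨rough_np h2.1 (by linarith [h.zc, h2.2.1]), Pool.Agent.J6H16.PR.ct_np h2.1⟩

theorem cvP_rough {z0 : ℕ} {c3 c4 M x y : ℝ} {B : ℕ} (h : Big z0 c3 c4 M B) (h34 : c3 ≤ c4) (hx : M ^ c3 ≤ x) {t : ZI}
    (ht : cv (fw M x y) (gP z0 c4 M) t ≠ 0) : rough (zf M) t := by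
  obtain ⟨a, m, h1, h2, h3, -, -⟩ := cv_ne ht
  rw [← h1]
  exact rough_mul (fw_rough h hx h2).1 (h.gP_rough h34 h3).1

theorem bs_bd {z0 : ℕ} {c3 c4 M x y Z1 Z2 : ℝ} {B : ℕ} (h : Big z0 c3 c4 M B) (hZ : Z2 ≤ M ^ 3) (w : ZI) :
    |bs z0 c4 M x y Z1 Z2 w| ≤ 108 := by
  unfold bs
  split_ifs with h1 h2
  · by_cases h0 : w = 0
    · rw [h0, cv_zero, abs_zero]
      norm_num
    · have := cvP_bd (x := x) (y := y) h (E := 3) h0 (h1.2.trans hZ)
      norm_num at this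
      exact this
  · rw [abs_zero]; norm_num
  · rw [abs_zero]; norm_num

theorem fw_le_f1 {M x y c3 c4 : ℝ} (hM : 1 ≤ M) (hx : M ^ c3 ≤ x) (hy : y ≤ M ^ c4) (a : ZI) :
    fw M x y a ≤ f1 M c3 c4 a := by
  unfold fw f1
  split_ifs with h1 h2
  · exact le_rfl
  · exact absurd ⟨lt_of_le_of_lt hx h1.1, h1.2.trans hy⟩ h2
  · exact div_nonneg (Lp_nonneg _) (Real.log_nonneg hM)
  · exact le_rfl

/-- the product of two rough primitive numbers: primitive, or with a large content -/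
theorem ct_alt {z : ℕ} {T : ℝ} {a m : ZI} (hz1 : 1 < z) (hT : T ≤ (z : ℝ)) (ha : rough z a) (hm : rough z m)  :
    ct (a * m) = 1 ∨ T ≤ (ct (a * m) : ℝ) := by
  by_cases hct : ct (a * m) = 1
  · exact Or.inl hct
  · right
    have h3 : a * m ≠ 0 := by
      intro h0
      have := (rough_mul ha hm) 2 Nat.prime_two hz1
      apply this
      rw [h0]
      unfold nn
      simp
    have h4 := rough_ct (rough_mul ha hm) h3 hct
    have h5 : ((z : ℕ) : ℝ) ≤ (ct (a * m) : ℝ) := by exact_mod_cast h4.le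
    exact hT.trans h5

open Classical in
/-- the frequency `0` -/
theorem freq0 {z0 : ℕ} {c3 c4 : ℝ} (hc3 : 0 < c3) (h34 : c3 < c4) (h41 : c4 ≤ 1) (A : ℕ) : ∀ᶠ M : ℝ in atTop, ∀ (η : ℝ)
    (q : ℕ), 0 ≤ η → Big z0 c3 c4 M (A + 1) → 1 ≤ q → q ≤ zf M → (Real.log M) ^ (A + 1) ≤ (zf M : ℝ) →
    Reg (gP z0 c4 M) q 0 η (M ^ c4) (M ^ (3 : ℝ)) → ∀ (x y V Y1 Y2 : ℝ) (r : ZI), M ^ c3 ≤ x → y ≤ M ^ c4 →
    IsCoprime r ((q : ℕ) : ZI) → M ^ (2 * c4) ≤ Y1 → Y1 ≤ Y2 → Y2 ≤ V → V ≤ M ^ 3 →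
    |∑ t ∈ ci q r Y1 Y2, (if ct t = 1 then cv (fw M x y) (gP z0 c4 M) t else 0)| ≤
      288 * η * V + 972 * V / (Real.log M) ^ (A + 1) := by
  filter_upwards [ev_log 1, eventually_ge_atTop (3 : ℝ)] with M hlog1 hM3
  intro η q hη hbig hq hqz hzA hreg x y V Y1 Y2 r hx hy hr hY1 hYY hY2 hV
  have hM0 : 0 < M := by linarith
  have hM1 : 1 ≤ M := by linarith
  have hM1' : 1 < M := by linarith
  set ℓ := Real.log M with hℓ
  have hℓ0 : 0 < ℓ := by linarith
  have hXw : M ^ c4 * M ^ c4 ≤ Y1 := by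
    refine le_trans (le_of_eq ?_) hY1
    rw [← Real.rpow_add hM0]
    congr 1
    ring
  have hY10 : 0 < Y1 := lt_of_lt_of_le (by positivity) hY1
  have hstep := reg_step (f := fw M x y) (w0 := M ^ c3) (w1 := M ^ c4) (Real.one_le_rpow hM1 hc3.le) (by positivity)
    (fw_nonneg hM1 _ _) (fun a ha => ⟨lt_of_le_of_lt hx (fw_ne ha).2.1, (fw_ne ha).2.2.trans hy⟩)
    (fun a ha => rough_cop hqz hq (fw_rough hbig hx ha).1) hreg
  have hY2M : Y2 ≤ M ^ (3 : ℝ) := by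
    refine hY2.trans (hV.trans (le_of_eq ?_))
    norm_num
  have m0 := hstep r hr Y1 Y2 hXw hYY hY2M
  rw [zero_mul, zero_mul, sub_zero] at m0
  have hs1 : ∑ a ∈ bg (M ^ c3) (M ^ c4), fw M x y a / nz a ≤ 288 := by
    calc ∑ a ∈ bg (M ^ c3) (M ^ c4), fw M x y a / nz a ≤ ∑ a ∈ bg (M ^ c3) (M ^ c4), f1 M c3 c4 a / nz a := by
          refine sum_le_sum fun a _ => ?_
          exact div_le_div_of_nonneg_right (fw_le_f1 hM1 hx hy a) (nz_nonneg a)
      _ ≤ 288 * c4 := s1_le hM1' (by linarith)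
      _ ≤ 288 := by linarith
  have e2 : ∑ t ∈ ci q r Y1 Y2, (if ct t = 1 then cv (fw M x y) (gP z0 c4 M) t else 0) =
      ∑ t ∈ ci q r Y1 Y2, cv (fw M x y) (gP z0 c4 M) t -
      ∑ t ∈ ci q r Y1 Y2, (if ct t = 1 then 0 else cv (fw M x y) (gP z0 c4 M) t) := by
    rw [← sum_sub_distrib]
    refine sum_congr rfl fun t _ => ?_
    split_ifs <;> ring
  rw [e2]
  refine (abs_sub _ _).trans (add_le_add ?_ ?_)
  · refine m0.trans ?_
    have hY20 : 0 ≤ Y2 := by linarith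
    calc η * (∑ a ∈ bg (M ^ c3) (M ^ c4), fw M x y a / nz a) * Y2 ≤ η * 288 * V := by gcongr
      _ = _ := by ring
  · refine (abs_sum_le_sum_abs _ _).trans ?_
    have h3 : ∀ t ∈ ci q r Y1 Y2, |if ct t = 1 then 0 else cv (fw M x y) (gP z0 c4 M) t| ≤
        if t ∈ (bl V).filter (fun t => zf M < ct t) then 108 else 0 := by
      intro t ht
      rw [mem_ci] at ht
      by_cases hct : ct t = 1
      · rw [if_pos hct, abs_zero]
        split_ifs <;> norm_num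
      · rw [if_neg hct]
        by_cases hz : cv (fw M x y) (gP z0 c4 M) t = 0
        · rw [hz, abs_zero]
          split_ifs <;> norm_num
        · rw [if_pos]
          · have := cvP_bd (x := x) (y := y) hbig (E := 3) ht.1 ((ht.2.1.trans hY2).trans hV)
            norm_num at this
            exact this
          · rw [mem_filter, mem_bl]
            exact ⟨⟨ht.1, ht.2.1.trans hY2⟩, rough_ct (cvP_rough hbig h34.le hx hz) ht.1 hct⟩
    refine (sum_le_sum h3).trans ?_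
    rw [← sum_filter, sum_const, nsmul_eq_mul]
    have hz1' : 1 ≤ zf M := by unfold zf; exact Nat.one_le_two_pow
    have hV1 : 1 ≤ V := by
      have : 1 ≤ M ^ (2 * c4) := Real.one_le_rpow hM1 (by linarith)
      linarith
    have h4 : (((ci q r Y1 Y2).filter (fun t => t ∈ (bl V).filter (fun t => zf M < ct t))).card : ℝ) ≤
        9 * V / (zf M : ℝ) := by
      refine le_trans ?_ (ct_big hV1 hz1')
      exact_mod_cast card_le_card fun t ht => (mem_filter.1 ht).2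
    have h5 : 9 * V / (zf M : ℝ) ≤ 9 * V / ℓ ^ (A + 1) :=
      div_le_div_of_nonneg_left (by positivity) (by positivity) hzA
    calc _ ≤ 9 * V / ℓ ^ (A + 1) * 108 := mul_le_mul_of_nonneg_right (h4.trans h5) (by norm_num)
      _ = _ := by ring

end Pool.Agent.J6H16.E3
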