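import Pool.Agent.J6H16.E3.Ba
import Pool.Agent.J6H16.E2.Z0

/-!
# Project E3 (helper16): the dispersion in a shell
-/

set_option autoImplicit false

namespace Pool.Agent.J6H16.E3

open Finset Filter Topology
open Pool.Agent.N782.GN hiding f1
open Pool.Agent.N855.GN
open Pool.Agent.H304R3.HK (UH bb LamK CS)
open Pool.Agent.J6H16.PF Pool.Agent.J6H16.PR Pool.Agent.J6H16.E2

/-- the properties of the difference which are used -/
def RegAll (z0 : ℕ) (c3 c4 M : ℝ) (A B : ℕ) : Prop := Big z0 c3 c4 M (A + 1) ∧ (Real.log M) ^ (A + 3) ≤ (zf M : ℝ) ∧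
  (Real.log M) ^ B ≤ (zf M : ℝ) ∧
  ∀ q : ℕ, 1 ≤ q → (q : ℝ) ≤ (Real.log M) ^ B → Reg (gP z0 c4 M) q 0 (1 / (Real.log M) ^ A) (M ^ c4) (M ^ (3 : ℝ))

theorem regall : ∃ z0 : ℕ, ∀ (A B : ℕ) (c3 c4 : ℝ), 0 < c3 → c3 < c4 → c4 ≤ 1 → ∀ᶠ M : ℝ in atTop,
    RegAll z0 c3 c4 M A B ∧ 1 / (20000 * (W0 z0 : ℝ) ^ 2) ≤ Real.log M * (Sf z0 c4 M * kq (zf M) z0 (W0 z0)) := by
  obtain ⟨z0, h⟩ := reg_gP
  refine ⟨z0, fun A B c3 c4 hc3 h34 h4 => ?_⟩
  filter_upwards [h A (A + B) c3 c4 hc3 h34 h4, par_c (A + 3), par_c B, par_c (A + 1), ev_log 1] with M h h1 h2 h3 hlog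
  obtain ⟨hb, hlo, hr⟩ := h
  refine ⟨⟨⟨hb.M3, hb.zc, h3, hb.S0, hb.S6⟩, h1, h2, fun q hq hqB => hr q hq ?_⟩, hlo⟩
  exact hqB.trans (pow_le_pow_right₀ hlog (by omega))

/-- **the bilinear form in a shell** -/
theorem box3 (ε : ℝ) (A : ℕ) (hε : 0 < ε) (hε1 : ε ≤ 1) {c3 c4 : ℝ} (hc3 : 0 < c3) (h34 : c3 < c4)
    (hc4 : 3 * c4 ≤ ε) : ∃ (A2 B2 : ℕ) (C : ℝ), 0 < C ∧ ∀ z0 : ℕ, ∀ᶠ M : ℝ in atTop, RegAll z0 c3 c4 M A2 B2 →
    ∀ (M' L R x y Z1 Z2 : ℝ),
    M ^ (1 / 2 : ℝ) ≤ M' → M' ≤ M ^ 2 → 1 ≤ L → L ≤ M' ^ (1 - ε) → 0 < R → M' ^ (1 + ε) ≤ R ^ 2 * L →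
    R ^ 2 ≤ L * M' ^ (1 - ε) → 4 * R ^ 2 ≤ M ^ 3 → M ^ c3 ≤ x → y ≤ M ^ c4 → R ^ 2 ≤ Z1 → Z2 ≤ M ^ 3 →
    ∀ γ : ZI → ℝ, (∀ v, |γ v| ≤ 1) →
      ∑ l ∈ Icc (1 : ℤ) ⌊L⌋, |Th (bs z0 c4 M x y Z1 Z2) γ R (M' / (8 * R)) l| ≤ C * L * M' / (Real.log M') ^ A := by
  classical
  obtain ⟨A', B', C, M0, hC, hgc⟩ := gc ε A 108 hε (by norm_num)
  have hc40 : 0 < c4 := by linarith
  have hcE : c4 ≤ (3 : ℕ) := by
    push_cast
    linarith
  refine ⟨A' + 1, B' + 1, C, hC, fun z0 => ?_⟩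
  filter_upwards [freq0 (z0 := z0) hc3 h34 (by linarith) (A' + 1), msk3 hc3 h34 9 (by norm_num) (A' + 1) (B' + 1) 3 hcE,
    ev_rp (show (0 : ℝ) < 1 / 2 by norm_num) M0, ev_log (2 ^ B' + 20000000000 * 2 ^ A' + 1), eventually_ge_atTop (4 : ℝ),
    ev_qM hc3 (A' + 1 + 3), ev_qM (show 0 < ε / 6 by positivity) (B' + 1)] with M hz0 hms hM0 hlog hM4 hq3 hq6
  rintro ⟨hbig, hzA, hzB, hreg⟩ M' L R x y Z1 Z2 hM1 hM2 hL hLM hR hRL hRL2 hR2M hx hy hRZ hZ2 γ hγ
  have hM0' : 0 < M := by linarith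
  have hM1' : 1 ≤ M := by linarith
  set ℓ := Real.log M with hℓ
  have hp1 : (0 : ℝ) < 2 ^ B' := by positivity
  have hp2 : (0 : ℝ) < 2 ^ A' := by positivity
  have hℓ1 : 1 ≤ ℓ := by linarith
  have hℓ0 : 0 < ℓ := by linarith
  have hsq : 2 ≤ M ^ (1 / 2 : ℝ) := by
    rw [← Real.sqrt_eq_rpow]
    apply Real.le_sqrt_of_sq_le
    linarith
  have hM'2 : 2 ≤ M' := hsq.trans hM1
  have hM'0 : 0 < M' := by linarith
  have hM'1 : 1 ≤ M' := by linarith
  have hL0 : 0 < L := by linarith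
  have hlogM' : Real.log M' ≤ 2 * ℓ := by
    have h1 := Real.log_le_log hM'0 hM2
    rw [Real.log_pow] at h1
    push_cast at h1
    exact h1
  have hlogM'0 : 0 ≤ Real.log M' := Real.log_nonneg hM'1
  have hMe : M ^ (ε / 2) ≤ M' ^ ε := by
    calc M ^ (ε / 2) = (M ^ (1 / 2 : ℝ)) ^ ε := by
          rw [← Real.rpow_mul hM0'.le]
          ring_nf
      _ ≤ M' ^ ε := Real.rpow_le_rpow (by positivity) hM1 hε.le
  have hR2b : M' / L * M' ^ ε ≤ R ^ 2 := by
    rw [Real.rpow_add hM'0, Real.rpow_one] at hRL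
    rw [div_mul_eq_mul_div, div_le_iff₀ hL0]
    exact hRL
  have hML : M' ^ ε ≤ M' / L := by
    rw [le_div_iff₀ hL0]
    calc M' ^ ε * L ≤ M' ^ ε * M' ^ (1 - ε) := mul_le_mul_of_nonneg_left hLM (by positivity)
      _ = M' := by rw [← Real.rpow_add hM'0]; simp
  have hV3 : M ^ (3 * c4) ≤ R ^ 2 := by
    have h1 : M ^ (3 * c4) ≤ M ^ (ε / 2) * M ^ (ε / 2) := by
      rw [← Real.rpow_add hM0']
      exact Real.rpow_le_rpow_of_exponent_le hM1' (by linarith)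
    have h2 : M ^ (ε / 2) * M ^ (ε / 2) ≤ (M' / L) * M' ^ ε :=
      mul_le_mul (hMe.trans hML) hMe (by positivity) (by positivity)
    linarith
  have hV2 : M ^ (2 * c4) ≤ R ^ 2 :=
    (Real.rpow_le_rpow_of_exponent_le hM1' (by linarith)).trans hV3
  have hR20 : 0 < R ^ 2 := by positivity
  have hlB : (Real.log M') ^ B' ≤ ℓ ^ (B' + 1) := by
    calc (Real.log M') ^ B' ≤ (2 * ℓ) ^ B' := pow_le_pow_left₀ hlogM'0 hlogM' _
      _ = 2 ^ B' * ℓ ^ B' := mul_pow _ _ _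
      _ ≤ ℓ * ℓ ^ B' := mul_le_mul_of_nonneg_right (by linarith) (by positivity)
      _ = _ := by ring
  have hz1 : 1 < zf M := by
    have h1 : ℓ ^ 1 ≤ ℓ ^ (A' + 1 + 1) := pow_le_pow_right₀ hℓ1 (by omega)
    have h2 := hbig.zB
    rw [pow_one] at h1
    have h3 : (1 : ℝ) < (zf M : ℝ) := by linarith
    exact_mod_cast h3
  apply hgc M' L R (bs z0 c4 M x y Z1 Z2) (hM0.trans hM1) hL hLM hR hRL hRL2
  · intro w
    exact bs_bd hbig hZ2 w
  · intro w hw
    by_contra hcon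
    exact hw (bs_ne hcon).2.1
  · intro q r Y1 Y2 K hq hqB hY1 hY12 hY2 hK hKV
    have hqB2 : (q : ℝ) ≤ ℓ ^ (B' + 1) := hqB.trans hlB
    have hqz : q ≤ zf M := by exact_mod_cast hqB2.trans hzB
    set Y1' := max Y1 Z1 with hY1'
    set Y2' := min Y2 Z2 with hY2'
    have e1 : ∀ k : ℤ, ∑ t ∈ (cls q r Y2).filter (fun t => Y1 < nz t), (bs z0 c4 M x y Z1 Z2 t : ℂ) * ph k 0 t =
        ∑ t ∈ ci q r Y1' Y2', ((if ct t = 1 then cv (fw M x y) (gP z0 c4 M) t else 0 : ℝ) : ℂ) * ph k 0 t := by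
      intro k
      symm
      have hsub : ci q r Y1' Y2' ⊆ (cls q r Y2).filter (fun t => Y1 < nz t) := by
        intro t ht
        have : t ∈ ci q r Y1 Y2 := by
          rw [mem_ci] at ht ⊢
          exact ⟨ht.1, ht.2.1.trans (min_le_left _ _), ht.2.2.1, lt_of_le_of_lt (le_max_left _ _) ht.2.2.2⟩
        exact this
      have e2 : ∑ t ∈ ci q r Y1' Y2', ((if ct t = 1 then cv (fw M x y) (gP z0 c4 M) t else 0 : ℝ) : ℂ) * ph k 0 t =
          ∑ t ∈ ci q r Y1' Y2', (bs z0 c4 M x y Z1 Z2 t : ℂ) * ph k 0 t := by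
        refine sum_congr rfl fun t ht => ?_
        rw [mem_ci] at ht
        unfold bs
        rw [if_pos (⟨lt_of_le_of_lt (le_max_right _ _) ht.2.2.2, ht.2.1.trans (min_le_right _ _)⟩ : Z1 < nz t ∧ nz t ≤ Z2)]
      rw [e2]
      apply sum_subset hsub
      intro t ht ht'
      have ht2 : t ∈ ci q r Y1 Y2 := ht
      rw [mem_ci] at ht2
      unfold bs
      rw [if_neg]
      · simp
      · rintro ⟨h1, h2⟩
        apply ht'
        rw [mem_ci]
        exact ⟨ht2.1, le_min ht2.2.1 h2, ht2.2.2.1, max_lt ht2.2.2.2 h1⟩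
    simp only [e1]
    have hK0 : (K : ℝ) ≤ 4 * R ^ 2 / M ^ c4 := by
      rw [le_div_iff₀ (by positivity)]
      calc (K : ℝ) * M ^ c4 ≤ (M' / L * (Real.log M') ^ B') * M ^ c4 := by gcongr
        _ ≤ (M' / L * M ^ (ε / 6)) * M ^ (ε / 3) := by
            apply mul_le_mul
            · exact mul_le_mul_of_nonneg_left (hlB.trans hq6) (by positivity)
            · exact Real.rpow_le_rpow_of_exponent_le hM1' (by linarith)
            · positivity
            · positivity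
        _ = M' / L * M ^ (ε / 2) := by
            rw [mul_assoc, ← Real.rpow_add hM0']
            ring_nf
        _ ≤ M' / L * M' ^ ε := mul_le_mul_of_nonneg_left hMe (by positivity)
        _ ≤ R ^ 2 := hR2b
        _ ≤ 4 * R ^ 2 := by linarith
    have htarget : 20000000000 * (R ^ 4 / ℓ ^ (A' + 1)) ≤ R ^ 4 / (Real.log M') ^ A' := by
      have hlog' : 0 < Real.log M' := Real.log_pos (by linarith)
      rw [mul_div_assoc', div_le_div_iff₀ (by positivity) (by positivity)]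
      calc 20000000000 * R ^ 4 * (Real.log M') ^ A' ≤ 20000000000 * R ^ 4 * (2 * ℓ) ^ A' := by gcongr
        _ = R ^ 4 * ((20000000000 * 2 ^ A') * ℓ ^ A') := by rw [mul_pow 2 ℓ]; ring
        _ ≤ R ^ 4 * (ℓ * ℓ ^ A') := by
            apply mul_le_mul_of_nonneg_left _ (by positivity)
            exact mul_le_mul_of_nonneg_right (by linarith) (by positivity)
        _ = _ := by ring
    refine le_trans ?_ htarget
    by_cases hcase : IsCoprime r ((q : ℕ) : ZI) ∧ Y1' ≤ Y2'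
    · obtain ⟨hr, hcase⟩ := hcase
      have hY1'0 : 0 ≤ Y1' := hY1.trans (le_max_left _ _)
      have hY2'V : Y2' ≤ 4 * R ^ 2 := (min_le_left _ _).trans hY2
      have k0 := hz0 (1 / ℓ ^ (A' + 1)) q (by positivity) hbig hq hqz ((pow_le_pow_right₀ hℓ1 (by omega)).trans hzA) (hreg q hq hqB2) x y
        (4 * R ^ 2) Y1' Y2' r hx hy hr (hV2.trans (hRZ.trans (le_max_right _ _))) hcase hY2'V hR2M
      have k1 := hms x y (gP z0 c4 M) hx hy hbig.gP_bd (fun m hm => by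
        by_contra hcon
        exact hm (hbig.gP_rough h34.le hcon).2) (fun a m ha hm =>
          ct_alt hz1 ((pow_le_pow_right₀ hℓ1 (by omega)).trans hzA) (fw_rough hbig hx ha).1 (hbig.gP_rough h34.le hm).1)
        q K r (4 * R ^ 2) Y1' Y2' hq hqB2 hK hK0 hR2M (hV2.trans (by linarith)) hY1'0 hcase hY2'V
      have h0mem : (0 : ℤ) ∈ Icc (-(K : ℤ)) K := by
        rw [mem_Icc]
        omega
      rw [← add_sum_erase _ _ h0mem]
      have e2 : ∑ t ∈ ci q r Y1' Y2', ((if ct t = 1 then cv (fw M x y) (gP z0 c4 M) t else 0 : ℝ) : ℂ) * ph 0 0 t =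
          ((∑ t ∈ ci q r Y1' Y2', (if ct t = 1 then cv (fw M x y) (gP z0 c4 M) t else 0) : ℝ) : ℂ) := by
        rw [Complex.ofReal_sum]
        refine sum_congr rfl fun t _ => ?_
        unfold ph
        simp
      rw [e2, Complex.norm_real, Real.norm_eq_abs]
      set P := ℓ ^ (A' + 1) with hP
      have hP1 : 1 ≤ P := one_le_pow₀ hℓ1
      have k0' : |∑ t ∈ ci q r Y1' Y2', (if ct t = 1 then cv (fw M x y) (gP z0 c4 M) t else 0)| ≤ 6000 * (R ^ 2 / P) := by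
        refine k0.trans ?_
        have h1 : 972 * (4 * R ^ 2) / ℓ ^ (A' + 1 + 1) ≤ 972 * (4 * R ^ 2) / P := by
          apply div_le_div_of_nonneg_left (by positivity) (by positivity)
          exact pow_le_pow_right₀ hℓ1 (by omega)
        have h2 : 288 * (1 / P) * (4 * R ^ 2) + 972 * (4 * R ^ 2) / P = 5040 * (R ^ 2 / P) := by ring
        have h3 : 0 ≤ R ^ 2 / P := by positivity
        linarith
      have h3 : |∑ t ∈ ci q r Y1' Y2', (if ct t = 1 then cv (fw M x y) (gP z0 c4 M) t else 0)| ^ 2 ≤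
          36000000 * (R ^ 4 / P) := by
        calc |∑ t ∈ ci q r Y1' Y2', (if ct t = 1 then cv (fw M x y) (gP z0 c4 M) t else 0)| ^ 2 ≤
              (6000 * (R ^ 2 / P)) ^ 2 := pow_le_pow_left₀ (abs_nonneg _) k0' 2
          _ = 36000000 * (R ^ 4 / P) * (1 / P) := by
              field_simp
              ring
          _ ≤ 36000000 * (R ^ 4 / P) * 1 := by
              apply mul_le_mul_of_nonneg_left _ (by positivity)
              rw [div_le_one (by positivity)]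
              exact hP1
          _ = _ := by ring
      have h4 : (4 * R ^ 2) ^ 2 / P = 16 * (R ^ 4 / P) := by ring
      have h5 : 0 ≤ R ^ 4 / P := by positivity
      linarith
    · have h1 : ∀ k : ℤ, ∑ t ∈ ci q r Y1' Y2', ((if ct t = 1 then cv (fw M x y) (gP z0 c4 M) t else 0 : ℝ) : ℂ) * ph k 0 t = 0 := by
        intro k
        refine sum_eq_zero fun t ht => ?_
        have : (if ct t = 1 then cv (fw M x y) (gP z0 c4 M) t else 0 : ℝ) = 0 := by
          by_contra hcon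
          apply hcase
          rw [mem_ci] at ht
          refine ⟨?_, ht.2.2.2.le.trans ht.2.1⟩
          have h2 : t ∈ cls q r Y2' := by
            unfold cls
            rw [mem_filter, mem_bl]
            exact ⟨⟨ht.1, ht.2.1⟩, ht.2.2.1⟩
          split_ifs at hcon with h3
          · exact cop_cls h2 (rough_cop hqz hq (cvP_rough hbig h34.le hx hcon))
          · exact absurd rfl hcon
        rw [this]
        push_cast
        ring
      simp only [h1]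
      rw [sum_eq_zero (fun k _ => by norm_num)]
      positivity
  · exact hγ

end Pool.Agent.J6H16.E3
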