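import Pool.Agent.J6H16.E3.Bb
import Pool.Agent.J6H16.E2.Dx

/-!
# Project E3 (helper16): shells and boxes
-/

set_option autoImplicit false

namespace Pool.Agent.J6H16.E3

open Finset Filter Topology
open Pool.Agent.N782.GN hiding f1
open Pool.Agent.N855.GN
open Pool.Agent.H304R3.HK (UH bb LamK CS)
open Pool.Agent.J6H16.PF Pool.Agent.J6H16.PR Pool.Agent.J6H16.E2

theorem Fz_abs {lam : ℤ → ℝ} (h : ∀ l, |lam l| ≤ 1) (N : ℝ) (z : ZI) : |Fz lam N z| ≤ 1 := by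
  unfold Fz
  split_ifs
  · exact h _
  · rw [abs_zero]; norm_num

theorem Fz_Zb {lam : ℤ → ℝ} {L N : ℝ} (h : Lm L lam) {z : ZI} (hz : Fz lam N z ≠ 0) : z ∈ Zb L N := by
  unfold Fz at hz
  split_ifs at hz with h1
  · rw [mem_Zb]
    by_contra hcon
    apply hz
    apply h.2
    by_contra hc
    push Not at hc
    exact hcon ⟨by omega, hc.2, h1⟩
  · exact absurd rfl hz

/-- decomposition into shells -/
theorem shell_sum {ρ : ℝ} (hρ : 1 ≤ ρ) (h : ZI → ℝ) (I : ℕ) :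
    ∑ t ∈ bg 1 (ρ ^ I), h t = ∑ i ∈ range I, ∑ t ∈ bg (ρ ^ i) (ρ ^ (i + 1)), h t := by
  classical
  induction I with
  | zero =>
    rw [pow_zero, range_zero, sum_empty]
    refine sum_eq_zero fun t ht => ?_
    rw [mem_bg] at ht
    linarith [ht.2.1, ht.2.2]
  | succ I ih =>
    rw [sum_range_succ, ← ih]
    exact (Pool.Agent.N277.GN.sum_bq_add (one_le_pow₀ hρ) (pow_le_pow_right₀ hρ (Nat.le_succ I)) h).symm

theorem sum_bl_bg {h : ZI → ℝ} {X Z : ℝ} (hXZ : X ≤ Z) (h1 : ∀ t, t ≠ 0 → nz t ≤ 1 → h t = 0)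
    (h2 : ∀ t, t ≠ 0 → X < nz t → h t = 0) : ∑ t ∈ bl X, h t = ∑ t ∈ bg 1 Z, h t := by
  classical
  have e1 : ∑ t ∈ (bl X).filter (fun t => 1 < nz t), h t = ∑ t ∈ bl X, h t := by
    apply sum_filter_of_ne
    intro t ht hne
    by_contra hcon
    exact hne (h1 t ((mem_bl _ _).1 ht).1 (not_lt.1 hcon))
  rw [← e1]
  apply sum_subset
  · intro t ht
    rw [mem_filter, mem_bl] at ht
    rw [mem_bg]
    exact ⟨ht.1.1, ht.1.2.trans hXZ, ht.2⟩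
  · intro t ht ht'
    rw [mem_bg] at ht
    apply h2 t ht.1
    by_contra hcon
    apply ht'
    rw [mem_filter, mem_bl]
    exact ⟨⟨ht.1, not_lt.1 hcon⟩, ht.2.2⟩

/-- the exceptional set of the products -/
theorem bad_Z {L N N1 N2 a b ρ δ : ℝ} {lam : ℤ → ℝ} (hlam : Lm L lam) (hL : 0 ≤ L) (hN1 : 0 ≤ N1) (hN2 : 0 ≤ N2)
    (hρ : 1 ≤ ρ) (hN1' : ρ ^ 2 * (N1 ^ 2 + L ^ 2) ≤ N ^ 2) (hN2' : ρ ^ 2 * δ ≤ N2 ^ 2) (ha : 0 < a) (hb : 0 < b)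
    (hbad : ¬ ((ρ * a) * (ρ * b) ≤ N ^ 2 ∧ δ ≤ a * b)) {t v : ZI} (ht : t ∈ bg a (ρ * a)) (hv : v ∈ bg b (ρ * b))
    (hF : Fz lam N (t * v) ≠ 0) : t * v ∈ (Zb L N).filter (fun z => N1 < |(z.im : ℝ)|) ∪ Zb L N2 := by
  have hz := Fz_Zb hlam hF
  have hz' := mem_Zb.1 hz
  rw [mem_bg] at ht hv
  have hre : ((t * v).re : ℝ) ^ 2 ≤ L ^ 2 := by
    have h1 : (1 : ℝ) ≤ ((t * v).re : ℝ) := by exact_mod_cast hz'.1
    exact pow_le_pow_left₀ (by linarith) hz'.2.1 2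
  have hn : nz (t * v) = ((t * v).re : ℝ) ^ 2 + ((t * v).im : ℝ) ^ 2 := nz_eq _
  have hnm : nz (t * v) = nz t * nz v := Pool.Agent.N855.GN.nz_mul _ _
  rw [mem_union, mem_filter]
  by_cases h1 : (ρ * a) * (ρ * b) ≤ N ^ 2
  · have h2 : a * b < δ := by
      by_contra hcon
      exact hbad ⟨h1, not_lt.1 hcon⟩
    right
    rw [mem_Zb]
    refine ⟨hz'.1, hz'.2.1, ?_⟩
    have h3 : nz (t * v) ≤ ρ ^ 2 * δ := by
      rw [hnm]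
      calc nz t * nz v ≤ (ρ * a) * (ρ * b) := mul_le_mul ht.2.1 hv.2.1 (nz_nonneg _) (by positivity)
        _ = ρ ^ 2 * (a * b) := by ring
        _ ≤ ρ ^ 2 * δ := mul_le_mul_of_nonneg_left h2.le (by positivity)
    apply abs_le_of_sq_le_sq _ hN2
    nlinarith [sq_nonneg ((t * v).re : ℝ)]
  · left
    refine ⟨hz, ?_⟩
    push Not at h1
    have h2 : a * b < nz (t * v) := by
      rw [hnm]
      exact mul_lt_mul'' ht.2.2 hv.2.2 ha.le hb.le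
    have h3 : N ^ 2 < ρ ^ 2 * nz (t * v) := by
      calc N ^ 2 < (ρ * a) * (ρ * b) := h1
        _ = ρ ^ 2 * (a * b) := by ring
        _ ≤ ρ ^ 2 * nz (t * v) := mul_le_mul_of_nonneg_left h2.le (by positivity)
    have h4 : N1 ^ 2 < ((t * v).im : ℝ) ^ 2 := by
      have h5 : ρ ^ 2 * (N1 ^ 2 + L ^ 2) < ρ ^ 2 * nz (t * v) := lt_of_le_of_lt hN1' h3
      have h6 := lt_of_mul_lt_mul_left h5 (by positivity)
      linarith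
    rw [← sq_abs ((t * v).im : ℝ)] at h4
    exact lt_of_pow_lt_pow_left₀ 2 (abs_nonneg _) h4

/-- the number of the shells and their size -/
theorem shells {M ℓ : ℝ} {D : ℕ} (hM : 9 ≤ M) (hℓ : ℓ = Real.log M) (hℓ7 : 7 ≤ ℓ) : ∃ I : ℕ,
    2 * M ^ 2 ≤ (1 + 1 / ℓ ^ D) ^ I ∧ (1 + 1 / ℓ ^ D) ^ I ≤ M ^ 6 ∧ (I : ℝ) ≤ ℓ ^ (D + 2) := by
  have hM0 : 0 < M := by linarith
  have hℓ0 : 0 < ℓ := by linarith
  set η := 1 / ℓ ^ D with hη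
  have hη0 : 0 < η := by positivity
  have hη1 : η ≤ 1 := by
    rw [hη, div_le_one (by positivity)]
    exact one_le_pow₀ (by linarith)
  set V := 2 * M ^ 2 with hV
  have hV1 : 1 ≤ V := by nlinarith
  have hlogV : Real.log V ≤ 5 / 2 * ℓ := by
    rw [hV, Real.log_mul (by norm_num) (by positivity), Real.log_pow]
    have h1 := Real.log_two_lt_d9
    rw [hℓ] at hℓ7 ⊢
    push_cast
    linarith
  have hlogV0 : 0 ≤ Real.log V := Real.log_nonneg hV1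
  refine ⟨⌈2 * Real.log V / η⌉₊, ?_, ?_, ?_⟩
  · exact big_pow hV1 hη0 hη1 (Nat.le_ceil _)
  · have h1 := (Nat.ceil_lt_add_one (show 0 ≤ 2 * Real.log V / η by positivity)).le
    have h2 : (1 + η) ≤ Real.exp η := by
      have := Real.add_one_le_exp η
      linarith
    calc (1 + η) ^ ⌈2 * Real.log V / η⌉₊ ≤ (Real.exp η) ^ ⌈2 * Real.log V / η⌉₊ := pow_le_pow_left₀ (by positivity) h2 _
      _ = Real.exp (⌈2 * Real.log V / η⌉₊ * η) := by rw [← Real.exp_nat_mul]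
      _ ≤ Real.exp (6 * ℓ) := by
          apply Real.exp_le_exp.2
          calc (⌈2 * Real.log V / η⌉₊ : ℝ) * η ≤ (2 * Real.log V / η + 1) * η := mul_le_mul_of_nonneg_right h1 hη0.le
            _ = 2 * Real.log V + η := by field_simp
            _ ≤ 6 * ℓ := by linarith
      _ = M ^ 6 := by
          rw [hℓ, show (6 : ℝ) * Real.log M = ((6 : ℕ) : ℝ) * Real.log M by norm_num, Real.exp_nat_mul, Real.exp_log hM0]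
  · have h1 := (Nat.ceil_lt_add_one (show 0 ≤ 2 * Real.log V / η by positivity)).le
    have h2 : 2 * Real.log V / η = 2 * Real.log V * ℓ ^ D := by
      rw [hη]
      field_simp
    have h3 : 1 ≤ ℓ ^ D := one_le_pow₀ (by linarith)
    calc (⌈2 * Real.log V / η⌉₊ : ℝ) ≤ 2 * Real.log V * ℓ ^ D + 1 := h1.trans (by rw [h2])
      _ ≤ 5 * ℓ * ℓ ^ D + ℓ * ℓ ^ D := by
          have : 1 ≤ ℓ * ℓ ^ D := one_le_mul_of_one_le_of_one_le (by linarith) h3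
          nlinarith
      _ = 6 * (ℓ * ℓ ^ D) := by ring
      _ ≤ ℓ * (ℓ * ℓ ^ D) := mul_le_mul_of_nonneg_right (by linarith) (by positivity)
      _ = _ := by ring

theorem mul_big {a b X : ℝ} (ha : 1 ≤ a) (hb : X < b) (hb0 : 0 ≤ b) : X < a * b :=
  lt_of_lt_of_le hb (le_mul_of_one_le_left hb0 ha)

theorem rho_sq {η : ℝ} (h0 : 0 ≤ η) : 1 - 1 / (1 + η) ^ 2 ≤ 2 * η := by
  have h2 : 1 - 2 * η ≤ 1 / (1 + η) ^ 2 := by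
    rw [le_div_iff₀ (by positivity)]
    nlinarith [mul_nonneg h0 h0, mul_nonneg (mul_nonneg h0 h0) h0]
  linarith

/-- the thin region -/
theorem numT {N l P ρ : ℝ} (hN : 0 < N) (hl : 0 ≤ l) (hP : 1 ≤ P) (hlN : l ≤ N / 64) (hlP : l ^ 2 * P ≤ N ^ 2)
    (hρ : ρ = 1 + 1 / P) : ∃ N1 : ℝ, 0 ≤ N1 ∧ N / 3 ≤ N1 ∧ N1 ≤ N ∧ N - N1 ≤ 3 * (N / P) ∧
      ρ ^ 2 * (N1 ^ 2 + l ^ 2) ≤ N ^ 2 ∧ ρ ^ 2 * (N / P) ^ 2 ≤ (2 * N / P) ^ 2 := by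
  have hP0 : 0 < P := by linarith
  have hη0 : 0 < 1 / P := by positivity
  have hη1 : 1 / P ≤ 1 := by
    rw [div_le_one hP0]
    exact hP
  have hρ1 : 1 ≤ ρ := by linarith
  have hρ2 : ρ ≤ 2 := by linarith
  have hρ0 : 0 < ρ := by linarith
  have hρ4 : ρ ^ 2 ≤ 4 := by nlinarith
  have hNN : 0 < N ^ 2 := by positivity
  have hNρ : N ^ 2 / 4 ≤ N ^ 2 / ρ ^ 2 := div_le_div_of_nonneg_left hNN.le (by positivity) hρ4
  have hlsq : l ^ 2 ≤ N ^ 2 / 16 := by nlinarith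
  have hdiff : 0 ≤ N ^ 2 / ρ ^ 2 - l ^ 2 := by linarith
  have hN1sq : (Real.sqrt (N ^ 2 / ρ ^ 2 - l ^ 2)) ^ 2 = N ^ 2 / ρ ^ 2 - l ^ 2 := Real.sq_sqrt hdiff
  have hN10 : 0 ≤ Real.sqrt (N ^ 2 / ρ ^ 2 - l ^ 2) := Real.sqrt_nonneg _
  set N1 := Real.sqrt (N ^ 2 / ρ ^ 2 - l ^ 2) with hN1
  have hN1N : N1 ≤ N := by
    apply le_of_sq_le_sq _ hN.le
    rw [hN1sq]
    have h1 : N ^ 2 / ρ ^ 2 ≤ N ^ 2 := div_le_self hNN.le (one_le_pow₀ hρ1)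
    linarith [sq_nonneg l]
  refine ⟨N1, hN10, ?_, hN1N, ?_, ?_, ?_⟩
  · apply Real.le_sqrt_of_sq_le
    rw [div_pow]
    linarith
  · have h1 : l ^ 2 ≤ N ^ 2 * (1 / P) := by
      rw [mul_one_div, le_div_iff₀ hP0]
      exact hlP
    have h5 : N ^ 2 - N ^ 2 / ρ ^ 2 = N ^ 2 * (1 - 1 / ρ ^ 2) := by ring
    have h6 : N ^ 2 * (1 - 1 / ρ ^ 2) ≤ N ^ 2 * (2 * (1 / P)) := by
      apply mul_le_mul_of_nonneg_left _ hNN.le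
      rw [hρ]
      exact rho_sq hη0.le
    have h4 : N ^ 2 - N1 ^ 2 ≤ 3 * (N ^ 2 * (1 / P)) := by
      rw [hN1sq]
      linarith
    have h7 : (N - N1) * N ≤ N ^ 2 - N1 ^ 2 := by nlinarith
    have h8 : (N - N1) * N ≤ (3 * (N / P)) * N := by
      calc (N - N1) * N ≤ 3 * (N ^ 2 * (1 / P)) := h7.trans h4
        _ = _ := by ring
    exact le_of_mul_le_mul_right h8 hN
  · rw [hN1sq, sub_add_cancel, mul_div_cancel₀ _ (by positivity)]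
  · calc ρ ^ 2 * (N / P) ^ 2 ≤ 4 * (N / P) ^ 2 := mul_le_mul_of_nonneg_right hρ4 (by positivity)
      _ = (2 * N / P) ^ 2 := by ring

theorem card_line {a b : ℝ} (h : a ≤ b) : ((Icc ⌈a⌉ ⌊b⌋).card : ℝ) ≤ b - a + 1 := by
  rw [Int.card_Icc]
  rcases le_or_gt 0 (⌊b⌋ + 1 - ⌈a⌉) with h1 | h1
  · have h2 : (((⌊b⌋ + 1 - ⌈a⌉).toNat : ℕ) : ℤ) = ⌊b⌋ + 1 - ⌈a⌉ := Int.toNat_of_nonneg h1
    have h3 : (((⌊b⌋ + 1 - ⌈a⌉).toNat : ℕ) : ℝ) = ((⌊b⌋ + 1 - ⌈a⌉ : ℤ) : ℝ) := by exact_mod_cast h2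
    rw [h3]
    push_cast
    have h4 := Int.floor_le b
    have h5 := Int.le_ceil a
    linarith
  · rw [Int.toNat_of_nonpos h1.le]
    push_cast
    linarith

/-- the number of the elements of a box -/
theorem card_Zb {L N : ℝ} (hL : 0 ≤ L) (hN : 0 ≤ N) : ((Zb L N).card : ℝ) ≤ L * (2 * N + 1) := by
  classical
  unfold Zb
  have h1 : (((Icc 1 ⌊L⌋) ×ˢ (Icc ⌈-N⌉ ⌊N⌋)).image (fun p : ℤ × ℤ => (⟨p.1, p.2⟩ : ZI))).card ≤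
      ((Icc 1 ⌊L⌋) ×ˢ (Icc ⌈-N⌉ ⌊N⌋)).card := card_image_le
  rw [card_product] at h1
  have h2 : ((Icc 1 ⌊L⌋).card : ℝ) ≤ L := by
    rw [Int.card_Icc, show ⌊L⌋ + 1 - 1 = ⌊L⌋ by ring]
    have h5 : ((⌊L⌋.toNat : ℕ) : ℤ) = ⌊L⌋ := Int.toNat_of_nonneg (Int.floor_nonneg.2 hL)
    have h6 : ((⌊L⌋.toNat : ℕ) : ℝ) = (⌊L⌋ : ℝ) := by exact_mod_cast h5
    rw [h6]
    exact Int.floor_le _
  have h3 := card_line (show -N ≤ N by linarith)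
  calc (((((Icc 1 ⌊L⌋) ×ˢ (Icc ⌈-N⌉ ⌊N⌋)).image (fun p : ℤ × ℤ => (⟨p.1, p.2⟩ : ZI))).card : ℕ) : ℝ) ≤
        (((Icc 1 ⌊L⌋).card * (Icc ⌈-N⌉ ⌊N⌋).card : ℕ) : ℝ) := by exact_mod_cast h1
    _ = ((Icc 1 ⌊L⌋).card : ℝ) * ((Icc ⌈-N⌉ ⌊N⌋).card : ℝ) := by push_cast; ring
    _ ≤ L * (2 * N + 1) := mul_le_mul h2 (by linarith) (Nat.cast_nonneg _) hL

/-- the number of the elements of a thin box -/
theorem card_thin {L N1 N : ℝ} (hL : 0 ≤ L) (hN1 : 0 ≤ N1) (hN : N1 ≤ N) :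
    (((Zb L N).filter (fun z => N1 < |(z.im : ℝ)|)).card : ℝ) ≤ L * (2 * (N - N1) + 2) := by
  classical
  have h0 : (Zb L N).filter (fun z => N1 < |(z.im : ℝ)|) ⊆
      ((Icc 1 ⌊L⌋) ×ˢ (Icc ⌈N1⌉ ⌊N⌋ ∪ Icc ⌈-N⌉ ⌊-N1⌋)).image (fun p : ℤ × ℤ => (⟨p.1, p.2⟩ : ZI)) := by
    intro z hz
    rw [mem_filter, mem_Zb] at hz
    rw [mem_image]
    refine ⟨(z.re, z.im), ?_, rfl⟩
    rw [mem_product, mem_Icc, mem_union, mem_Icc, mem_Icc, Int.le_floor]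
    refine ⟨⟨hz.1.1, hz.1.2.1⟩, ?_⟩
    rcases le_or_gt 0 (z.im : ℝ) with h1 | h1
    · left
      rw [abs_of_nonneg h1] at hz
      exact ⟨Int.ceil_le.2 hz.2.le, Int.le_floor.2 hz.1.2.2⟩
    · right
      rw [abs_of_neg h1] at hz
      exact ⟨Int.ceil_le.2 (by linarith [hz.1.2.2]), Int.le_floor.2 (by linarith [hz.2])⟩
  have h1 := (card_le_card h0).trans card_image_le
  rw [card_product] at h1
  have h2 : ((Icc 1 ⌊L⌋).card : ℝ) ≤ L := by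
    rw [Int.card_Icc, show ⌊L⌋ + 1 - 1 = ⌊L⌋ by ring]
    have h5 : ((⌊L⌋.toNat : ℕ) : ℤ) = ⌊L⌋ := Int.toNat_of_nonneg (Int.floor_nonneg.2 hL)
    have h6 : ((⌊L⌋.toNat : ℕ) : ℝ) = (⌊L⌋ : ℝ) := by exact_mod_cast h5
    rw [h6]
    exact Int.floor_le _
  have h3 := card_line hN
  have h4 := card_line (show -N ≤ -N1 by linarith)
  have h5 : ((Icc ⌈N1⌉ ⌊N⌋ ∪ Icc ⌈-N⌉ ⌊-N1⌋).card : ℝ) ≤ 2 * (N - N1) + 2 := by
    have h6 : ((Icc ⌈N1⌉ ⌊N⌋ ∪ Icc ⌈-N⌉ ⌊-N1⌋).card : ℝ) ≤ (Icc ⌈N1⌉ ⌊N⌋).card + (Icc ⌈-N⌉ ⌊-N1⌋).card := by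
      exact_mod_cast card_union_le _ _
    linarith
  calc (((Zb L N).filter (fun z => N1 < |(z.im : ℝ)|)).card : ℝ) ≤
        (((Icc 1 ⌊L⌋).card * (Icc ⌈N1⌉ ⌊N⌋ ∪ Icc ⌈-N⌉ ⌊-N1⌋).card : ℕ) : ℝ) := by exact_mod_cast h1
    _ = ((Icc 1 ⌊L⌋).card : ℝ) * ((Icc ⌈N1⌉ ⌊N⌋ ∪ Icc ⌈-N⌉ ⌊-N1⌋).card : ℝ) := by push_cast; ring
    _ ≤ L * (2 * (N - N1) + 2) := mul_le_mul h2 h5 (Nat.cast_nonneg _) hL

end Pool.Agent.J6H16.E3
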