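import Pool.Agent.J6H16.E3.Bc

/-!
# Project E3 (helper16): the bilinear sums, one pair of shells
-/

set_option autoImplicit false

namespace Pool.Agent.J6H16.E3

open Finset Filter Topology
open Pool.Agent.N782.GN hiding f1
open Pool.Agent.N855.GN
open Pool.Agent.H304R3.HK (UH bb LamK CS)
open Pool.Agent.J6H16.PF Pool.Agent.J6H16.PR Pool.Agent.J6H16.E2

open Classical in
/-- the summand, primitive `t` -/
noncomputable def G3 (z0 : ℕ) (c4 M x y u v : ℝ) (lam : ℤ → ℝ) (t w : ZI) : ℝ :=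
  (if ct t = 1 then cv (fw M x y) (gP z0 c4 M) t else 0) * fw M u v w * Fz lam M (t * w)

/-- the sum over a pair of shells -/
theorem tgood3 {z0 : ℕ} {c4 M x y u v L : ℝ} {lam : ℤ → ℝ} {a b ρ : ℝ} (hlam : Lm L lam) (ha : 1 ≤ a) (hb : 1 ≤ b)
    (hρ : 1 ≤ ρ) (hρ4 : ρ ≤ 4) (hab : (ρ * a) * (ρ * b) ≤ M ^ 2) (hM : 0 ≤ M) :
    ∑ t ∈ bg a (ρ * a), ∑ w ∈ bg b (ρ * b), G3 z0 c4 M x y u v lam t w =
      ∑ l ∈ Icc 1 ⌊L⌋, lam l * Th (bs z0 c4 M x y a (ρ * a))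
        (fun w => if b < nz w ∧ nz w ≤ ρ * b then fw M u v w else 0) (Real.sqrt a) (Real.sqrt b) l := by
  classical
  set γ : ZI → ℝ := fun w => if b < nz w ∧ nz w ≤ ρ * b then fw M u v w else 0 with hγ
  have hsa : (Real.sqrt a) ^ 2 = a := Real.sq_sqrt (by linarith)
  have hsb : (Real.sqrt b) ^ 2 = b := Real.sq_sqrt (by linarith)
  -- the left side
  have e1 : ∑ t ∈ bg a (ρ * a), ∑ w ∈ bg b (ρ * b), G3 z0 c4 M x y u v lam t w =
      ∑ t ∈ bg a (4 * a), ∑ w ∈ bg b (4 * b), bs z0 c4 M x y a (ρ * a) t * γ w * lam (t * w).re := by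
    have hsubA : bg a (ρ * a) ⊆ bg a (4 * a) := by
      intro t ht
      rw [mem_bg] at ht ⊢
      exact ⟨ht.1, ht.2.1.trans (by nlinarith), ht.2.2⟩
    have hsubB : bg b (ρ * b) ⊆ bg b (4 * b) := by
      intro t ht
      rw [mem_bg] at ht ⊢
      exact ⟨ht.1, ht.2.1.trans (by nlinarith), ht.2.2⟩
    rw [← sum_subset hsubA (f := fun t => ∑ w ∈ bg b (4 * b), bs z0 c4 M x y a (ρ * a) t * γ w * lam (t * w).re)]
    · refine sum_congr rfl fun t ht => ?_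
      rw [← sum_subset hsubB (f := fun w => bs z0 c4 M x y a (ρ * a) t * γ w * lam (t * w).re)]
      · refine sum_congr rfl fun w hw => ?_
        rw [mem_bg] at ht hw
        have h1 : |((t * w).im : ℝ)| ≤ M := by
          refine (Pool.Agent.N277.GN.abs_im_le _).trans ?_
          apply Real.sqrt_le_iff.2
          refine ⟨hM, ?_⟩
          rw [Pool.Agent.N855.GN.nz_mul]
          exact (mul_le_mul ht.2.1 hw.2.1 (nz_nonneg _) (by nlinarith)).trans hab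
        have hb1 : bs z0 c4 M x y a (ρ * a) t = (if ct t = 1 then cv (fw M x y) (gP z0 c4 M) t else 0) := by
          unfold bs
          exact if_pos ⟨ht.2.2, ht.2.1⟩
        have hg1 : γ w = fw M u v w := if_pos ⟨hw.2.2, hw.2.1⟩
        have hF : Fz lam M (t * w) = lam (t * w).re := by
          unfold Fz
          exact if_pos h1
        unfold G3
        rw [hb1, hg1, hF]
      · intro w hw hw'
        have : γ w = 0 := by
          simp only [hγ]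
          rw [if_neg]
          rintro ⟨h1, h2⟩
          apply hw'
          rw [mem_bg] at hw ⊢
          exact ⟨hw.1, h2, h1⟩
        rw [this]
        ring
    · intro t ht ht'
      have : bs z0 c4 M x y a (ρ * a) t = 0 := by
        unfold bs
        rw [if_neg]
        rintro ⟨h1, h2⟩
        apply ht'
        rw [mem_bg] at ht ⊢
        exact ⟨ht.1, h2, h1⟩
      rw [this]
      refine sum_eq_zero fun w _ => ?_
      ring
  rw [e1]
  -- the right side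
  have e2 : ∑ l ∈ Icc 1 ⌊L⌋, lam l * Th (bs z0 c4 M x y a (ρ * a)) γ (Real.sqrt a) (Real.sqrt b) l =
      ∑ v ∈ bg b (4 * b), ∑ w ∈ bg a (4 * a), ∑ l ∈ Icc 1 ⌊L⌋, lam l * (if (w * v).re = l then
        γ v * bs z0 c4 M x y a (ρ * a) w else 0) := by
    unfold Th
    rw [hsa, hsb]
    rw [sum_comm' (s := bg b (4 * b)) (t := fun _ => bg a (4 * a)) (s' := fun _ => bg b (4 * b)) (t' := bg a (4 * a))
      (by intros; tauto)]
    have : ∀ w ∈ bg a (4 * a), ∑ v ∈ bg b (4 * b), ∑ l ∈ Icc 1 ⌊L⌋, lam l * (if (w * v).re = l then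
        γ v * bs z0 c4 M x y a (ρ * a) w else 0) = ∑ l ∈ Icc 1 ⌊L⌋, ∑ v ∈ bg b (4 * b), lam l * (if (w * v).re = l then
        γ v * bs z0 c4 M x y a (ρ * a) w else 0) := fun w _ => sum_comm
    rw [sum_congr rfl this, sum_comm]
    refine sum_congr rfl fun l _ => ?_
    rw [mul_sum, sum_comm]
    refine sum_congr rfl fun v _ => ?_
    rw [mul_sum]
  rw [e2, sum_comm]
  refine sum_congr rfl fun v _ => ?_
  refine sum_congr rfl fun w _ => ?_
  by_cases hl : (w * v).re ∈ Icc 1 ⌊L⌋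
  · rw [sum_eq_single_of_mem _ hl]
    · rw [if_pos rfl]
      ring
    · intro l _ hne
      rw [if_neg (fun h => hne h.symm), mul_zero]
  · rw [hlam.zero hl, mul_zero]
    symm
    refine sum_eq_zero fun l hl' => ?_
    rw [if_neg, mul_zero]
    rintro rfl
    exact hl hl'

/-- the conclusion of `box3` for a fixed `M` -/
def Box3 (ε C : ℝ) (A : ℕ) (z0 : ℕ) (c3 c4 M : ℝ) : Prop := ∀ (M' L R x y Z1 Z2 : ℝ),
    M ^ (1 / 2 : ℝ) ≤ M' → M' ≤ M ^ 2 → 1 ≤ L → L ≤ M' ^ (1 - ε) → 0 < R → M' ^ (1 + ε) ≤ R ^ 2 * L →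
    R ^ 2 ≤ L * M' ^ (1 - ε) → 4 * R ^ 2 ≤ M ^ 3 → M ^ c3 ≤ x → y ≤ M ^ c4 → R ^ 2 ≤ Z1 → Z2 ≤ M ^ 3 →
    ∀ γ : ZI → ℝ, (∀ v, |γ v| ≤ 1) →
      ∑ l ∈ Icc (1 : ℤ) ⌊L⌋, |Th (bs z0 c4 M x y Z1 Z2) γ R (M' / (8 * R)) l| ≤ C * L * M' / (Real.log M') ^ A

/-- the parameters -/
structure H3 (ε c3 c4 : ℝ) (D : ℕ) (M L x y u v : ℝ) : Prop where
  e0 : 0 < ε
  e1 : ε ≤ 1
  c30 : 0 < c3
  c43 : c3 < c4
  M9 : 9 ≤ M
  L1 : 1 ≤ L
  L2 : L ≤ M ^ (1 - ε)
  u1 : M / L * M ^ ε ≤ u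
  v1 : v ≤ M ^ (1 - ε)
  x1 : M ^ c3 ≤ x
  y1 : y ≤ M ^ c4
  l7 : 7 ≤ Real.log M
  b1 : 64 * (Real.log M) ^ (2 * D) ≤ M ^ (ε / 8)

namespace H3

variable {ε c3 c4 : ℝ} {D : ℕ} {M L x y u v : ℝ}

theorem M1 (h : H3 ε c3 c4 D M L x y u v) : 1 ≤ M := by linarith [h.M9]
theorem M0 (h : H3 ε c3 c4 D M L x y u v) : 0 < M := by linarith [h.M9]

theorem ML (h : H3 ε c3 c4 D M L x y u v) : M ^ ε ≤ M / L := by
  rw [le_div_iff₀ (by linarith [h.L1])]
  calc M ^ ε * L ≤ M ^ ε * M ^ (1 - ε) := mul_le_mul_of_nonneg_left h.L2 (by have := h.M0; positivity)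
    _ = M := by rw [← Real.rpow_add h.M0]; simp

theorem u0 (h : H3 ε c3 c4 D M L x y u v) : 1 ≤ u := by
  have h1 := Real.one_le_rpow h.M1 h.e0.le
  have h2 := h.ML
  have h3 := h.u1
  nlinarith

theorem x0 (h : H3 ε c3 c4 D M L x y u v) : 1 ≤ x := (Real.one_le_rpow h.M1 h.c30.le).trans h.x1

theorem vM (h : H3 ε c3 c4 D M L x y u v) : v ≤ M := by
  refine h.v1.trans ?_
  calc M ^ (1 - ε) ≤ M ^ (1 : ℝ) := Real.rpow_le_rpow_of_exponent_le h.M1 (by linarith [h.e0])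
    _ = M := Real.rpow_one M

theorem lD (h : H3 ε c3 c4 D M L x y u v) : (Real.log M) ^ D ≤ M ^ (ε / 8) := by
  have h1 : 1 ≤ Real.log M := by linarith [h.l7]
  have h2 : (Real.log M) ^ D ≤ (Real.log M) ^ (2 * D) := pow_le_pow_right₀ h1 (by omega)
  have h3 : 0 ≤ (Real.log M) ^ (2 * D) := by positivity
  linarith [h.b1]

theorem Nbig (h : H3 ε c3 c4 D M L x y u v) : M ^ (1 - ε / 8) ≤ M / (Real.log M) ^ D := by
  have hM0 := h.M0
  have hl := h.l7
  rw [le_div_iff₀ (by positivity)]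
  calc M ^ (1 - ε / 8) * (Real.log M) ^ D ≤ M ^ (1 - ε / 8) * M ^ (ε / 8) :=
        mul_le_mul_of_nonneg_left h.lD (by positivity)
    _ = M := by rw [← Real.rpow_add hM0]; simp

end H3

theorem fw_one {M u v : ℝ} (hM : 1 < M) (hv : v ≤ M) (w : ZI) : |fw M u v w| ≤ 1 := by
  have hl := Real.log_pos hM
  rw [abs_of_nonneg (fw_nonneg hM.le _ _ _)]
  unfold fw
  split_ifs with h
  · rw [div_le_one hl]
    unfold Lp
    split_ifs with h1
    · have h2 : w ≠ 0 := by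
        rintro rfl
        exact h1.ne_zero (by simp [nn])
      exact Real.log_le_log (nz_pos h2) (h.2.trans hv)
    · exact hl.le
  · norm_num

/-- **one pair of shells** -/
theorem tij3 {ε C c3 c4 : ℝ} {A D z0 : ℕ} {M L x y u v : ℝ} (h : H3 ε c3 c4 D M L x y u v) (hC : 0 < C)
    (hbox : Box3 (ε / 2) C A z0 c3 c4 M) {lam : ℤ → ℝ} (hlam : Lm L lam) {a b ρ : ℝ} (ha : 1 ≤ a) (hb : 1 ≤ b)
    (hρ : 1 ≤ ρ) (hρ2 : ρ ≤ 2) (hab : (ρ * a) * (ρ * b) ≤ M ^ 2)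
    (hab2 : (M / (Real.log M) ^ D) ^ 2 ≤ a * b) :
    |∑ t ∈ bg a (ρ * a), ∑ w ∈ bg b (ρ * b), G3 z0 c4 M x y u v lam t w| ≤
      8 * C * 2 ^ A * (L * M) / (Real.log M) ^ A := by
  classical
  have hM0 := h.M0
  have hM1 := h.M1
  have hM9 := h.M9
  have hL0 := h.L1
  have hl7 := h.l7
  have hε0 := h.e0
  have hε1 := h.e1
  have hu0 := h.u0
  set ℓ := Real.log M with hℓ
  have hℓ0 : 0 < ℓ := by linarith
  have hrhs : 0 ≤ 8 * C * 2 ^ A * (L * M) / ℓ ^ A := by positivity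
  have ha0 : 0 < a := by linarith
  have hb0 : 0 < b := by linarith
  -- trivial cases
  by_cases hex : ∃ t ∈ bg a (ρ * a), ∃ w ∈ bg b (ρ * b), G3 z0 c4 M x y u v lam t w ≠ 0
  swap
  · push Not at hex
    rw [sum_eq_zero fun t ht => sum_eq_zero fun w hw => hex t ht w hw, abs_zero]
    exact hrhs
  obtain ⟨t1, ht1, w1, hw1, hne⟩ := hex
  rw [mem_bg] at ht1 hw1
  unfold G3 at hne
  have hne2 := fw_ne (right_ne_zero_of_mul (left_ne_zero_of_mul hne))
  have hbv : b ≤ v := hw1.2.2.le.trans hne2.2.2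
  have hub : u ≤ 2 * b := by
    calc u ≤ nz w1 := hne2.2.1.le
      _ ≤ ρ * b := hw1.2.1
      _ ≤ 2 * b := mul_le_mul_of_nonneg_right hρ2 hb0.le
  -- the parameters of the box
  set M' := 8 * (Real.sqrt a * Real.sqrt b) with hM'
  have hsa0 : 0 < Real.sqrt a := Real.sqrt_pos.2 ha0
  have hsb0 : 0 < Real.sqrt b := Real.sqrt_pos.2 hb0
  have hsa : (Real.sqrt a) ^ 2 = a := Real.sq_sqrt ha0.le
  have hsb : (Real.sqrt b) ^ 2 = b := Real.sq_sqrt hb0.le
  have hM'1 : M / ℓ ^ D ≤ Real.sqrt a * Real.sqrt b := by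
    apply le_of_sq_le_sq _ (by positivity)
    rw [mul_pow, hsa, hsb]
    exact hab2
  have hbig := h.Nbig
  have hM'0 : M ^ (1 - ε / 8) ≤ M' := by
    have : 0 ≤ M / ℓ ^ D := by positivity
    calc M ^ (1 - ε / 8) ≤ M / ℓ ^ D := hbig
      _ ≤ 8 * (M / ℓ ^ D) := by linarith
      _ ≤ M' := by rw [hM']; linarith
  have hM'00 : 0 < M' := lt_of_lt_of_le (by positivity) hM'0
  have habM : a * b ≤ M ^ 2 := by
    refine le_trans ?_ hab
    have h1 : a ≤ ρ * a := by nlinarith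
    have h2 : b ≤ ρ * b := by nlinarith
    exact mul_le_mul h1 h2 hb0.le (by linarith)
  have hM'2 : M' ≤ 8 * M := by
    have : Real.sqrt a * Real.sqrt b ≤ M := by
      apply le_of_sq_le_sq _ hM0.le
      rw [mul_pow, hsa, hsb]
      exact habM
    rw [hM']
    linarith
  have q1 : M ^ (1 / 2 : ℝ) ≤ M' := (Real.rpow_le_rpow_of_exponent_le hM1 (by linarith)).trans hM'0
  have q2 : M' ≤ M ^ 2 := by nlinarith
  have hb1 := h.b1
  have hℓD1 : 1 ≤ ℓ ^ (2 * D) := one_le_pow₀ (by linarith)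
  have hMe8 : 64 ≤ M ^ (ε / 8) := by linarith
  have hpow : 2 * M ^ (1 - ε) ≤ M' ^ (1 - ε / 2) := by
    calc 2 * M ^ (1 - ε) ≤ M ^ (ε / 8) * M ^ (1 - ε) := mul_le_mul_of_nonneg_right (by linarith) (by positivity)
      _ = M ^ (1 - 7 * ε / 8) := by
          rw [← Real.rpow_add hM0]
          congr 1
          ring
      _ ≤ M ^ ((1 - ε / 8) * (1 - ε / 2)) := by
          apply Real.rpow_le_rpow_of_exponent_le hM1
          nlinarith
      _ = (M ^ (1 - ε / 8)) ^ (1 - ε / 2) := by rw [← Real.rpow_mul hM0.le]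
      _ ≤ M' ^ (1 - ε / 2) := Real.rpow_le_rpow (by positivity) hM'0 (by linarith)
  have hMε0 : 0 < M ^ (1 - ε) := by positivity
  have q4 : L ≤ M' ^ (1 - ε / 2) := h.L2.trans (by linarith)
  have q5 : M' ^ (1 + ε / 2) ≤ (Real.sqrt a) ^ 2 * L := by
    rw [hsa]
    have k1 : M' ^ (1 + ε / 2) ≤ 64 * M ^ (1 + ε / 2) := by
      calc M' ^ (1 + ε / 2) ≤ (8 * M) ^ (1 + ε / 2) := Real.rpow_le_rpow hM'00.le hM'2 (by linarith)
        _ = 8 ^ (1 + ε / 2) * M ^ (1 + ε / 2) := Real.mul_rpow (by norm_num) hM0.le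
        _ ≤ 8 ^ (2 : ℝ) * M ^ (1 + ε / 2) := by
            apply mul_le_mul_of_nonneg_right _ (by positivity)
            exact Real.rpow_le_rpow_of_exponent_le (by norm_num) (by linarith)
        _ = 64 * M ^ (1 + ε / 2) := by norm_num
    have k2 : 64 * M ^ (1 + ε / 2) * ℓ ^ (2 * D) * M ^ (1 - ε) ≤ M ^ 2 := by
      calc 64 * M ^ (1 + ε / 2) * ℓ ^ (2 * D) * M ^ (1 - ε) = (64 * ℓ ^ (2 * D)) * (M ^ (1 + ε / 2) * M ^ (1 - ε)) := by ring
        _ ≤ M ^ (ε / 8) * (M ^ (1 + ε / 2) * M ^ (1 - ε)) := mul_le_mul_of_nonneg_right hb1 (by positivity)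
        _ = M ^ (2 - 3 * ε / 8) := by
            rw [← Real.rpow_add hM0, ← Real.rpow_add hM0]
            congr 1
            ring
        _ ≤ M ^ (2 : ℝ) := Real.rpow_le_rpow_of_exponent_le hM1 (by linarith)
        _ = M ^ 2 := by norm_num
    have k3 : M ^ 2 ≤ a * ℓ ^ (2 * D) * M ^ (1 - ε) := by
      have k4 : M ^ 2 ≤ a * b * ℓ ^ (2 * D) := by
        rw [div_pow, div_le_iff₀ (by positivity), ← pow_mul, mul_comm D 2] at hab2
        exact hab2
      calc M ^ 2 ≤ a * b * ℓ ^ (2 * D) := k4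
        _ ≤ a * M ^ (1 - ε) * ℓ ^ (2 * D) := by
            apply mul_le_mul_of_nonneg_right _ (by positivity)
            exact mul_le_mul_of_nonneg_left (hbv.trans h.v1) ha0.le
        _ = _ := by ring
    have k5 : (64 * M ^ (1 + ε / 2)) * (ℓ ^ (2 * D) * M ^ (1 - ε)) ≤ a * (ℓ ^ (2 * D) * M ^ (1 - ε)) := by
      calc _ = 64 * M ^ (1 + ε / 2) * ℓ ^ (2 * D) * M ^ (1 - ε) := by ring
        _ ≤ a * ℓ ^ (2 * D) * M ^ (1 - ε) := k2.trans k3
        _ = _ := by ring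
    have k6 := le_of_mul_le_mul_right k5 (by positivity)
    calc M' ^ (1 + ε / 2) ≤ a := k1.trans k6
      _ ≤ a * L := le_mul_of_one_le_right ha0.le hL0
  have q6 : (Real.sqrt a) ^ 2 ≤ L * M' ^ (1 - ε / 2) := by
    rw [hsa]
    have k2 : a ≤ 2 * (L * M ^ (1 - ε)) := by
      have k3 : M / L * M ^ ε * a ≤ 2 * M ^ 2 := by
        calc M / L * M ^ ε * a ≤ u * a := mul_le_mul_of_nonneg_right h.u1 ha0.le
          _ ≤ 2 * b * a := mul_le_mul_of_nonneg_right hub ha0.le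
          _ = 2 * (a * b) := by ring
          _ ≤ 2 * M ^ 2 := by linarith
      have k4 : M ^ ε * M ^ (1 - ε) = M := by rw [← Real.rpow_add hM0]; simp
      have k5 : (0 : ℝ) < M / L * M ^ ε := by positivity
      have k6 : 2 * M ^ 2 = (M / L * M ^ ε) * (2 * (L * M ^ (1 - ε))) := by
        calc 2 * M ^ 2 = 2 * (M * M) := by ring
          _ = 2 * (M * (M ^ ε * M ^ (1 - ε))) := by rw [k4]
          _ = _ := by field_simp
      rw [k6] at k3
      exact le_of_mul_le_mul_left k3 k5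
    calc a ≤ L * (2 * M ^ (1 - ε)) := by linarith
      _ ≤ L * M' ^ (1 - ε / 2) := mul_le_mul_of_nonneg_left hpow (by linarith)
  have haM : a ≤ M ^ 2 := (le_mul_of_one_le_right ha0.le hb).trans habM
  have hM3 : 9 * M ^ 2 ≤ M ^ 3 := by
    calc 9 * M ^ 2 ≤ M * M ^ 2 := mul_le_mul_of_nonneg_right hM9 (by positivity)
      _ = M ^ 3 := by ring
  have q8 : 4 * (Real.sqrt a) ^ 2 ≤ M ^ 3 := by
    rw [hsa]
    linarith
  have q7 : ρ * a ≤ M ^ 3 := by
    have : ρ * a ≤ 2 * a := mul_le_mul_of_nonneg_right hρ2 ha0.le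
    linarith
  set γ : ZI → ℝ := fun w => if b < nz w ∧ nz w ≤ ρ * b then fw M u v w else 0 with hγ
  have hγ1 : ∀ w, |γ w| ≤ 1 := by
    intro w
    simp only [hγ]
    split_ifs with hv
    · exact fw_one (by linarith) h.vM w
    · rw [abs_zero]; norm_num
  have key := hbox M' L (Real.sqrt a) x y a (ρ * a) q1 q2 hL0 q4 hsa0 q5 q6 q8 h.x1 h.y1 hsa.le q7 γ hγ1
  have hP : M' / (8 * Real.sqrt a) = Real.sqrt b := by
    rw [hM']
    field_simp
  rw [hP] at key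
  rw [tgood3 hlam ha hb hρ (by linarith) hab hM0.le]
  have hlogM' : ℓ / 2 ≤ Real.log M' := by
    have := Real.log_le_log (by positivity) q1
    rw [Real.log_rpow hM0] at this
    linarith
  calc |∑ l ∈ Icc 1 ⌊L⌋, lam l * Th (bs z0 c4 M x y a (ρ * a)) γ (Real.sqrt a) (Real.sqrt b) l|
      ≤ ∑ l ∈ Icc 1 ⌊L⌋, |Th (bs z0 c4 M x y a (ρ * a)) γ (Real.sqrt a) (Real.sqrt b) l| := by
        refine (abs_sum_le_sum_abs _ _).trans (sum_le_sum fun l _ => ?_)
        rw [abs_mul]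
        calc |lam l| * _ ≤ 1 * _ := mul_le_mul_of_nonneg_right (hlam.1 l) (abs_nonneg _)
          _ = _ := one_mul _
    _ ≤ C * L * M' / (Real.log M') ^ A := key
    _ ≤ C * L * (8 * M) / (ℓ / 2) ^ A := by
        have h1 : (ℓ / 2) ^ A ≤ (Real.log M') ^ A := pow_le_pow_left₀ (by positivity) hlogM' A
        have h2 : (0 : ℝ) < (ℓ / 2) ^ A := by positivity
        apply div_le_div₀ (by positivity) _ h2 h1
        apply mul_le_mul_of_nonneg_left hM'2 (by positivity)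
    _ = _ := by
        rw [div_pow]
        field_simp

end Pool.Agent.J6H16.E3
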