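import Pool.Agent.J6H16.E3.Bd

/-!
# Project E3 (helper16): the bilinear sums, all shells
-/

set_option autoImplicit false

namespace Pool.Agent.J6H16.E3

open Finset Filter Topology
open Pool.Agent.N782.GN hiding f1
open Pool.Agent.N855.GN
open Pool.Agent.H304R3.HK (UH bb LamK CS)
open Pool.Agent.J6H16.PF Pool.Agent.J6H16.PR Pool.Agent.J6H16.E2

/-- pairs with the product in a given set -/
theorem pairs3 {z0 : ℕ} {c3 c4 M : ℝ} {B : ℕ} (hbig : Big z0 c3 c4 M B) (x y u v : ℝ) (S1 S2 Z : Finset ZI)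
    (h1 : ∀ t ∈ S1, t ≠ 0) (h2 : ∀ w ∈ S2, w ≠ 0) (hZ : ∀ z ∈ Z, z ≠ 0 ∧ nz z ≤ M ^ 3) (c : ZI → ZI → ℝ)
    (hc : ∀ t w, |c t w| ≤ 1) (hcZ : ∀ t w, c t w ≠ 0 → t * w ∈ Z) :
    |∑ t ∈ S1, ∑ w ∈ S2, cv (fw M x y) (gP z0 c4 M) t * fw M u v w * c t w| ≤ 1296 * (Z.card : ℝ) := by
  classical
  have hM : 1 < M := by linarith [hbig.M3]
  have hl := Real.log_pos hM
  set β : ZI → ℝ := fun t => if t ≠ 0 ∧ nz t ≤ M ^ 3 then cv (fw M x y) (gP z0 c4 M) t else 0 with hβ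
  have hβ1 : ∀ t, |β t| ≤ 108 := by
    intro t
    simp only [hβ]
    split_ifs with h
    · have := cvP_bd (x := x) (y := y) hbig (E := 3) h.1 h.2
      norm_num at this
      exact this
    · rw [abs_zero]; norm_num
  set T := (S2 ×ˢ S1).image (fun p : ZI × ZI => p.1 * p.2) with hT
  have e1 : |∑ t ∈ S1, ∑ w ∈ S2, cv (fw M x y) (gP z0 c4 M) t * fw M u v w * c t w| ≤
      ∑ w ∈ S2, ∑ t ∈ S1, |fw M u v w| * |β t| * (if w * t ∈ Z then 1 else 0) := by
    refine (abs_sum_le_sum_abs _ _).trans ?_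
    rw [sum_comm (s := S2)]
    refine sum_le_sum fun t ht => ?_
    refine (abs_sum_le_sum_abs _ _).trans (sum_le_sum fun w hw => ?_)
    rw [abs_mul, abs_mul]
    by_cases h0 : c t w = 0
    · rw [h0, abs_zero, mul_zero]
      split_ifs <;> positivity
    · have h3 := hcZ t w h0
      have h4 := hZ _ h3
      rw [if_pos (by rw [mul_comm]; exact h3), mul_one]
      have h5 : nz t ≤ M ^ 3 := by
        refine le_trans ?_ h4.2
        rw [Pool.Agent.N855.GN.nz_mul]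
        exact le_mul_of_one_le_right (nz_nonneg t) (nz_one_le (h2 w hw))
      have h6 : β t = cv (fw M x y) (gP z0 c4 M) t := if_pos ⟨h1 t ht, h5⟩
      rw [h6]
      calc |cv (fw M x y) (gP z0 c4 M) t| * |fw M u v w| * |c t w| ≤
            |cv (fw M x y) (gP z0 c4 M) t| * |fw M u v w| * 1 := mul_le_mul_of_nonneg_left (hc t w) (by positivity)
        _ = _ := by ring
  refine e1.trans ?_
  rw [grp (fun w => |fw M u v w|) (fun t => |β t|) (fun z => if z ∈ Z then (1 : ℝ) else 0) S2 S1 T (fun w hw t ht => by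
    rw [hT, mem_image]
    exact ⟨(w, t), mem_product.2 ⟨hw, ht⟩, rfl⟩)]
  have e2 : ∀ s ∈ Z, cf (fun w => |fw M u v w|) (fun t => |β t|) S2 S1 s ≤ 1296 := by
    intro s hs
    have h3 := hZ s hs
    have h4 := cf_bd (f := fw M u v) (g := β) (S := S2) (T := S1) (κ := 1 / Real.log M) (C1 := 108) (by positivity)
      (by norm_num) (fw_le hM _ _) hβ1 h3.1
    refine h4.trans ?_
    have h5 : Real.log (nz s) ≤ 3 * Real.log M := by
      have := Real.log_le_log (nz_pos h3.1) h3.2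
      rwa [Real.log_pow, Nat.cast_ofNat] at this
    calc 108 * (1 / Real.log M) * (4 * Real.log (nz s)) ≤ 108 * (1 / Real.log M) * (4 * (3 * Real.log M)) := by gcongr
      _ = 1296 := by field_simp; norm_num
  have e3 : ∀ s, 0 ≤ cf (fun w => |fw M u v w|) (fun t => |β t|) S2 S1 s := fun s =>
    cf_nonneg (fun _ => abs_nonneg _) (fun _ => abs_nonneg _) _ _ _
  calc ∑ t ∈ T, cf (fun w => |fw M u v w|) (fun t => |β t|) S2 S1 t * (if t ∈ Z then 1 else 0)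
      = ∑ t ∈ T.filter (fun t => t ∈ Z), cf (fun w => |fw M u v w|) (fun t => |β t|) S2 S1 t := by
        rw [sum_filter]
        refine sum_congr rfl fun t _ => ?_
        split_ifs <;> ring
    _ ≤ ∑ t ∈ Z, cf (fun w => |fw M u v w|) (fun t => |β t|) S2 S1 t := by
        apply sum_le_sum_of_subset_of_nonneg
        · intro t ht
          exact (mem_filter.1 ht).2
        · intro t _ _
          exact e3 t
    _ ≤ ∑ t ∈ Z, (1296 : ℝ) := sum_le_sum e2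
    _ = _ := by rw [sum_const, nsmul_eq_mul]; ring

/-- **all shells, primitive `t`** -/
theorem allS3 {ε C c3 c4 : ℝ} {A B D z0 : ℕ} {M L x y u v : ℝ} (h : H3 ε c3 c4 D M L x y u v) (hbig : Big z0 c3 c4 M B)
    (hC : 0 < C) (hbox : Box3 (ε / 2) C A z0 c3 c4 M) {lam : ℤ → ℝ} (hlam : Lm L lam) {ρ N1 N2 : ℝ} {I : ℕ} (hρ : 1 ≤ ρ)
    (hρ2 : ρ ≤ 2) (hN1 : 0 ≤ N1) (hN2 : 0 ≤ N2) (hN2M : N2 ≤ M) (hLM : L ≤ M)
    (hN1' : ρ ^ 2 * (N1 ^ 2 + L ^ 2) ≤ M ^ 2) (hN2' : ρ ^ 2 * (M / (Real.log M) ^ D) ^ 2 ≤ N2 ^ 2) :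
    |∑ t ∈ bg 1 (ρ ^ I), ∑ w ∈ bg 1 (ρ ^ I), G3 z0 c4 M x y u v lam t w| ≤
      (I : ℝ) ^ 2 * (8 * C * 2 ^ A * (L * M) / (Real.log M) ^ A) +
      1296 * (((Zb L M).filter (fun z => N1 < |(z.im : ℝ)|) ∪ Zb L N2).card : ℝ) := by
  classical
  have hM0 := h.M0
  have hM1 := h.M1
  have hM9 := h.M9
  have hL0 := h.L1
  have hl7 := h.l7
  set ℓ := Real.log M with hℓ
  have hℓ0 : 0 < ℓ := by linarith
  have hρ0 : 0 < ρ := by linarith
  set Z := (Zb L M).filter (fun z => N1 < |(z.im : ℝ)|) ∪ Zb L N2 with hZ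
  have hnzb : ∀ z : ZI, z ∈ Zb L M → z ≠ 0 ∧ nz z ≤ M ^ 3 := by
    intro z hz
    refine ⟨Zb_ne hz, ?_⟩
    rw [mem_Zb] at hz
    rw [nz_eq]
    have h2 : (1 : ℝ) ≤ z.re := by exact_mod_cast hz.1
    have h3 : (z.re : ℝ) ^ 2 ≤ M ^ 2 := pow_le_pow_left₀ (by linarith) (hz.2.1.trans hLM) 2
    have h4 : (z.im : ℝ) ^ 2 ≤ M ^ 2 := by
      rw [← sq_abs]
      exact pow_le_pow_left₀ (abs_nonneg _) hz.2.2 2
    have h5 : 2 * M ^ 2 ≤ M ^ 3 := by
      calc 2 * M ^ 2 ≤ M * M ^ 2 := mul_le_mul_of_nonneg_right (by linarith) (by positivity)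
        _ = M ^ 3 := by ring
    linarith
  have hZ0 : ∀ z ∈ Z, z ≠ 0 ∧ nz z ≤ M ^ 3 := by
    intro z hz
    rw [hZ, mem_union, mem_filter] at hz
    rcases hz with hz | hz
    · exact hnzb z hz.1
    · apply hnzb
      rw [mem_Zb] at hz ⊢
      exact ⟨hz.1, hz.2.1, hz.2.2.trans hN2M⟩
  set Bd := 8 * C * 2 ^ A * (L * M) / ℓ ^ A with hBd
  set G := G3 z0 c4 M x y u v lam with hG
  -- the good and the bad cells
  set good : ℕ → ℕ → Prop := fun i j => (ρ * ρ ^ i) * (ρ * ρ ^ j) ≤ M ^ 2 ∧ (M / ℓ ^ D) ^ 2 ≤ ρ ^ i * ρ ^ j with hgood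
  have hdec : ∀ H : ZI → ZI → ℝ, ∑ t ∈ bg 1 (ρ ^ I), ∑ v ∈ bg 1 (ρ ^ I), H t v =
      ∑ i ∈ range I, ∑ j ∈ range I, ∑ t ∈ bg (ρ ^ i) (ρ ^ (i + 1)), ∑ v ∈ bg (ρ ^ j) (ρ ^ (j + 1)), H t v := by
    intro H
    rw [shell_sum hρ]
    refine sum_congr rfl fun i _ => ?_
    conv_rhs => rw [sum_comm]
    refine sum_congr rfl fun t _ => ?_
    exact shell_sum hρ _ I
  have hbd0 : 0 ≤ Bd := by positivity
  have habs : ∀ i ∈ range I, ∀ j ∈ range I, |∑ t ∈ bg (ρ ^ i) (ρ ^ (i + 1)), ∑ w ∈ bg (ρ ^ j) (ρ ^ (j + 1)), G t w| ≤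
      Bd + ∑ t ∈ bg (ρ ^ i) (ρ ^ (i + 1)), ∑ w ∈ bg (ρ ^ j) (ρ ^ (j + 1)), (if t * w ∈ Z then |G t w| else 0) := by
    intro i _ j _
    have ha : 1 ≤ ρ ^ i := one_le_pow₀ hρ
    have hb : 1 ≤ ρ ^ j := one_le_pow₀ hρ
    have hnn : 0 ≤ ∑ t ∈ bg (ρ ^ i) (ρ ^ (i + 1)), ∑ w ∈ bg (ρ ^ j) (ρ ^ (j + 1)), (if t * w ∈ Z then |G t w| else 0) :=
      sum_nonneg fun t _ => sum_nonneg fun v _ => by split_ifs <;> positivity
    have e1 : ρ ^ (i + 1) = ρ * ρ ^ i := by ring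
    have e2 : ρ ^ (j + 1) = ρ * ρ ^ j := by ring
    rw [e1, e2] at hnn ⊢
    by_cases hg : (ρ * ρ ^ i) * (ρ * ρ ^ j) ≤ M ^ 2 ∧ (M / ℓ ^ D) ^ 2 ≤ ρ ^ i * ρ ^ j
    · have := tij3 h hC hbox hlam ha hb hρ hρ2 hg.1 hg.2
      rw [← hℓ, ← hBd] at this
      exact this.trans (by linarith)
    · refine le_trans ?_ (le_add_of_nonneg_left hbd0)
      refine (abs_sum_le_sum_abs _ _).trans (sum_le_sum fun t ht => ?_)
      refine (abs_sum_le_sum_abs _ _).trans (sum_le_sum fun w hw => ?_)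
      by_cases hF : Fz lam M (t * w) = 0
      · have : G t w = 0 := by
          rw [hG]
          unfold G3
          rw [hF, mul_zero]
        rw [this, abs_zero]
        split_ifs <;> norm_num
      · rw [if_pos (bad_Z hlam (by linarith) hN1 hN2 hρ hN1' hN2' (by positivity) (by positivity) hg ht hw hF)]
  rw [hdec]
  have hpair : ∑ t ∈ bg 1 (ρ ^ I), ∑ w ∈ bg 1 (ρ ^ I), (if t * w ∈ Z then |G t w| else 0) ≤ 1296 * (Z.card : ℝ) := by
    set c : ZI → ZI → ℝ := fun t w => if t * w ∈ Z then (if ct t = 1 then Fz lam M (t * w) *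
      (if 0 ≤ G t w then 1 else -1) else 0) else 0 with hc
    have e3 : ∀ t w, (if t * w ∈ Z then |G t w| else 0) = cv (fw M x y) (gP z0 c4 M) t * fw M u v w * c t w := by
      intro t w
      simp only [hc]
      by_cases hz : t * w ∈ Z
      · rw [if_pos hz, if_pos hz]
        by_cases hct : ct t = 1
        · rw [if_pos hct]
          have hGe : G t w = cv (fw M x y) (gP z0 c4 M) t * fw M u v w * Fz lam M (t * w) := by
            rw [hG]
            unfold G3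
            rw [if_pos hct]
          by_cases hs : 0 ≤ G t w
          · rw [if_pos hs, abs_of_nonneg hs, hGe]
            ring
          · rw [if_neg hs, abs_of_neg (not_le.1 hs), hGe]
            ring
        · rw [if_neg hct, mul_zero]
          have hGe : G t w = 0 := by
            rw [hG]
            unfold G3
            rw [if_neg hct, zero_mul, zero_mul]
          rw [hGe, abs_zero]
      · rw [if_neg hz, if_neg hz, mul_zero]
    have e4 : ∑ t ∈ bg 1 (ρ ^ I), ∑ w ∈ bg 1 (ρ ^ I), (if t * w ∈ Z then |G t w| else 0) =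
        ∑ t ∈ bg 1 (ρ ^ I), ∑ w ∈ bg 1 (ρ ^ I), cv (fw M x y) (gP z0 c4 M) t * fw M u v w * c t w :=
      sum_congr rfl fun t _ => sum_congr rfl fun w _ => e3 t w
    rw [e4]
    refine (le_abs_self _).trans ?_
    apply pairs3 hbig x y u v _ _ Z (fun t ht => (mem_bg.1 ht).1) (fun t ht => (mem_bg.1 ht).1) hZ0
    · intro t w
      simp only [hc]
      have hf := Fz_abs hlam.1 M (t * w)
      split_ifs
      · rw [mul_one]; exact hf
      · rw [mul_neg, mul_one, abs_neg]; exact hf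
      · rw [abs_zero]; norm_num
      · rw [abs_zero]; norm_num
    · intro t w hne
      by_contra hcon
      apply hne
      simp only [hc]
      rw [if_neg hcon]
  calc |∑ i ∈ range I, ∑ j ∈ range I, ∑ t ∈ bg (ρ ^ i) (ρ ^ (i + 1)), ∑ v ∈ bg (ρ ^ j) (ρ ^ (j + 1)), G t v| ≤
        ∑ i ∈ range I, ∑ j ∈ range I, (Bd + ∑ t ∈ bg (ρ ^ i) (ρ ^ (i + 1)), ∑ v ∈ bg (ρ ^ j) (ρ ^ (j + 1)),
          (if t * v ∈ Z then |G t v| else 0)) := by
        refine (abs_sum_le_sum_abs _ _).trans (sum_le_sum fun i hi => ?_)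
        refine (abs_sum_le_sum_abs _ _).trans (sum_le_sum fun j hj => ?_)
        exact habs i hi j hj
    _ = (I : ℝ) ^ 2 * Bd + ∑ t ∈ bg 1 (ρ ^ I), ∑ v ∈ bg 1 (ρ ^ I), (if t * v ∈ Z then |G t v| else 0) := by
        rw [hdec fun t v => (if t * v ∈ Z then |G t v| else 0)]
        simp only [sum_add_distrib]
        rw [sum_const, sum_const, card_range, nsmul_eq_mul, nsmul_eq_mul]
        ring
    _ ≤ _ := by linarith

/-- the part with products of large content -/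
theorem part_ct3 {z0 : ℕ} {c3 c4 M : ℝ} {B : ℕ} (hbig : Big z0 c3 c4 M B) (h34 : c3 ≤ c4) {L x y u v : ℝ}
    (hL : 1 ≤ L) (hLM : L ≤ M) (hx : M ^ c3 ≤ x) (hz2 : 2 ≤ zf M) {lam : ℤ → ℝ} (hlam : Lm L lam) (S : Finset ZI)
    (hS : ∀ t ∈ S, t ≠ 0) :
    |∑ t ∈ S, ∑ w ∈ S, cv (fw M x y) (gP z0 c4 M) t * fw M u v w * (if ct t = 1 then 0 else Fz lam M (t * w))| ≤
      7776 * (L * M) / (zf M : ℝ) := by
  classical
  have hM3 := hbig.M3
  have hM0 : 0 < M := by linarith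
  set ZZ := (Zb L M).filter (fun z => (zf M : ℝ) ≤ (ct z : ℝ)) with hZZ
  set c : ZI → ZI → ℝ := fun t w => if t * w ∈ ZZ then (if ct t = 1 then 0 else Fz lam M (t * w)) else 0 with hc
  have e1 : ∀ t ∈ S, ∀ w ∈ S, cv (fw M x y) (gP z0 c4 M) t * fw M u v w * (if ct t = 1 then 0 else Fz lam M (t * w)) =
      cv (fw M x y) (gP z0 c4 M) t * fw M u v w * c t w := by
    intro t ht w hw
    rw [hc]
    simp only
    by_cases hmem : t * w ∈ ZZ
    · rw [if_pos hmem]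
    · rw [if_neg hmem, mul_zero]
      by_cases h1 : cv (fw M x y) (gP z0 c4 M) t = 0
      · rw [h1]; ring
      by_cases h2 : ct t = 1
      · rw [if_pos h2, mul_zero]
      by_cases h3 : Fz lam M (t * w) = 0
      · rw [if_neg h2, h3, mul_zero]
      exfalso
      apply hmem
      rw [hZZ, mem_filter]
      refine ⟨Fz_Zb hlam h3, ?_⟩
      have h9 : zf M < ct t := rough_ct (cvP_rough hbig h34 hx h1) (hS t ht) h2
      have h10 : ct t ∣ ct (t * w) := by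
        apply (Pool.Agent.N864.GN.MB.dvd_ct _ _).1
        exact ((Pool.Agent.N864.GN.MB.dvd_ct (ct t) t).2 dvd_rfl).mul_right w
      have h11 : ct t ≤ ct (t * w) := Nat.le_of_dvd (Pool.Agent.J6H16.PR.ct_pos (Zb_ne (Fz_Zb hlam h3))) h10
      exact_mod_cast (h9.le.trans h11)
  rw [sum_congr rfl fun t ht => sum_congr rfl fun v hv => e1 t ht v hv]
  have hb := pairs3 hbig x y u v S S ZZ hS hS (fun z hz => by
    rw [hZZ, mem_filter] at hz
    refine ⟨Zb_ne hz.1, ?_⟩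
    have hz' := mem_Zb.1 hz.1
    rw [nz_eq]
    have h2 : (1 : ℝ) ≤ z.re := by exact_mod_cast hz'.1
    have h3 : (z.re : ℝ) ^ 2 ≤ M ^ 2 := pow_le_pow_left₀ (by linarith) (hz'.2.1.trans hLM) 2
    have h4 : (z.im : ℝ) ^ 2 ≤ M ^ 2 := by
      rw [← sq_abs]
      exact pow_le_pow_left₀ (abs_nonneg _) hz'.2.2 2
    have h5 : 2 * M ^ 2 ≤ M ^ 3 := by
      calc 2 * M ^ 2 ≤ M * M ^ 2 := mul_le_mul_of_nonneg_right (by linarith) (by positivity)
        _ = M ^ 3 := by ring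
    linarith) c (fun t v => by
    simp only [hc]
    split_ifs
    · rw [abs_zero]; norm_num
    · exact Fz_abs hlam.1 _ _
    · rw [abs_zero]; norm_num) (fun t v hne => by
    by_contra hcon
    simp only [hc] at hne
    rw [if_neg hcon] at hne
    exact hne rfl)
  refine hb.trans ?_
  have h1 := ctZ hL hLM (show (2 : ℝ) ≤ (zf M : ℝ) by exact_mod_cast hz2)
  calc 1296 * (ZZ.card : ℝ) ≤ 1296 * (6 * L * M / (zf M : ℝ)) := mul_le_mul_of_nonneg_left h1 (by norm_num)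
    _ = _ := by ring

end Pool.Agent.J6H16.E3
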