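import Pool.Agent.J6H16.E3.Be
import Pool.Agent.N782.GN.MainD
import Pool.Agent.J6H16.PF.Sd

/-!
# Project E3 (helper16): the difference of the primes and of the model, products of three factors
-/

set_option autoImplicit false

namespace Pool.Agent.J6H16.E3

open Finset Filter Topology
open Pool.Agent.N782.GN hiding f1
open Pool.Agent.N855.GN
open Pool.Agent.H304R3.HK (UH bb LamK CS)
open Pool.Agent.J6H16.PF Pool.Agent.J6H16.PR Pool.Agent.J6H16.E2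

/-- the summand -/
noncomputable def GH (z0 : ℕ) (c4 M x y u v : ℝ) (lam : ℤ → ℝ) (t w : ZI) : ℝ :=
  cv (fw M x y) (gP z0 c4 M) t * fw M u v w * Fz lam M (t * w)

theorem mul_small {a b x : ℝ} (hx : 1 ≤ x) (ha : x < a) (hb : 1 ≤ b) (h : a * b ≤ 1) : False := by nlinarith

/-- from the sets `bl` to the shells -/
theorem to_shells3 {z0 : ℕ} {c4 M x y u v L : ℝ} {lam : ℤ → ℝ} {Z : ℝ} (hlam : Lm L lam) (hLM : L ≤ M)
    (hx : 1 ≤ x) (hu : 1 ≤ u) (hZ : 2 * M ^ 2 ≤ Z) :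
    ∑ t ∈ bl (2 * M ^ 2), ∑ w ∈ bl (2 * M ^ 2), GH z0 c4 M x y u v lam t w =
      ∑ t ∈ bg 1 Z, ∑ w ∈ bg 1 Z, GH z0 c4 M x y u v lam t w := by
  have hzero : ∀ z : ZI, 2 * M ^ 2 < nz z → Fz lam M z = 0 := fun z hz => Fz_zero hlam hLM le_rfl hz
  have e2 : ∀ t : ZI, t ≠ 0 → ∑ w ∈ bl (2 * M ^ 2), GH z0 c4 M x y u v lam t w =
      ∑ w ∈ bg 1 Z, GH z0 c4 M x y u v lam t w := by
    intro t ht
    apply sum_bl_bg hZ
    · intro w hw hw1
      have : fw M u v w = 0 := by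
        by_contra hcon
        linarith [(fw_ne hcon).2.1]
      unfold GH
      rw [this, mul_zero, zero_mul]
    · intro w hw hw1
      unfold GH
      rw [hzero, mul_zero]
      rw [Pool.Agent.N855.GN.nz_mul]
      exact mul_big (nz_one_le ht) hw1 (nz_nonneg w)
  rw [sum_congr rfl fun t ht => e2 t ((mem_bl _ _).1 ht).1]
  apply sum_bl_bg hZ
  · intro t ht ht1
    have h1 : cv (fw M x y) (gP z0 c4 M) t = 0 := by
      by_contra hcon
      obtain ⟨a, m, h4, h5, h6, h7, h8⟩ := cv_ne hcon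
      have h9 := (fw_ne h5).2.1
      have h10 := nz_one_le h8
      rw [← h4, Pool.Agent.N855.GN.nz_mul] at ht1
      exact mul_small hx h9 h10 ht1
    refine sum_eq_zero fun w _ => ?_
    unfold GH
    rw [h1, zero_mul, zero_mul]
  · intro t ht ht1
    refine sum_eq_zero fun w hw => ?_
    rw [mem_bg] at hw
    unfold GH
    rw [hzero, mul_zero]
    rw [Pool.Agent.N855.GN.nz_mul, mul_comm (nz t)]
    exact mul_big (nz_one_le hw.1) ht1 (nz_nonneg t)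

theorem GH_split {z0 : ℕ} {c4 M x y u v : ℝ} {lam : ℤ → ℝ} (S : Finset ZI) :
    ∑ t ∈ S, ∑ w ∈ S, GH z0 c4 M x y u v lam t w = ∑ t ∈ S, ∑ w ∈ S, G3 z0 c4 M x y u v lam t w +
      ∑ t ∈ S, ∑ w ∈ S, (cv (fw M x y) (gP z0 c4 M) t * fw M u v w * (if ct t = 1 then 0 else Fz lam M (t * w))) := by
  rw [← sum_add_distrib]
  refine sum_congr rfl fun t _ => ?_
  rw [← sum_add_distrib]
  refine sum_congr rfl fun w _ => ?_
  unfold GH G3
  split_ifs <;> ring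

/-- **the bilinear sums** -/
theorem bil3 (ε : ℝ) (A : ℕ) (hε : 0 < ε) (hε1 : ε ≤ 1) {c3 c4 : ℝ} (hc3 : 0 < c3) (h34 : c3 < c4)
    (hc4 : 6 * c4 ≤ ε) : ∃ (A2 B2 : ℕ) (C : ℝ), 0 < C ∧ ∀ z0 : ℕ, ∀ᶠ M : ℝ in atTop, RegAll z0 c3 c4 M A2 B2 →
    ∀ (L x y u v : ℝ) (lam : ℤ → ℝ),
    1 ≤ L → L ≤ M ^ (1 - ε) → M / L * M ^ ε ≤ u → v ≤ M ^ (1 - ε) → M ^ c3 ≤ x → y ≤ M ^ c4 → Lm L lam →
    |∑ t ∈ bl (2 * M ^ 2), ∑ w ∈ bl (2 * M ^ 2), GH z0 c4 M x y u v lam t w| ≤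
      C * (L * M) / (Real.log M) ^ A := by
  classical
  set D : ℕ := A + 1 with hD
  set A1 : ℕ := A + 2 * (D + 2) with hA1
  obtain ⟨A2, B2, Cb, hCb, hbox⟩ := box3 (ε / 2) A1 (by positivity) (by linarith) hc3 h34 (by linarith)
  refine ⟨A2, max B2 A, 8 * Cb * 2 ^ A1 + 16848 + 7776, by positivity, fun z0 => ?_⟩
  filter_upwards [hbox z0, eventually_ge_atTop (9 : ℝ), ev_log 7, ev_qM (show 0 < ε / 8 by positivity) (2 * D + 3),
    ev_rp hε 64, ev_qM hε (D + 1), ev_qM (show (0 : ℝ) < 1 by norm_num) (D + 1)] with M hbox hM9 hl7 hb1 hMe hqe hq1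
  rintro ⟨hbig, hzA, hzB, hreg⟩ L x y u v lam hL1 hL2 hu hv hx hy hlam
  have hM0 : 0 < M := by linarith
  have hM1 : 1 ≤ M := by linarith
  have hl1 : 1 ≤ Real.log M := by linarith
  have hp : H3 ε c3 c4 D M L x y u v := ⟨hε, hε1, hc3, h34, hM9, hL1, hL2, hu, hv, hx, hy, hl7, by
    refine le_trans ?_ hb1
    have h1 : (64 : ℝ) ≤ (Real.log M) ^ 3 := by
      calc (64 : ℝ) ≤ 7 ^ 3 := by norm_num
        _ ≤ (Real.log M) ^ 3 := pow_le_pow_left₀ (by norm_num) hl7 3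
    calc 64 * (Real.log M) ^ (2 * D) ≤ (Real.log M) ^ 3 * (Real.log M) ^ (2 * D) :=
          mul_le_mul_of_nonneg_right h1 (by positivity)
      _ = _ := by rw [← pow_add]; congr 1; ring⟩
  have hbox' : Box3 (ε / 2) Cb A1 z0 c3 c4 M := by
    intro M' L R x y Z1 Z2
    exact hbox ⟨hbig, hzA, (pow_le_pow_right₀ hl1 (le_max_left _ _)).trans hzB, fun q hq hqB => hreg q hq
      (hqB.trans (pow_le_pow_right₀ hl1 (le_max_left _ _)))⟩ M' L R x y Z1 Z2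
  have hzA' : (Real.log M) ^ A ≤ (zf M : ℝ) := (pow_le_pow_right₀ hl1 (le_max_right _ _)).trans hzB
  have hz2 : 2 ≤ zf M := by
    have h1 : (Real.log M) ^ 1 ≤ (Real.log M) ^ (A2 + 3) := pow_le_pow_right₀ hl1 (by omega)
    rw [pow_one] at h1
    have h3 : (2 : ℝ) ≤ (zf M : ℝ) := by linarith
    exact_mod_cast h3
  set ℓ := Real.log M with hℓ
  have hℓ0 : 0 < ℓ := by linarith
  have hℓD : 1 ≤ ℓ ^ D := one_le_pow₀ hl1
  have hD0 : 0 < ℓ ^ D := by positivity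
  have hLe : L * M ^ ε ≤ M := by
    calc L * M ^ ε ≤ M ^ (1 - ε) * M ^ ε := mul_le_mul_of_nonneg_right hL2 (by positivity)
      _ = M := by rw [← Real.rpow_add hM0]; simp
  have hLM : L ≤ M := by
    calc L ≤ L * M ^ ε := le_mul_of_one_le_right (by linarith) (by linarith)
      _ ≤ M := hLe
  have hL64 : L ≤ M / 64 := by
    rw [le_div_iff₀ (by norm_num)]
    exact (mul_le_mul_of_nonneg_left hMe (by linarith)).trans hLe
  have hℓDe : ℓ ^ D ≤ M ^ ε := (pow_le_pow_right₀ hl1 (by omega)).trans hqe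
  have hLP : L ^ 2 * ℓ ^ D ≤ M ^ 2 := by
    calc L ^ 2 * ℓ ^ D ≤ L ^ 2 * (M ^ ε) ^ 2 := by
          apply mul_le_mul_of_nonneg_left _ (by positivity)
          exact hℓDe.trans (le_self_pow₀ (by linarith) (by norm_num))
      _ = (L * M ^ ε) ^ 2 := (mul_pow _ _ _).symm
      _ ≤ M ^ 2 := pow_le_pow_left₀ (by positivity) hLe 2
  -- the shells
  obtain ⟨I, hI1, hI2, hI3⟩ := shells (D := D) hM9 hℓ hl7
  obtain ⟨N1, hN10, hN13, hN1N, hthick, hN1ρ, hN2ρ⟩ := numT hM0 (by linarith) hℓD hL64 hLP (rfl : 1 + 1 / ℓ ^ D = 1 + 1 / ℓ ^ D)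
  have hρ1 : 1 ≤ 1 + 1 / ℓ ^ D := by
    have : 0 < 1 / ℓ ^ D := by positivity
    linarith
  have hρ2 : 1 + 1 / ℓ ^ D ≤ 2 := by
    have : 1 / ℓ ^ D ≤ 1 := by
      rw [div_le_one hD0]
      exact hℓD
    linarith
  have hℓD2 : 2 ≤ ℓ ^ D := by
    have h1 : ℓ ^ 1 ≤ ℓ ^ D := pow_le_pow_right₀ hl1 (by omega)
    rw [pow_one] at h1
    linarith
  have hN2M : 2 * M / ℓ ^ D ≤ M := by
    rw [div_le_iff₀ hD0]
    nlinarith
  rw [to_shells3 hlam hLM hp.x0 hp.u0 hI1, GH_split]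
  have hmain := allS3 hp hbig hCb hbox' hlam (N1 := N1) (N2 := 2 * M / ℓ ^ D) (I := I) hρ1 hρ2
    hN10 (by positivity) hN2M hLM hN1ρ hN2ρ
  have hct := part_ct3 hbig h34.le hL1 hLM hx hz2 hlam (x := x) (y := y) (u := u) (v := v) (bg 1 ((1 + 1 / ℓ ^ D) ^ I))
    (fun t ht => (mem_bg.1 ht).1)
  refine (abs_add_le _ _).trans ((add_le_add hmain hct).trans ?_)
  have hL0 : 0 ≤ L := by linarith
  have f1 : (I : ℝ) ^ 2 * (8 * Cb * 2 ^ A1 * (L * M) / ℓ ^ A1) ≤ 8 * Cb * 2 ^ A1 * (L * M) / ℓ ^ A := by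
    have h1 : (I : ℝ) ^ 2 ≤ (ℓ ^ (D + 2)) ^ 2 := pow_le_pow_left₀ (Nat.cast_nonneg I) hI3 2
    have h2 : ℓ ^ A1 = ℓ ^ A * (ℓ ^ (D + 2)) ^ 2 := by rw [hA1, pow_add, pow_mul']
    calc (I : ℝ) ^ 2 * (8 * Cb * 2 ^ A1 * (L * M) / ℓ ^ A1) ≤
          (ℓ ^ (D + 2)) ^ 2 * (8 * Cb * 2 ^ A1 * (L * M) / ℓ ^ A1) :=
          mul_le_mul_of_nonneg_right h1 (by positivity)
      _ = _ := by
          rw [h2]
          field_simp
  have f2 : 1296 * (((Zb L M).filter (fun z => N1 < |(z.im : ℝ)|) ∪ Zb L (2 * M / ℓ ^ D)).card : ℝ) ≤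
      16848 * (L * M) / ℓ ^ A := by
    have c1 := card_thin hL0 hN10 hN1N
    have c2 := card_Zb hL0 (show 0 ≤ 2 * M / ℓ ^ D by positivity)
    have c3 : (((Zb L M).filter (fun z => N1 < |(z.im : ℝ)|) ∪ Zb L (2 * M / ℓ ^ D)).card : ℝ) ≤
        ((Zb L M).filter (fun z => N1 < |(z.im : ℝ)|)).card + (Zb L (2 * M / ℓ ^ D)).card := by
      exact_mod_cast card_union_le _ _
    have hMP : 1 ≤ M / ℓ ^ D := by
      rw [le_div_iff₀ hD0, one_mul]
      have := (pow_le_pow_right₀ hl1 (show D ≤ D + 1 by omega)).trans hq1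
      rwa [Real.rpow_one] at this
    have c4 : L * (2 * (M - N1) + 2) + L * (2 * (2 * M / ℓ ^ D) + 1) ≤ 13 * (L * (M / ℓ ^ D)) := by
      have e : L * (2 * (M - N1) + 2) + L * (2 * (2 * M / ℓ ^ D) + 1) =
          L * (2 * (M - N1) + 4 * (M / ℓ ^ D) + 3) := by ring
      rw [e, show 13 * (L * (M / ℓ ^ D)) = L * (13 * (M / ℓ ^ D)) by ring]
      apply mul_le_mul_of_nonneg_left _ hL0
      linarith
    have c5 : 13 * (L * (M / ℓ ^ D)) ≤ 13 * (L * (M / ℓ ^ A)) := by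
      apply mul_le_mul_of_nonneg_left _ (by norm_num)
      apply mul_le_mul_of_nonneg_left _ hL0
      exact div_le_div_of_nonneg_left hM0.le (by positivity) (pow_le_pow_right₀ hl1 (by omega))
    calc _ ≤ 1296 * (13 * (L * (M / ℓ ^ A))) := by
          apply mul_le_mul_of_nonneg_left _ (by norm_num)
          linarith
      _ = _ := by ring
  have f3 : 7776 * (L * M) / (zf M : ℝ) ≤ 7776 * (L * M) / ℓ ^ A :=
    div_le_div_of_nonneg_left (by positivity) (by positivity) hzA'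
  have f4 : (8 * Cb * 2 ^ A1 + 16848 + 7776) * (L * M) / ℓ ^ A =
      8 * Cb * 2 ^ A1 * (L * M) / ℓ ^ A + 16848 * (L * M) / ℓ ^ A + 7776 * (L * M) / ℓ ^ A := by
    ring
  rw [f4]
  linarith

/-- the sum over the box for one `l` -/
noncomputable def T3 (M x y u v : ℝ) (g : ZI → ℝ) (l : ℤ) : ℝ :=
  ∑ m ∈ Icc ⌈-M⌉ ⌊M⌋, cv (cv (fw M x y) g) (fw M u v) (⟨l, m⟩ : ZI)

/-- **the difference, on average over `l`** -/
theorem sumP (ε : ℝ) (A : ℕ) (hε : 0 < ε) (hε1 : ε ≤ 1) {c3 c4 : ℝ} (hc3 : 0 < c3) (h34 : c3 < c4)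
    (hc4 : 6 * c4 ≤ ε) : ∃ (A2 B2 : ℕ) (C : ℝ), 0 < C ∧ ∀ z0 : ℕ, ∀ᶠ M : ℝ in atTop, RegAll z0 c3 c4 M A2 B2 →
    ∀ (L x y u v : ℝ),
    1 ≤ L → L ≤ M ^ (1 - ε) → M / L * M ^ ε ≤ u → v ≤ M ^ (1 - ε) → M ^ c3 ≤ x → y ≤ M ^ c4 →
    ∑ l ∈ Icc 1 ⌊L⌋, |T3 M x y u v (gP z0 c4 M) l| ≤ C * (L * M) / (Real.log M) ^ A := by
  obtain ⟨A2, B2, C, hC, h⟩ := bil3 ε A hε hε1 hc3 h34 hc4
  refine ⟨A2, B2, C, hC, fun z0 => ?_⟩
  filter_upwards [h z0, eventually_ge_atTop (9 : ℝ)] with M h hM9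
  intro hra L x y u v hL1 hL2 hu hv hx hy
  have hM1 : 1 ≤ M := by linarith
  have hLM : L ≤ M := by
    refine hL2.trans ?_
    calc M ^ (1 - ε) ≤ M ^ (1 : ℝ) := Real.rpow_le_rpow_of_exponent_le hM1 (by linarith)
      _ = M := Real.rpow_one M
  set X : ℤ → ℝ := fun l => T3 M x y u v (gP z0 c4 M) l with hX
  set lam : ℤ → ℝ := fun l => if l ∈ Icc 1 ⌊L⌋ then sgn (X l) else 0 with hlam
  have hLm : Lm L lam := by
    constructor
    · intro l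
      simp only [hlam]
      split_ifs
      · exact abs_sgn _
      · simp
    · intro l hl
      simp only [hlam]
      rw [if_neg]
      intro h1
      rw [mem_box] at h1
      rcases hl with h2 | h2
      · omega
      · linarith [h1.2]
  have h2 := h hra L x y u v lam hL1 hL2 hu hv hx hy hLm
  refine le_trans (le_of_eq ?_) ((le_abs_self _).trans h2)
  have e1 : ∑ t ∈ bl (2 * M ^ 2), ∑ w ∈ bl (2 * M ^ 2), GH z0 c4 M x y u v lam t w =
      ∑ z ∈ bl (2 * M ^ 2), cv (cv (fw M x y) (gP z0 c4 M)) (fw M u v) z * Fz lam M z := by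
    rw [cv_sum (cv (fw M x y) (gP z0 c4 M)) (fw M u v) (Fz lam M) (X := 2 * M ^ 2) (by nlinarith) (fun t ht => by
      rw [mem_bl] at ht
      push Not at ht
      by_cases h0 : t = 0
      · rw [h0]
        unfold Fz
        have h3 : lam (0 : ZI).re = 0 := hLm.2 _ (Or.inl (by simp))
        split_ifs
        · exact h3
        · rfl
      · exact Fz_zero hLm hLM le_rfl (ht h0))]
    rfl
  rw [e1, sum_box hLm hLM]
  refine sum_congr rfl fun l hl => ?_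
  rw [← mul_sum]
  have e2 : lam l = sgn (X l) := by
    simp only [hlam]
    rw [if_pos hl]
  rw [e2]
  show |X l| = sgn (X l) * X l
  rw [sgn_mul]

end Pool.Agent.J6H16.E3
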