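import Pool.Agent.J6H16.PR.Lr
import Pool.Agent.N782.GN.MainD

/-!
# Project E3 (helper16): the rough numbers on a line, in a class, asymptotically
-/

set_option autoImplicit false

namespace Pool.Agent.J6H16.E3

open Finset Filter Topology
open Pool.Agent.N782.GN hiding f1
open Pool.Agent.N855.GN
open Pool.Agent.H304R3.HK (UH bb LamK CS)
open Pool.Agent.J6H16.PF Pool.Agent.J6H16.PR

/-- the number of the forbidden classes -/
theorem Omc_card_eq {l U : ℕ} (n0 : ℤ) {p : ℕ} (hp : p.Prime) (hU : ¬ p ∣ U) : (Omc l U n0 p).card = wl l p := by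
  classical
  apply le_antisymm (Omc_card n0 hp hU)
  have : Fact p.Prime := ⟨hp⟩
  have hU0 : (U : ZMod p) ≠ 0 := by rwa [Ne, ZMod.natCast_eq_zero_iff]
  have key : ∀ x : ZMod p, (l : ZMod p) ^ 2 + x ^ 2 = 0 → ((x - (n0 : ZMod p)) * (U : ZMod p)⁻¹).val ∈ Omc l U n0 p := by
    intro x hx
    unfold Omc
    rw [mem_filter, mem_range]
    refine ⟨ZMod.val_lt _, ?_⟩
    rw [← ZMod.intCast_zmod_eq_zero_iff_dvd]
    push_cast
    rw [ZMod.natCast_val, ZMod.cast_id', id]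
    have h1 : (n0 : ZMod p) + (U : ZMod p) * ((x - (n0 : ZMod p)) * (U : ZMod p)⁻¹) = x := by
      field_simp
      ring
    rw [h1]
    exact hx
  have hinj : ∀ x y : ZMod p, ((x - (n0 : ZMod p)) * (U : ZMod p)⁻¹).val = ((y - (n0 : ZMod p)) * (U : ZMod p)⁻¹).val → x = y := by
    intro x y h
    have h1 := ZMod.val_injective p h
    have h2 := mul_right_cancel₀ (inv_ne_zero hU0) h1
    exact sub_left_injective h2
  unfold wl
  split_ifs with hl
  · have hl0 : (l : ZMod p) = 0 := by rwa [ZMod.natCast_eq_zero_iff]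
    have h1 := key 0 (by rw [hl0]; ring)
    exact card_pos.2 ⟨_, h1⟩
  · have hl0 : (l : ZMod p) ≠ 0 := by rwa [Ne, ZMod.natCast_eq_zero_iff]
    have h2 : r1 p = (univ.filter (fun x : ZMod p => x ^ 2 + 1 = 0)).card := by
      unfold r1
      rw [Nat.card_eq_fintype_card, Fintype.card_subtype]
    rw [h2]
    refine card_le_card_of_injOn (fun x : ZMod p => ((x * (l : ZMod p) - (n0 : ZMod p)) * (U : ZMod p)⁻¹).val) ?_ ?_
    · intro x hx
      rw [mem_coe, mem_filter] at hx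
      rw [mem_coe]
      apply key
      have h3 := hx.2
      linear_combination (l : ZMod p) ^ 2 * h3
    · intro x _ y _ h
      exact mul_right_cancel₀ hl0 (hinj _ _ h)

theorem Vp_le_one (z l : ℕ) : Vp z l ≤ 1 := by
  unfold Vp
  apply prod_le_one
  · intro p hp
    linarith [wl_third (l := l) (mem_filter.1 hp).2]
  · intro p hp
    have : 0 ≤ (wl l p : ℝ) / p := by positivity
    linarith

open Classical in
/-- **the number of the rough numbers on a line, in a class, asymptotically** -/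
theorem cnt2 {δ : ℝ} (hδ : 0 < δ) (A : ℕ) : ∀ᶠ M : ℝ in atTop, ∀ (l U : ℕ) (n0 : ℤ) (n2 : ℕ),
    (∀ p : ℕ, p.Prime → p ≤ zf M → ¬ p ∣ U) → M ^ δ ≤ n2 →
    |(((Ioc 0 n2).filter (fun j : ℕ => rough (zf M) (⟨l, n0 + (U : ℤ) * (j : ℤ)⟩ : ZI))).card : ℝ) - (n2 : ℝ) * Vp (zf M) l| ≤
      2 * n2 / (Real.log M) ^ A := by
  obtain ⟨C, hC, H⟩ := Pool.Agent.N136.QL.gen8
  filter_upwards [par_b (2 * C) (show 0 < δ / 2 by positivity), par_d, par_e C, par_a A,
    ev_qM (show 0 < δ / 4 by positivity) (A + 1), ev_rp (show 0 < δ / 4 by positivity) ((C : ℝ) ^ C),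
    ev_log 1, eventually_ge_atTop (3 : ℝ)] with M hb hd he ha hq1 hq2 hl1 hM3
  intro l U n0 n2 hU hn2
  have hM0 : 0 < M := by linarith
  set z := zf M with hz
  have hz1 : 1 ≤ z := by rw [hz]; unfold zf; exact Nat.one_le_two_pow
  set P' := (Icc 2 z).filter Nat.Prime with hP'
  have hPp : ∀ p ∈ P', p.Prime ∧ p ≤ z := fun p hp => by
    rw [hP', mem_filter, mem_Icc] at hp
    exact ⟨hp.2, hp.1.2⟩
  have hoc : ∀ p ∈ P', (Omc l U n0 p).card = wl l p := fun p hp =>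
    Omc_card_eq n0 (hPp p hp).1 (hU p (hPp p hp).1 (hPp p hp).2)
  have h1 := H (bf M) (Jf M) C n2 P' (Omc l U n0) he le_rfl (fun p hp => hPp p hp)
    (fun p _ => filter_subset _ _) (fun p hp => by
      have := hoc p hp
      have := wl_le (l := l) (hPp p hp).1
      omega)
  have e1 : (Ioc 0 n2).filter (fun n => ∀ p ∈ P', n % p ∉ Omc l U n0 p) =
      (Ioc 0 n2).filter (fun j : ℕ => rough z (⟨l, n0 + (U : ℤ) * (j : ℤ)⟩ : ZI)) := by
    apply filter_congr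
    intro j _
    unfold rough
    constructor
    · intro h p hp hpz
      have hpP : p ∈ P' := by
        rw [hP', mem_filter, mem_Icc]
        exact ⟨⟨hp.two_le, hpz⟩, hp⟩
      rw [dvd_nn_mk]
      have := h p hpP
      rwa [mod_Omc hp.pos] at this
    · intro h p hp
      have := h p (hPp p hp).1 (hPp p hp).2
      rw [dvd_nn_mk] at this
      rwa [mod_Omc (hPp p hp).1.pos]
  rw [e1] at h1
  have hV' : ∏ p ∈ P', (1 - (((Omc l U n0 p).card : ℕ) : ℝ) / p) = Vp z l := by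
    unfold Vp
    rw [← hP']
    exact prod_congr rfl fun p hp => by rw [hoc p hp]
  rw [hV'] at h1
  refine h1.trans ?_
  have hV0 := Vp_nonneg z l
  have hV1 := Vp_le_one z l
  have hn0 : (0 : ℝ) ≤ n2 := Nat.cast_nonneg _
  set ℓ := Real.log M with hℓ
  have hℓ0 : 0 < ℓ := by linarith
  have b1 : (1 / 2 : ℝ) ^ (bf M) * ((n2 : ℝ) * Vp z l) ≤ n2 / ℓ ^ A := by
    calc (1 / 2 : ℝ) ^ (bf M) * ((n2 : ℝ) * Vp z l) ≤ 1 / ℓ ^ A * ((n2 : ℝ) * 1) := by gcongr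
      _ = _ := by ring
  have b2 : (C : ℝ) ^ C * (((Jf M : ℝ) + 2) * (((2 ^ 2 ^ (Jf M) : ℕ) : ℝ) ^ (C * bf M)) ^ 2) ≤ n2 / ℓ ^ A := by
    have e2 : (((2 ^ 2 ^ (Jf M) : ℕ) : ℝ) ^ (C * bf M)) ^ 2 = (z : ℝ) ^ (2 * C * bf M) := by
      rw [hz]
      unfold zf
      rw [← pow_mul]
      congr 1
      ring
    rw [e2, le_div_iff₀ (by positivity)]
    calc (C : ℝ) ^ C * (((Jf M : ℝ) + 2) * (z : ℝ) ^ (2 * C * bf M)) * ℓ ^ A ≤
          M ^ (δ / 4) * (ℓ * M ^ (δ / 2)) * ℓ ^ A := by gcongr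
      _ = M ^ (δ / 4) * ℓ ^ (A + 1) * M ^ (δ / 2) := by ring
      _ ≤ M ^ (δ / 4) * M ^ (δ / 4) * M ^ (δ / 2) := by gcongr
      _ = M ^ δ := by
          rw [← Real.rpow_add hM0, ← Real.rpow_add hM0]
          congr 1
          ring
      _ ≤ n2 := hn2
  calc _ ≤ (n2 : ℝ) / ℓ ^ A + n2 / ℓ ^ A := add_le_add b1 b2
    _ = _ := by ring

/-- integers divisible by a primitive number -/
theorem dvd_int {u : ZI} (hct : ct u = 1) {k : ℤ} (h : u ∣ (⟨0, k⟩ : ZI)) : (nn u : ℤ) ∣ k := by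
  obtain ⟨v, hv⟩ := h
  have h1 : IsCoprime u.re u.im := by
    rw [Int.isCoprime_iff_gcd_eq_one]
    exact hct
  obtain ⟨s, t, hst⟩ := h1
  have h5 : u * star u = ((Zsqrtd.norm u : ℤ) : ZI) := (Zsqrtd.norm_eq_mul_conj u).symm
  have h6 : (Zsqrtd.norm u : ℤ) = ((nn u : ℕ) : ℤ) := by
    unfold nn
    rw [Int.natAbs_of_nonneg (GaussianInt.norm_nonneg u)]
  rw [h6] at h5
  have h7 : star u * (⟨0, k⟩ : ZI) = (((nn u : ℕ) : ℤ) : ZI) * v := by
    rw [hv, ← h5]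
    ring
  have h8 := congrArg Zsqrtd.re h7
  have h9 := congrArg Zsqrtd.im h7
  rw [Zsqrtd.re_mul, Zsqrtd.re_mul, Zsqrtd.re_star, Zsqrtd.im_star, Zsqrtd.re_intCast, Zsqrtd.im_intCast] at h8
  rw [Zsqrtd.im_mul, Zsqrtd.im_mul, Zsqrtd.re_star, Zsqrtd.im_star, Zsqrtd.re_intCast, Zsqrtd.im_intCast] at h9
  simp only [mul_zero, zero_mul, add_zero, zero_add] at h8 h9
  refine ⟨s * v.im + t * v.re, ?_⟩
  linear_combination (-k) * hst + s * h9 + t * h8

/-- the multiples of `u` on the line of the real part `l` are a class -/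
theorem line_all {u : ZI} (hct : ct u = 1) (l : ℤ) : ∃ n0 : ℤ, ∀ n : ℤ, u ∣ (⟨l, n⟩ : ZI) ↔ ∃ j : ℤ, n = n0 + (nn u : ℤ) * j := by
  obtain ⟨n0, h⟩ := line_cls hct l
  refine ⟨n0, fun n => ⟨fun hn => ?_, ?_⟩⟩
  · have h1 := h 0
    rw [mul_zero, add_zero] at h1
    have h2 := dvd_sub hn h1
    have h3 : (⟨l, n⟩ : ZI) - ⟨l, n0⟩ = ⟨0, n - n0⟩ := by
      apply Zsqrtd.ext
      · rw [Zsqrtd.re_sub]; simp
      · rw [Zsqrtd.im_sub]
    rw [h3] at h2
    obtain ⟨j, hj⟩ := dvd_int hct h2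
    exact ⟨j, by linarith⟩
  · rintro ⟨j, rfl⟩
    exact h j

open Classical in
/-- the count for a fixed divisor -/
theorem cntu2 {δ : ℝ} (hδ : 0 < δ) (A : ℕ) : ∀ᶠ M : ℝ in atTop, ∀ (l : ℕ) (u : ZI), ct u = 1 →
    (∀ p : ℕ, p.Prime → p ≤ zf M → ¬ p ∣ nn u) → (nn u : ℝ) ≤ M ^ (1 - δ) →
    |(((Icc ⌈-M⌉ ⌊M⌋).filter (fun n : ℤ => rough (zf M) (⟨l, n⟩ : ZI) ∧ u ∣ (⟨l, n⟩ : ZI))).card : ℝ) -
      2 * M / nz u * Vp (zf M) l| ≤ 7 * M / nz u / (Real.log M) ^ A := by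
  filter_upwards [cnt2 (show 0 < δ / 2 by positivity) A, ev_rp (show 0 < δ / 2 by positivity) 1,
    eventually_ge_atTop (3 : ℝ), ev_qM hδ A, ev_log 1] with M hcnt hbig hM3 hqM hl1
  intro l u hct hpu hU
  have hM0 : 0 < M := by linarith
  have hM1 : 1 ≤ M := by linarith
  set U : ℕ := nn u with hUd
  have hu0 : u ≠ 0 := by
    rintro rfl
    have : ct (0 : ZI) = 0 := rfl
    omega
  have hnzU : nz u = (U : ℝ) := nz_nn u
  have hU1 : (1 : ℝ) ≤ U := by rw [← hnzU]; exact nz_one_le hu0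
  have hU0 : (0 : ℝ) < U := by linarith
  obtain ⟨n0, hn0⟩ := line_all hct (l : ℤ)
  -- the first number of the class
  set n1 : ℤ := n0 + (U : ℤ) * (⌈(-M - n0) / U⌉ - 1) with hn1
  have h1 : (n1 : ℝ) < -M := by
    have := Int.ceil_lt_add_one ((-M - n0) / U)
    have h2 : ((⌈(-M - n0) / U⌉ : ℤ) : ℝ) - 1 < (-M - n0) / U := by linarith
    rw [lt_div_iff₀ hU0] at h2
    rw [hn1]
    push_cast
    linarith
  have h2 : -M ≤ n1 + U := by
    have := Int.le_ceil ((-M - n0) / U)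
    rw [div_le_iff₀ hU0] at this
    rw [hn1]
    push_cast
    linarith
  have hdv : ∀ n : ℤ, u ∣ (⟨l, n⟩ : ZI) ↔ ∃ j : ℤ, n = n1 + (U : ℤ) * j := by
    intro n
    refine (hn0 n).trans ⟨?_, ?_⟩
    · rintro ⟨j, hj⟩
      exact ⟨j - (⌈(-M - n0) / U⌉ - 1), by rw [hj, hn1]; ring⟩
    · rintro ⟨j, hj⟩
      exact ⟨j + (⌈(-M - n0) / U⌉ - 1), by rw [hj, hn1]; ring⟩
  set n2 : ℕ := ⌊(M - n1) / U⌋₊ with hn2
  have h3 : (n2 : ℝ) ≤ (M - n1) / U := Nat.floor_le (div_nonneg (by linarith) hU0.le)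
  have h3' : (M - n1) / U < n2 + 1 := Nat.lt_floor_add_one _
  have h4 : (M - n1) / U ≤ 2 * M / U + 1 := by
    rw [div_add_one hU0.ne']
    gcongr
    linarith
  have h5 : 2 * M / U ≤ (M - n1) / U := by
    gcongr
    linarith
  have hMU : M ^ δ ≤ M / U := by
    rw [le_div_iff₀ hU0]
    calc M ^ δ * U ≤ M ^ δ * M ^ (1 - δ) := by gcongr
      _ = M := by rw [← Real.rpow_add hM0, show δ + (1 - δ) = 1 by ring, Real.rpow_one]
  have hone : 1 ≤ M ^ δ := Real.one_le_rpow hM1 hδ.le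
  have hMd : M ^ (δ / 2) ≤ M ^ δ := Real.rpow_le_rpow_of_exponent_le hM1 (by linarith)
  have e2MU : 2 * M / U = 2 * (M / U) := by ring
  rw [e2MU] at h4 h5
  have h6 : M ^ (δ / 2) ≤ n2 := by linarith
  have h7 := hcnt l U n1 n2 hpu h6
  have hcard : ((Icc ⌈-M⌉ ⌊M⌋).filter (fun n : ℤ => rough (zf M) (⟨l, n⟩ : ZI) ∧ u ∣ (⟨l, n⟩ : ZI))).card =
      ((Ioc 0 n2).filter (fun j : ℕ => rough (zf M) (⟨l, n1 + (U : ℤ) * (j : ℤ)⟩ : ZI))).card := by
    symm
    apply card_bij (fun (j : ℕ) _ => n1 + (U : ℤ) * (j : ℤ))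
    · intro j hj
      rw [mem_filter, mem_Ioc] at hj
      have hj1 : (1 : ℝ) ≤ j := by exact_mod_cast hj.1.1
      have hj2 : (j : ℝ) ≤ n2 := by exact_mod_cast hj.1.2
      rw [mem_filter, mem_box2]
      refine ⟨?_, hj.2, (hdv _).2 ⟨j, rfl⟩⟩
      push_cast
      rw [abs_le]
      constructor
      · have : (U : ℝ) ≤ U * j := le_mul_of_one_le_right hU0.le hj1
        linarith
      · have h10 := hj2.trans h3
        rw [le_div_iff₀ hU0] at h10
        linarith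
    · intro j _ j' _ h
      have h8 : (U : ℤ) * (j : ℤ) = (U : ℤ) * (j' : ℤ) := by linarith
      have h9 : (U : ℤ) ≠ 0 := by
        have : (U : ℝ) ≠ 0 := hU0.ne'
        exact_mod_cast this
      exact_mod_cast mul_left_cancel₀ h9 h8
    · intro n hn
      rw [mem_filter, mem_box2, abs_le] at hn
      obtain ⟨⟨ha, hb⟩, hr, hd⟩ := hn
      obtain ⟨j, hj⟩ := (hdv n).1 hd
      have hnr : (n : ℝ) = n1 + U * j := by
        rw [hj]
        push_cast
        ring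
      have hj0 : 0 < j := by
        have : (0 : ℝ) < U * j := by linarith
        have h8 : (0 : ℝ) < (j : ℝ) := by
          by_contra hc
          push Not at hc
          have := mul_nonpos_of_nonneg_of_nonpos hU0.le hc
          linarith
        exact_mod_cast h8
      have hjn : ((j.toNat : ℕ) : ℤ) = j := Int.toNat_of_nonneg hj0.le
      have hjr : ((j.toNat : ℕ) : ℝ) = (j : ℝ) := by exact_mod_cast hjn
      refine ⟨j.toNat, ?_, ?_⟩
      · rw [mem_filter, mem_Ioc]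
        refine ⟨⟨by omega, Nat.le_floor ?_⟩, ?_⟩
        · rw [hjr, le_div_iff₀ hU0]
          linarith
        · rw [hjn, ← hj]
          exact hr
      · rw [hjn, hj]
  rw [hcard, hnzU]
  set NN : ℝ := (((Ioc 0 n2).filter (fun j : ℕ => rough (zf M) (⟨l, n1 + (U : ℤ) * (j : ℤ)⟩ : ZI))).card : ℝ) with hNN
  have hV0 := Vp_nonneg (zf M) l
  have hV1 := Vp_le_one (zf M) l
  set ℓ := Real.log M with hℓ
  have hℓ0 : 0 < ℓ := by linarith
  have hn2le : (n2 : ℝ) ≤ 3 * (M / U) := by linarith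
  have b1 : |((n2 : ℝ) - 2 * M / U) * Vp (zf M) l| ≤ 1 := by
    rw [abs_mul, abs_of_nonneg hV0]
    calc |(n2 : ℝ) - 2 * M / U| * Vp (zf M) l ≤ 1 * 1 := by
          apply mul_le_mul _ hV1 hV0 zero_le_one
          rw [e2MU, abs_le]
          constructor <;> linarith
      _ = 1 := one_mul 1
  have b2 : (1 : ℝ) ≤ M / U / ℓ ^ A := by
    rw [le_div_iff₀ (by positivity), one_mul]
    exact hqM.trans hMU
  have b3 : 2 * (n2 : ℝ) / ℓ ^ A ≤ 6 * (M / U / ℓ ^ A) := by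
    calc 2 * (n2 : ℝ) / ℓ ^ A ≤ 2 * (3 * (M / U)) / ℓ ^ A := by gcongr
      _ = _ := by ring
  have e3 : NN - 2 * M / U * Vp (zf M) l = (NN - n2 * Vp (zf M) l) + ((n2 : ℝ) - 2 * M / U) * Vp (zf M) l := by ring
  rw [e3]
  refine (abs_add_le _ _).trans ?_
  have e4 : 7 * M / U / ℓ ^ A = 6 * (M / U / ℓ ^ A) + M / U / ℓ ^ A := by ring
  rw [e4]
  linarith

end Pool.Agent.J6H16.E3
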