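import Pool.Agent.J6H16.E3.Ca
import Pool.Agent.J6H16.E2.Fw
import Pool.Agent.J6H16.PF.Sd

/-!
# Project E3 (helper16): the value of the model
-/

set_option autoImplicit false

namespace Pool.Agent.J6H16.E3

open Finset Filter Topology
open Pool.Agent.N782.GN hiding f1
open Pool.Agent.N855.GN
open Pool.Agent.H304R3.HK (UH bb LamK CS)
open Pool.Agent.J6H16.PF Pool.Agent.J6H16.PR Pool.Agent.J6H16.E2

/-- one line -/
noncomputable def dl (l : ℤ) (k : ℤ) : ℝ := if k = l then 1 else 0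

theorem Lm_dl {M : ℝ} {l : ℤ} (hl : 1 ≤ l) (hlM : (l : ℝ) ≤ M) : Lm M (dl l) := by
  constructor
  · intro k
    unfold dl
    split_ifs <;> simp
  · intro k hk
    unfold dl
    rw [if_neg]
    rintro rfl
    rcases hk with h | h
    · omega
    · linarith

theorem line_sum {M : ℝ} {l : ℤ} (hl : 1 ≤ l) (hlM : (l : ℝ) ≤ M) (G : ZI → ℝ) :
    ∑ m ∈ Icc ⌈-M⌉ ⌊M⌋, G (⟨l, m⟩ : ZI) = ∑ z ∈ bl (2 * M ^ 2), G z * Fz (dl l) M z := by
  rw [sum_box (Lm_dl hl hlM) le_rfl]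
  rw [sum_eq_single_of_mem l (mem_box.2 ⟨hl, hlM⟩)]
  · refine sum_congr rfl fun m _ => ?_
    unfold dl
    rw [if_pos rfl, one_mul]
  · intro k _ hk
    refine sum_eq_zero fun m _ => ?_
    unfold dl
    rw [if_neg hk, zero_mul]

theorem Fz_dl_zero {M : ℝ} {l : ℤ} (hl : 1 ≤ l) (hlM : (l : ℝ) ≤ M) {t : ZI} (ht : t ∉ bl (2 * M ^ 2)) : Fz (dl l) M t = 0 := by
  by_cases h0 : t = 0
  · rw [h0]
    unfold Fz dl
    rw [Zsqrtd.re_zero, if_neg (show ¬ (0 : ℤ) = l by omega)]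
    split_ifs <;> rfl
  · apply Fz_zero (Lm_dl hl hlM) le_rfl le_rfl
    rw [mem_bl] at ht
    push Not at ht
    exact ht h0

/-- the inner sums -/
noncomputable def Rl (M : ℝ) (l : ℤ) (r : ZI → ℝ) (u : ZI) : ℝ := ∑ m ∈ bl (2 * M ^ 2), r m * Fz (dl l) M (u * m)

theorem line_cv3 {M : ℝ} {l : ℤ} (hM : 1 ≤ M) (hl : 1 ≤ l) (hlM : (l : ℝ) ≤ M) (f r g : ZI → ℝ) :
    ∑ m ∈ Icc ⌈-M⌉ ⌊M⌋, cv (cv f r) g (⟨l, m⟩ : ZI) =
      ∑ w ∈ bl (2 * M ^ 2), ∑ a ∈ bl (2 * M ^ 2), f a * g w * Rl M l r (a * w) := by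
  set X := 2 * M ^ 2 with hX
  have hX1 : 1 ≤ X := by rw [hX]; nlinarith
  rw [line_sum hl hlM, ← hX, cv_sum (cv f r) g (Fz (dl l) M) hX1 (fun t ht => Fz_dl_zero hl hlM ht), sum_comm]
  refine sum_congr rfl fun w hw => ?_
  have hw' := (mem_bl _ _).1 hw
  have e1 : ∑ t ∈ bl X, cv f r t * g w * Fz (dl l) M (t * w) = g w * ∑ t ∈ bl X, cv f r t * Fz (dl l) M (t * w) := by
    rw [mul_sum]
    exact sum_congr rfl fun t _ => by ring
  rw [e1, cv_sum f r (fun t => Fz (dl l) M (t * w)) hX1 (fun t ht => by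
    by_cases h0 : t = 0
    · rw [h0, zero_mul]
      apply Fz_dl_zero hl hlM
      rw [mem_bl]
      exact fun h => h.1 rfl
    · apply Fz_dl_zero hl hlM
      rw [mem_bl] at ht ⊢
      rintro ⟨h1, h2⟩
      apply ht
      refine ⟨h0, ?_⟩
      rw [Pool.Agent.N855.GN.nz_mul] at h2
      have h3 := nz_one_le hw'.1
      have h4 := nz_nonneg t
      nlinarith), mul_sum]
  refine sum_congr rfl fun a _ => ?_
  unfold Rl
  rw [mul_sum, mul_sum]
  refine sum_congr rfl fun m _ => ?_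
  rw [show a * m * w = a * w * m by ring]
  ring

/-- the exceptional numbers -/
noncomputable def Exc (z : ℕ) (l : ℤ) (M : ℝ) : Finset ℤ := by
  classical exact (Icc ⌈-M⌉ ⌊M⌋).filter (fun n : ℤ => rough z (⟨l, n⟩ : ZI) ∧ ct (⟨l, n⟩ : ZI) ≠ 1)

theorem ite_three (P Q R : Prop) [Decidable P] [Decidable Q] [Decidable R] [Decidable (P ∧ (R ∧ Q))] :
    (if P then (1 : ℝ) else 0) * (if Q then (if R then 1 else 0) else 0) = if P ∧ (R ∧ Q) then 1 else 0 := by
  by_cases h1 : P <;> by_cases h2 : Q <;> by_cases h3 : R <;> simp [h1, h2, h3]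

open Classical in
/-- the inner sums for the rough numbers -/
theorem Rl_bd {M : ℝ} {l : ℤ} {z : ℕ} {u : ZI} (hl : 1 ≤ l) (hlM : (l : ℝ) ≤ M) (hu : u ≠ 0)
    (hpu : ∀ p : ℕ, p.Prime → p ≤ z → ¬ p ∣ nn u) :
    |Rl M l (rg z) u - (((Icc ⌈-M⌉ ⌊M⌋).filter (fun n : ℤ => rough z (⟨l, n⟩ : ZI) ∧ u ∣ (⟨l, n⟩ : ZI))).card : ℝ)| ≤
      (((Exc z l M).filter (fun n : ℤ => u ∣ (⟨l, n⟩ : ZI))).card : ℝ) := by
  set NS := (Icc ⌈-M⌉ ⌊M⌋).filter (fun n : ℤ => rough z (⟨l, n⟩ : ZI) ∧ u ∣ (⟨l, n⟩ : ZI)) with hNS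
  set ES := (Exc z l M).filter (fun n : ℤ => u ∣ (⟨l, n⟩ : ZI)) with hES
  set B := (bl (2 * M ^ 2)).filter (fun m : ZI => (rough z m ∧ ct m = 1) ∧ ((u * m).re = l ∧ |((u * m).im : ℝ)| ≤ M)) with hB
  have e1 : Rl M l (rg z) u = (B.card : ℝ) := by
    unfold Rl
    rw [hB, ← sum_boole]
    refine sum_congr rfl fun m _ => ?_
    unfold rg Fz dl
    exact ite_three _ _ _
  have hmk : ∀ m : ZI, (u * m).re = l → (⟨l, (u * m).im⟩ : ZI) = u * m := by
    intro m h
    apply Zsqrtd.ext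
    · exact h.symm
    · rfl
  have hinj : Set.InjOn (fun m : ZI => (u * m).im) (B : Set ZI) := by
    intro m hm m' hm' h
    rw [mem_coe, hB, mem_filter] at hm hm'
    have h1 := hmk m hm.2.2.1
    have h2 := hmk m' hm'.2.2.1
    simp only at h
    rw [h] at h1
    exact mul_left_cancel₀ hu (h1.symm.trans h2)
  have hsub1 : B.image (fun m : ZI => (u * m).im) ⊆ NS := by
    intro n hn
    rw [mem_image] at hn
    obtain ⟨m, hm, rfl⟩ := hn
    rw [hB, mem_filter] at hm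
    obtain ⟨-, ⟨h1, h2⟩, h3, h4⟩ := hm
    rw [hNS, mem_filter, mem_box2, hmk m h3]
    refine ⟨h4, ?_, dvd_mul_right _ _⟩
    intro p hp hpz hd
    rw [nn_mul] at hd
    rcases (Nat.Prime.dvd_mul hp).1 hd with h | h
    · exact hpu p hp hpz h
    · exact h1 p hp hpz h
  have hsub2 : NS ⊆ B.image (fun m : ZI => (u * m).im) ∪ ES := by
    intro n hn
    rw [hNS, mem_filter, mem_box2] at hn
    obtain ⟨h1, h2, m, hm⟩ := hn
    rw [mem_union]
    by_cases hc : ct (⟨l, n⟩ : ZI) = 1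
    · left
      rw [mem_image]
      have hne : (⟨l, n⟩ : ZI) ≠ 0 := by
        intro h0
        have h3 := congrArg Zsqrtd.re h0
        simp only [Zsqrtd.re_zero] at h3
        omega
      have hm0 : m ≠ 0 := by
        rintro rfl
        rw [mul_zero] at hm
        exact hne hm
      have hmd : m ∣ (⟨l, n⟩ : ZI) := Dvd.intro_left _ hm.symm
      refine ⟨m, ?_, by rw [← hm]⟩
      rw [hB, mem_filter, mem_bl]
      refine ⟨⟨hm0, ?_⟩, ⟨rough_of_dvd hmd h2, ct_dvd hmd hc⟩, by rw [← hm], by rw [← hm]; exact h1⟩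
      have h3 : nz (⟨l, n⟩ : ZI) = nz u * nz m := by rw [hm, Pool.Agent.N855.GN.nz_mul]
      have h4 := nz_one_le hu
      have h5 := nz_nonneg m
      have h6 : nz (⟨l, n⟩ : ZI) ≤ 2 * M ^ 2 := by
        rw [Pool.Agent.N782.GN.nz_mk]
        have h7 : (n : ℝ) ^ 2 ≤ M ^ 2 := by
          rw [← sq_abs]
          exact pow_le_pow_left₀ (abs_nonneg _) h1 2
        have h8 : (1 : ℝ) ≤ l := by exact_mod_cast hl
        have h9 : (l : ℝ) ^ 2 ≤ M ^ 2 := pow_le_pow_left₀ (by linarith) hlM 2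
        linarith
      nlinarith
    · right
      rw [hES, mem_filter]
      refine ⟨?_, ⟨m, hm⟩⟩
      unfold Exc
      rw [mem_filter, mem_box2]
      exact ⟨h1, h2, hc⟩
  have c1 : B.card ≤ NS.card := by
    rw [← card_image_of_injOn hinj]
    exact card_le_card hsub1
  have c2 : NS.card ≤ B.card + ES.card := by
    refine (card_le_card hsub2).trans ((card_union_le _ _).trans ?_)
    rw [card_image_of_injOn hinj]
  have c1' : (B.card : ℝ) ≤ NS.card := by exact_mod_cast c1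
  have c2' : (NS.card : ℝ) ≤ B.card + ES.card := by exact_mod_cast c2
  rw [e1, abs_le]
  constructor <;> linarith

theorem Exc_card {z : ℕ} {l : ℕ} (hz : 1 ≤ z) (hl : 1 ≤ l) {M : ℝ} (hM : 1 ≤ M) (hlM : (l : ℝ) ≤ M) :
    ((Exc z l M).card : ℝ) ≤ 1 + 2 * (2 * Real.log M * M / z) := by
  classical
  have hsub : Exc z l M ⊆ {0} ∪ (Eb z l M ∪ (Eb z l M).image (fun n => -n)) := by
    intro n hn
    unfold Exc at hn
    rw [mem_filter, mem_box2] at hn
    obtain ⟨h1, h2, h3⟩ := hn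
    rw [mem_union, mem_union, mem_singleton, mem_image]
    rcases lt_trichotomy n 0 with h | h | h
    · right; right
      refine ⟨-n, ?_, neg_neg n⟩
      have hnn : nn (⟨l, -n⟩ : ZI) = nn (⟨l, n⟩ : ZI) := by
        have a1 := Pool.Agent.J6H16.PR.nn_mk (l : ℤ) (-n)
        have a2 := Pool.Agent.J6H16.PR.nn_mk (l : ℤ) n
        have : ((nn (⟨l, -n⟩ : ZI) : ℕ) : ℤ) = ((nn (⟨l, n⟩ : ZI) : ℕ) : ℤ) := by
          rw [a1, a2]
          ring
        exact_mod_cast this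
      apply mem_Eb hl
      · rw [mem_Icc, Int.le_floor]
        refine ⟨by omega, ?_⟩
        push_cast
        have := neg_abs_le (n : ℝ)
        linarith
      · intro p hp hpz
        rw [hnn]
        exact h2 p hp hpz
      · intro hc
        apply h3
        have a1 : ct (⟨l, -n⟩ : ZI) = ct (⟨l, n⟩ : ZI) := by
          show Int.gcd (l : ℤ) (-n) = Int.gcd (l : ℤ) n
          rw [Int.gcd_neg]
        rw [← a1]
        exact hc
    · left; exact h
    · right; left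
      apply mem_Eb hl
      · rw [mem_Icc, Int.le_floor]
        exact ⟨by omega, (le_abs_self _).trans h1⟩
      · exact h2
      · exact h3
  have h1 := card_le_card hsub
  have h2 := card_union_le {(0 : ℤ)} (Eb z l M ∪ (Eb z l M).image (fun n => -n))
  have h3 := card_union_le (Eb z l M) ((Eb z l M).image (fun n => -n))
  have h4 : ((Eb z l M).image (fun n => -n)).card ≤ (Eb z l M).card := card_image_le
  rw [card_singleton] at h2
  have h5 : (Exc z l M).card ≤ 1 + 2 * (Eb z l M).card := by omega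
  have h6 := Eb_card (z := z) (l := l) (Y := M) (M := M) hz hl (by linarith) hlM
  have h7 : ((Exc z l M).card : ℝ) ≤ 1 + 2 * ((Eb z l M).card : ℝ) := by exact_mod_cast h5
  linarith

/-- the mass of a window -/
noncomputable def sW (M x y : ℝ) : ℝ := ∑ a ∈ bg x y, fw M x y a / nz a

theorem sW_nonneg {M : ℝ} (hM : 1 ≤ M) (x y : ℝ) : 0 ≤ sW M x y :=
  sum_nonneg fun a _ => div_nonneg (fw_nonneg hM x y a) (nz_nonneg a)

theorem sW_log {M x y : ℝ} (hM : 1 < M) : Real.log M * sW M x y = ∑ a ∈ bg x y, Lp a / nz a := by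
  have hl := Real.log_pos hM
  unfold sW
  rw [mul_sum]
  refine sum_congr rfl fun a ha => ?_
  rw [mem_bg] at ha
  unfold fw
  rw [if_pos ⟨ha.2.2, ha.2.1⟩]
  field_simp

theorem sW_le {M x y : ℝ} (hM : 1 < M) (hy1 : 1 ≤ y) (hy : y ≤ M) : sW M x y ≤ 288 := by
  have hl := Real.log_pos hM
  have h1 := sum_Lp_nz (x := x) hy1
  rw [← sW_log hM] at h1
  have h2 : Real.log y ≤ Real.log M := Real.log_le_log (by linarith) hy
  nlinarith

theorem sW_bl {M x y X : ℝ} (hy : y ≤ X) : ∑ a ∈ bl X, fw M x y a / nz a = sW M x y := by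
  unfold sW
  symm
  apply sum_subset
  · intro a ha
    rw [mem_bg] at ha
    rw [mem_bl]
    exact ⟨ha.1, ha.2.1.trans hy⟩
  · intro a ha ha'
    have : fw M x y a = 0 := by
      by_contra hne
      apply ha'
      have h3 := fw_ne hne
      rw [mem_bg]
      exact ⟨((mem_bl _ _).1 ha).1, h3.2.2, h3.2.1⟩
    rw [this, zero_div]

theorem fw_div {M x y : ℝ} (hM : 1 < M) {z : ZI} (hz : z ≠ 0) (hz3 : nz z ≤ M ^ 3) : ∑ a ∈ Dv z, fw M x y a ≤ 12 := by
  have hl := Real.log_pos hM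
  have h1 : ∑ a ∈ Dv z, fw M x y a ≤ ∑ a ∈ Dv z, 1 / Real.log M * Lp a := by
    refine sum_le_sum fun a _ => ?_
    have := fw_le hM x y a
    rwa [abs_of_nonneg (fw_nonneg hM.le _ _ _)] at this
  refine h1.trans ?_
  rw [← mul_sum]
  have h2 := div_Lp hz
  have h3 : Real.log (nz z) ≤ 3 * Real.log M := by
    have := Real.log_le_log (nz_pos hz) hz3
    rw [Real.log_pow] at this
    exact_mod_cast this
  calc 1 / Real.log M * ∑ a ∈ Dv z, Lp a ≤ 1 / Real.log M * (4 * (3 * Real.log M)) := by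
        apply mul_le_mul_of_nonneg_left _ (by positivity)
        linarith
    _ = 12 := by field_simp; norm_num

/-- **the value of the model** -/
theorem model {ε c3 c4 : ℝ} (A : ℕ) (hε : 0 < ε) (hc3 : 0 < c3) (hc4 : 2 * c4 ≤ ε) (hc40 : 0 < c4) (hε1 : ε ≤ 1) :
    ∀ᶠ M : ℝ in atTop, ∀ (l : ℕ) (x y u v : ℝ), 1 ≤ l → (l : ℝ) ≤ M → M ^ c3 ≤ x → x ≤ y → y ≤ M ^ c4 → M ^ c4 ≤ u → u ≤ v →
      v ≤ M ^ (1 - ε) →
      |∑ m ∈ Icc ⌈-M⌉ ⌊M⌋, cv (cv (fw M x y) (rg (zf M))) (fw M u v) (⟨l, m⟩ : ZI) -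
        2 * M * Vp (zf M) l * sW M x y * sW M u v| ≤ 600000 * M / (Real.log M) ^ A := by
  classical
  filter_upwards [cntu2 (show 0 < ε / 2 by positivity) A, eventually_ge_atTop (3 : ℝ), ev_log 1, par_c (A + 1),
    ev_qM (show (0 : ℝ) < 1 by norm_num) A, par_b 1 hc3, par_e 1] with M hcnt hM3 hl1 hzA hqM hzc hbe
  intro l x y u v hl hlM hx hxy hy hu huv hv
  have hM0 : 0 < M := by linarith
  have hM1 : 1 ≤ M := by linarith
  have hM1' : 1 < M := by linarith
  set z := zf M with hz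
  have hz1 : 1 ≤ z := by rw [hz]; unfold zf; exact Nat.one_le_two_pow
  have hz1' : (1 : ℝ) ≤ z := by exact_mod_cast hz1
  have hzx : (z : ℝ) ≤ M ^ c3 := by
    refine le_trans ?_ hzc
    calc (z : ℝ) = (z : ℝ) ^ 1 := (pow_one _).symm
      _ ≤ (z : ℝ) ^ (1 * bf M) := pow_le_pow_right₀ hz1' (by omega)
  set ℓ := Real.log M with hℓ
  have hℓ0 : 0 < ℓ := by linarith
  have hx1 : 1 ≤ x := (Real.one_le_rpow hM1 hc3.le).trans hx
  have hyM : y ≤ M := by
    calc y ≤ M ^ c4 := hy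
      _ ≤ M ^ (1 : ℝ) := Real.rpow_le_rpow_of_exponent_le hM1 (by linarith)
      _ = M := Real.rpow_one M
  have hvM : v ≤ M := by
    calc v ≤ M ^ (1 - ε) := hv
      _ ≤ M ^ (1 : ℝ) := Real.rpow_le_rpow_of_exponent_le hM1 (by linarith)
      _ = M := Real.rpow_one M
  have hM2 : M ≤ 2 * M ^ 2 := by nlinarith
  have hcl : (1 : ℤ) ≤ (l : ℤ) := by exact_mod_cast hl
  have hclM : (((l : ℤ)) : ℝ) ≤ M := by exact_mod_cast hlM
  rw [line_cv3 hM1 hcl hclM]
  set X := 2 * M ^ 2 with hX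
  set f := fw M x y with hf
  set g := fw M u v with hg
  have hf0 : ∀ a, 0 ≤ f a := fw_nonneg hM1 _ _
  have hg0 : ∀ a, 0 ≤ g a := fw_nonneg hM1 _ _
  -- the main count
  have hmain : ∀ w a : ZI, f a ≠ 0 → g w ≠ 0 → |Rl M l (rg z) (a * w) - 2 * M / nz (a * w) * Vp z l| ≤
      7 * M / nz (a * w) / ℓ ^ A + (((Exc z l M).filter (fun n : ℤ => a * w ∣ (⟨l, n⟩ : ZI))).card : ℝ) := by
    intro w a ha hw
    have h1 := fw_ne ha
    have h2 := fw_ne hw
    have hnd : ¬ (nn a ∣ nn w) := by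
      intro hd
      have h4 := (Nat.prime_dvd_prime_iff_eq (show (nn a).Prime from h1.1) (show (nn w).Prime from h2.1)).1 hd
      have h5 : nz a = nz w := by rw [nz_nn, nz_nn, h4]
      linarith [h1.2.2, h2.2.1]
    have hsq : Squarefree (nn (a * w)) := sqf_mul h1.1 (show (nn w).Prime from h2.1).squarefree hnd
    have hp : ∀ p : ℕ, p.Prime → p ≤ z → ¬ p ∣ nn (a * w) := by
      intro p hp hpz hd
      have hpz' : (p : ℝ) ≤ (z : ℝ) := by exact_mod_cast hpz
      rw [nn_mul] at hd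
      rcases (Nat.Prime.dvd_mul hp).1 hd with h | h
      · have h5 := (Nat.prime_dvd_prime_iff_eq hp (show (nn a).Prime from h1.1)).1 h
        have h6 : x < (p : ℝ) := by rw [h5, ← nz_nn]; exact h1.2.1
        linarith
      · have h5 := (Nat.prime_dvd_prime_iff_eq hp (show (nn w).Prime from h2.1)).1 h
        have h6 : u < (p : ℝ) := by rw [h5, ← nz_nn]; exact h2.2.1
        linarith
    have hne : a * w ≠ 0 := by
      intro h0
      rw [h0] at hsq
      exact hsq.ne_zero rfl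
    have h4 := hcnt l (a * w) (ct_sqf hsq) hp (by
      rw [← nz_nn, Pool.Agent.N855.GN.nz_mul]
      calc nz a * nz w ≤ M ^ c4 * M ^ (1 - ε) :=
            mul_le_mul (h1.2.2.trans hy) (h2.2.2.trans hv) (nz_nonneg w) (by positivity)
        _ = M ^ (c4 + (1 - ε)) := by rw [← Real.rpow_add hM0]
        _ ≤ M ^ (1 - ε / 2) := Real.rpow_le_rpow_of_exponent_le hM1 (by linarith))
    have h5 := Rl_bd hcl hclM hne hp
    have e : Rl M l (rg z) (a * w) - 2 * M / nz (a * w) * Vp z l =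
        (Rl M l (rg z) (a * w) - (((Icc ⌈-M⌉ ⌊M⌋).filter (fun n : ℤ => rough z (⟨l, n⟩ : ZI) ∧ a * w ∣ (⟨l, n⟩ : ZI))).card : ℝ)) +
        ((((Icc ⌈-M⌉ ⌊M⌋).filter (fun n : ℤ => rough z (⟨l, n⟩ : ZI) ∧ a * w ∣ (⟨l, n⟩ : ZI))).card : ℝ) - 2 * M / nz (a * w) * Vp z l) := by
      ring
    rw [e]
    refine (abs_add_le _ _).trans ?_
    rw [add_comm]
    exact add_le_add h4 h5
  -- the sum
  have e1 : 2 * M * Vp z l * sW M x y * sW M u v =
      ∑ w ∈ bl X, ∑ a ∈ bl X, f a * g w * (2 * M / nz (a * w) * Vp z l) := by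
    rw [← sW_bl (X := X) (hyM.trans hM2), ← sW_bl (X := X) (hvM.trans hM2), mul_assoc, sum_mul_sum, mul_sum, sum_comm]
    refine sum_congr rfl fun w hw => ?_
    rw [mul_sum]
    refine sum_congr rfl fun a ha => ?_
    rw [Pool.Agent.N855.GN.nz_mul]
    have h1 := nz_pos ((mem_bl _ _).1 ha).1
    have h2 := nz_pos ((mem_bl _ _).1 hw).1
    rw [← hf, ← hg]
    field_simp
  rw [e1, ← sum_sub_distrib]
  have e2 : ∀ w ∈ bl X, |∑ a ∈ bl X, f a * g w * Rl M l (rg z) (a * w) - ∑ a ∈ bl X, f a * g w * (2 * M / nz (a * w) * Vp z l)| ≤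
      ∑ a ∈ bl X, (7 * M / ℓ ^ A * ((f a / nz a) * (g w / nz w)) +
        ∑ n ∈ Exc z l M, if a * w ∣ (⟨l, n⟩ : ZI) then g w * f a else 0) := by
    intro w hw
    rw [← sum_sub_distrib]
    refine (abs_sum_le_sum_abs _ _).trans (sum_le_sum fun a ha => ?_)
    rw [← mul_sub, abs_mul, abs_of_nonneg (mul_nonneg (hf0 a) (hg0 w))]
    have h3 : ∑ n ∈ Exc z l M, (if a * w ∣ (⟨l, n⟩ : ZI) then g w * f a else 0) =
        f a * g w * (((Exc z l M).filter (fun n : ℤ => a * w ∣ (⟨l, n⟩ : ZI))).card : ℝ) := by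
      rw [← sum_filter, sum_const, nsmul_eq_mul]
      ring
    rw [h3]
    by_cases hfa : f a = 0
    · rw [hfa]; simp
    by_cases hgw : g w = 0
    · rw [hgw]; simp
    have h4 := mul_le_mul_of_nonneg_left (hmain w a hfa hgw) (mul_nonneg (hf0 a) (hg0 w))
    refine h4.trans (le_of_eq ?_)
    rw [Pool.Agent.N855.GN.nz_mul]
    have h1 := nz_pos ((mem_bl _ _).1 ha).1
    have h2 := nz_pos ((mem_bl _ _).1 hw).1
    field_simp
  refine (abs_sum_le_sum_abs _ _).trans ((sum_le_sum e2).trans ?_)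
  simp only [sum_add_distrib]
  have f1 : ∑ w ∈ bl X, ∑ a ∈ bl X, 7 * M / ℓ ^ A * ((f a / nz a) * (g w / nz w)) ≤ 7 * 288 * 288 * M / ℓ ^ A := by
    have h1 : ∑ w ∈ bl X, ∑ a ∈ bl X, 7 * M / ℓ ^ A * ((f a / nz a) * (g w / nz w)) =
        7 * M / ℓ ^ A * (sW M x y * sW M u v) := by
      rw [← sW_bl (X := X) (hyM.trans hM2), ← sW_bl (X := X) (hvM.trans hM2), sum_mul_sum, mul_sum, sum_comm]
      refine sum_congr rfl fun w _ => ?_
      rw [mul_sum]
    rw [h1]
    have h2 := sW_le (x := x) hM1' (hx1.trans hxy) hyM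
    have h3 := sW_le (x := u) hM1' ((hx1.trans hxy).trans (hy.trans (hu.trans huv))) hvM
    have h4 := sW_nonneg hM1 x y
    have h5 := sW_nonneg hM1 u v
    calc 7 * M / ℓ ^ A * (sW M x y * sW M u v) ≤ 7 * M / ℓ ^ A * (288 * 288) := by gcongr
      _ = _ := by ring
  have f2 : ∑ w ∈ bl X, ∑ a ∈ bl X, ∑ n ∈ Exc z l M, (if a * w ∣ (⟨l, n⟩ : ZI) then g w * f a else 0) ≤
      720 * M / ℓ ^ A := by
    have h0 : ∑ w ∈ bl X, ∑ a ∈ bl X, ∑ n ∈ Exc z l M, (if a * w ∣ (⟨l, n⟩ : ZI) then g w * f a else 0) =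
        ∑ n ∈ Exc z l M, ∑ w ∈ bl X, ∑ a ∈ bl X, (if a * w ∣ (⟨l, n⟩ : ZI) then g w * f a else 0) := by
      rw [sum_comm (s := Exc z l M)]
      refine sum_congr rfl fun w _ => ?_
      rw [sum_comm]
    rw [h0]
    have h3 : ∀ n ∈ Exc z l M, ∑ w ∈ bl X, ∑ a ∈ bl X, (if a * w ∣ (⟨l, n⟩ : ZI) then g w * f a else 0) ≤ 144 := by
      intro n hn
      unfold Exc at hn
      rw [mem_filter, mem_box2] at hn
      have hζ : (⟨l, n⟩ : ZI) ≠ 0 := by
        intro h0
        have h3 := congrArg Zsqrtd.re h0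
        simp only [Zsqrtd.re_zero] at h3
        omega
      have hnz : nz (⟨l, n⟩ : ZI) ≤ M ^ 3 := by
        rw [Pool.Agent.N782.GN.nz_mk]
        push_cast
        have hl0 : (0 : ℝ) ≤ l := Nat.cast_nonneg l
        have h4 : (l : ℝ) ^ 2 ≤ M ^ 2 := pow_le_pow_left₀ hl0 hlM 2
        have h5 : (n : ℝ) ^ 2 ≤ M ^ 2 := by
          rw [← sq_abs]
          exact pow_le_pow_left₀ (abs_nonneg _) hn.1 2
        nlinarith [sq_nonneg M]
      have h4 : ∑ w ∈ bl X, ∑ a ∈ bl X, (if a * w ∣ (⟨l, n⟩ : ZI) then g w * f a else 0) ≤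
          ∑ w ∈ Dv (⟨l, n⟩ : ZI), ∑ a ∈ Dv (⟨l, n⟩ : ZI), g w * f a := by
        calc ∑ w ∈ bl X, ∑ a ∈ bl X, (if a * w ∣ (⟨l, n⟩ : ZI) then g w * f a else 0) ≤
              ∑ w ∈ bl X, (if w ∣ (⟨l, n⟩ : ZI) then ∑ a ∈ Dv (⟨l, n⟩ : ZI), g w * f a else 0) := by
                refine sum_le_sum fun w _ => ?_
                by_cases hv : w ∣ (⟨l, n⟩ : ZI)
                · rw [if_pos hv, ← sum_filter]
                  apply sum_le_sum_of_subset_of_nonneg
                  · intro a ha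
                    rw [mem_filter] at ha
                    rw [mem_Dv hζ]
                    exact (Dvd.intro _ rfl).trans ha.2
                  · intro a _ _
                    exact mul_nonneg (hg0 w) (hf0 a)
                · rw [if_neg hv]
                  apply le_of_eq
                  apply sum_eq_zero
                  intro a _
                  rw [if_neg]
                  exact fun h => hv ((Dvd.intro_left _ rfl).trans h)
          _ ≤ _ := by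
                rw [← sum_filter]
                apply sum_le_sum_of_subset_of_nonneg
                · intro w hw
                  rw [mem_filter] at hw
                  rw [mem_Dv hζ]
                  exact hw.2
                · intro w _ _
                  exact sum_nonneg fun a _ => mul_nonneg (hg0 w) (hf0 a)
      refine h4.trans ?_
      rw [← sum_mul_sum]
      have h5 := fw_div (x := u) (y := v) hM1' hζ hnz
      have h6 := fw_div (x := x) (y := y) hM1' hζ hnz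
      calc (∑ w ∈ Dv (⟨l, n⟩ : ZI), g w) * ∑ a ∈ Dv (⟨l, n⟩ : ZI), f a ≤ 12 * 12 :=
            mul_le_mul h5 h6 (sum_nonneg fun a _ => hf0 a) (by norm_num)
        _ = 144 := by norm_num
    refine (sum_le_sum h3).trans ?_
    rw [sum_const, nsmul_eq_mul]
    have h4 := Exc_card (z := z) (l := l) hz1 hl hM1 hlM
    have h5 : 2 * Real.log M * M / z ≤ 2 * (M / ℓ ^ A) := by
      rw [← hℓ, div_le_iff₀ (by linarith)]
      have h7 : 2 * ℓ * M * 1 = 2 * (M / ℓ ^ A) * ℓ ^ (A + 1) := by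
        rw [pow_succ]
        field_simp
      rw [mul_one] at h7
      rw [h7]
      exact mul_le_mul_of_nonneg_left hzA (by positivity)
    have h6 : 1 ≤ M / ℓ ^ A := by
      rw [le_div_iff₀ (by positivity), one_mul]
      rwa [Real.rpow_one] at hqM
    have h8 : ((Exc z l M).card : ℝ) ≤ 5 * (M / ℓ ^ A) := by linarith
    calc ((Exc z l M).card : ℝ) * 144 ≤ (5 * (M / ℓ ^ A)) * 144 := mul_le_mul_of_nonneg_right h8 (by norm_num)
      _ = _ := by ring
  have hpos : 0 ≤ M / ℓ ^ A := by positivity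
  calc _ ≤ 7 * 288 * 288 * M / ℓ ^ A + 720 * M / ℓ ^ A := add_le_add f1 f2
    _ = 581328 * (M / ℓ ^ A) := by ring
    _ ≤ 600000 * (M / ℓ ^ A) := by linarith
    _ = _ := by ring

end Pool.Agent.J6H16.E3
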