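import Pool.Agent.J6H16.PR.Cp
import Pool.Agent.J6H16.PR.Vl
import Pool.Agent.N866.GN.M1f

/-!
# Project E3 (helper16): the number of the reduced residues, and the local factors
-/

set_option autoImplicit false

namespace Pool.Agent.J6H16.E3

open Finset Filter Topology
open Pool.Agent.N782.GN hiding f1
open Pool.Agent.N855.GN
open Pool.Agent.H304R3.HK (UH bb LamK CS)
open Pool.Agent.J6H16.PF Pool.Agent.J6H16.PR
open Pool.Agent.N866.GN.MT (ch abs_ch ch_two)

/-- the number of the pairs with an invertible norm -/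
noncomputable def U2 (D : ℕ) : ℕ := Nat.card {x : ZMod D × ZMod D // IsUnit (x.1 ^ 2 + x.2 ^ 2)}

theorem U2_one : U2 1 = 1 := by
  unfold U2
  have : Subsingleton {x : ZMod 1 × ZMod 1 // IsUnit (x.1 ^ 2 + x.2 ^ 2)} := by
    constructor
    rintro ⟨⟨a, b⟩, _⟩ ⟨⟨c, d⟩, _⟩
    apply Subtype.ext
    exact Prod.ext (Subsingleton.elim _ _) (Subsingleton.elim _ _)
  have : Nonempty {x : ZMod 1 × ZMod 1 // IsUnit (x.1 ^ 2 + x.2 ^ 2)} := ⟨⟨(0, 0), isUnit_of_subsingleton _⟩⟩
  exact Nat.card_unique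

theorem U2_mul {m n : ℕ} (h : Nat.Coprime m n) : U2 (m * n) = U2 m * U2 n := by
  unfold U2
  rw [← Nat.card_prod]
  let e := ZMod.chineseRemainder h
  let f : ZMod (m * n) × ZMod (m * n) ≃ (ZMod m × ZMod m) × (ZMod n × ZMod n) :=
    { toFun := fun x => (((e x.1).1, (e x.2).1), ((e x.1).2, (e x.2).2))
      invFun := fun y => (e.symm (y.1.1, y.2.1), e.symm (y.1.2, y.2.2))
      left_inv := fun x => by simp
      right_inv := fun y => by simp }
  have hf : ∀ x : ZMod (m * n) × ZMod (m * n), IsUnit (x.1 ^ 2 + x.2 ^ 2) ↔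
      IsUnit ((f x).1.1 ^ 2 + (f x).1.2 ^ 2) ∧ IsUnit ((f x).2.1 ^ 2 + (f x).2.2 ^ 2) := by
    intro x
    have h1 : IsUnit (x.1 ^ 2 + x.2 ^ 2) ↔ IsUnit (e (x.1 ^ 2 + x.2 ^ 2)) := (MulEquiv.isUnit_map e).symm
    rw [h1, map_add, map_pow, map_pow, Prod.isUnit_iff]
    rfl
  refine Nat.card_congr ((Equiv.subtypeEquiv (q := fun y : (ZMod m × ZMod m) × (ZMod n × ZMod n) =>
    IsUnit (y.1.1 ^ 2 + y.1.2 ^ 2) ∧ IsUnit (y.2.1 ^ 2 + y.2.2 ^ 2)) f hf).trans ?_)
  exact
    { toFun := fun y => (⟨y.1.1, y.2.1⟩, ⟨y.1.2, y.2.2⟩)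
      invFun := fun y => ⟨(y.1.1, y.2.1), ⟨y.1.2, y.2.2⟩⟩
      left_inv := fun y => rfl
      right_inv := fun y => rfl }

theorem U2_prod (T : Finset ℕ) (hT : ∀ p ∈ T, p.Prime) : U2 (∏ p ∈ T, p) = ∏ p ∈ T, U2 p := by
  classical
  induction T using Finset.induction_on with
  | empty => rw [prod_empty, prod_empty]; exact U2_one
  | insert q S hq ih =>
    rw [prod_insert hq, prod_insert hq, U2_mul, ih fun p hp => hT p (mem_insert_of_mem hp)]
    refine Nat.Coprime.prod_right fun p hp => ?_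
    rw [Nat.coprime_primes (hT q (mem_insert_self _ _)) (hT p (mem_insert_of_mem hp))]
    rintro rfl
    exact hq hp

theorem U2_prime {p : ℕ} (hp : p.Prime) : (U2 p : ℝ) = (p : ℝ) ^ 2 * (1 - gp p) := by
  classical
  have : Fact p.Prime := ⟨hp⟩
  have h1 : N2 p = (univ.filter (fun x : ZMod p × ZMod p => x.1 ^ 2 + x.2 ^ 2 = 0)).card := by
    unfold N2
    rw [Nat.card_eq_fintype_card, Fintype.card_subtype]
  have h2 : U2 p = (univ.filter (fun x : ZMod p × ZMod p => ¬ x.1 ^ 2 + x.2 ^ 2 = 0)).card := by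
    unfold U2
    rw [Nat.card_eq_fintype_card, Fintype.card_subtype]
    congr 1
    ext x
    rw [mem_filter, mem_filter, isUnit_iff_ne_zero]
  have h3 := card_filter_add_card_filter_not (s := (univ : Finset (ZMod p × ZMod p))) (fun x : ZMod p × ZMod p => x.1 ^ 2 + x.2 ^ 2 = 0)
  rw [← h1, ← h2, card_univ, Fintype.card_prod, ZMod.card] at h3
  have h4 : (N2 p : ℝ) + U2 p = (p : ℝ) * p := by exact_mod_cast h3
  have hp0 : (0 : ℝ) < p := by exact_mod_cast hp.pos
  unfold gp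
  field_simp
  linarith

theorem cop_iff {W : ℕ} (hW : 1 ≤ W) (r : ZI) : IsCoprime r ((W : ℕ) : ZI) ↔ Nat.Coprime (nn r) W := by
  constructor
  · intro h
    apply Nat.Coprime.symm
    apply Nat.coprime_of_dvd
    intro p hp hp1 hp2
    exact cop_nn h hp hp1 hp2
  · intro h2
    obtain ⟨u, v, huv⟩ := Nat.isCoprime_iff_coprime.2 h2
    refine ⟨((u : ℤ) : ZI) * star r, ((v : ℤ) : ZI), ?_⟩
    have h4 : r * star r = ((nn r : ℕ) : ZI) := by
      have h5 : r * star r = ((Zsqrtd.norm r : ℤ) : ZI) := (Zsqrtd.norm_eq_mul_conj r).symm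
      rw [h5]
      have h6 : (Zsqrtd.norm r : ℤ) = ((nn r : ℕ) : ℤ) := by
        unfold nn
        rw [Int.natAbs_of_nonneg (GaussianInt.norm_nonneg r)]
      rw [h6]
      push_cast
      rfl
    have h7 := congrArg (fun x : ℤ => ((x : ℤ) : ZI)) huv
    push_cast at h7
    rw [mul_assoc, mul_comm (star r) r, h4]
    exact h7

theorem cop_unit {W : ℕ} (hW : 1 ≤ W) (r : ZI) : IsCoprime r ((W : ℕ) : ZI) ↔
    IsUnit (((r.re : ℤ) : ZMod W) ^ 2 + ((r.im : ℤ) : ZMod W) ^ 2) := by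
  rw [cop_iff hW, ← ZMod.isUnit_iff_coprime]
  have h1 : ((nn r : ℕ) : ZMod W) = ((r.re : ℤ) : ZMod W) ^ 2 + ((r.im : ℤ) : ZMod W) ^ 2 := by
    have h2 : ((nn r : ℕ) : ℤ) = r.re ^ 2 + r.im ^ 2 := by
      unfold nn
      rw [Int.natAbs_of_nonneg (GaussianInt.norm_nonneg _), Zsqrtd.norm_def]
      ring
    have h3 : (((nn r : ℕ) : ℤ) : ZMod W) = ((r.re ^ 2 + r.im ^ 2 : ℤ) : ZMod W) := by rw [h2]
    push_cast at h3
    exact h3
  rw [h1]

theorem Rq_mem {W : ℕ} {r : ZI} (h : r ∈ Rq W) : (0 ≤ r.re ∧ r.re < W) ∧ (0 ≤ r.im ∧ r.im < W) := by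
  classical
  unfold Rq at h
  rw [mem_image] at h
  obtain ⟨p, hp, rfl⟩ := h
  rw [mem_product, mem_range, mem_range] at hp
  simp only
  omega

open Classical in
/-- the number of the reduced residues -/
theorem card_G {W : ℕ} (hW : 1 ≤ W) : ((lifts 1 W 1).filter (fun r => IsCoprime r ((W : ℕ) : ZI))).card = U2 W := by
  have : NeZero W := ⟨by omega⟩
  have h2 : U2 W = (univ.filter (fun x : ZMod W × ZMod W => IsUnit (x.1 ^ 2 + x.2 ^ 2))).card := by
    unfold U2
    rw [Nat.card_eq_fintype_card, Fintype.card_subtype]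
  rw [h2]
  apply card_bij (fun (r : ZI) _ => (((r.re : ℤ) : ZMod W), ((r.im : ℤ) : ZMod W)))
  · intro r hr
    rw [mem_filter] at hr
    rw [mem_filter]
    exact ⟨mem_univ _, (cop_unit hW r).1 hr.2⟩
  · intro r hr r' hr' h
    unfold lifts at hr hr'
    rw [mem_filter, mem_filter] at hr hr'
    have a1 := Rq_mem hr.1.1
    have a2 := Rq_mem hr'.1.1
    have h3 := (ZMod.intCast_eq_intCast_iff' _ _ _).1 (Prod.ext_iff.1 h).1
    have h4 := (ZMod.intCast_eq_intCast_iff' _ _ _).1 (Prod.ext_iff.1 h).2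
    rw [Int.emod_eq_of_lt a1.1.1 a1.1.2, Int.emod_eq_of_lt a2.1.1 a2.1.2] at h3
    rw [Int.emod_eq_of_lt a1.2.1 a1.2.2, Int.emod_eq_of_lt a2.2.1 a2.2.2] at h4
    exact Zsqrtd.ext h3 h4
  · rintro ⟨a, b⟩ hab
    rw [mem_filter] at hab
    refine ⟨⟨(a.val : ℤ), (b.val : ℤ)⟩, ?_, ?_⟩
    · rw [mem_filter]
      constructor
      · unfold lifts
        rw [mem_filter]
        refine ⟨?_, ?_⟩
        · unfold Rq
          rw [mem_image]
          refine ⟨(a.val, b.val), ?_, rfl⟩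
          rw [mem_product, mem_range, mem_range]
          exact ⟨ZMod.val_lt a, ZMod.val_lt b⟩
        · push_cast
          exact one_dvd _
      · rw [cop_unit hW]
        have e1 : (((a.val : ℤ) : ℤ) : ZMod W) = a := by
          rw [Int.cast_natCast]
          exact ZMod.natCast_zmod_val a
        have e2 : (((b.val : ℤ) : ℤ) : ZMod W) = b := by
          rw [Int.cast_natCast]
          exact ZMod.natCast_zmod_val b
        simp only
        rw [e1, e2]
        exact hab.2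
    · simp only
      rw [Int.cast_natCast, Int.cast_natCast, ZMod.natCast_zmod_val, ZMod.natCast_zmod_val]

open Classical in
/-- the number of the reduced residues modulo the product of the small primes -/
theorem card_W0 (z0 : ℕ) : (((lifts 1 (W0 z0) 1).filter (fun r => IsCoprime r ((W0 z0 : ℕ) : ZI))).card : ℝ) =
    (W0 z0 : ℝ) ^ 2 * ∏ p ∈ (range (z0 + 1)).filter Nat.Prime, (1 - gp p) := by
  rw [card_G (W0_pos z0)]
  have h1 : W0 z0 = ∏ p ∈ (range (z0 + 1)).filter Nat.Prime, p := rfl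
  have h2 : U2 (W0 z0) = ∏ p ∈ (range (z0 + 1)).filter Nat.Prime, U2 p := by
    rw [h1]
    exact U2_prod _ fun p hp => (mem_filter.1 hp).2
  rw [h2, h1]
  push_cast
  rw [← prod_pow, ← prod_mul_distrib]
  exact prod_congr rfl fun p hp => U2_prime (mem_filter.1 hp).2

/-- the density with all the small primes -/
noncomputable def Vg (z : ℕ) : ℝ := ∏ p ∈ (Icc 2 z).filter Nat.Prime, (1 - gp p)

open Classical in
theorem kq_full {z z0 : ℕ} (hz : z0 ≤ z) :
    (((lifts 1 (W0 z0) 1).filter (fun r => IsCoprime r ((W0 z0 : ℕ) : ZI))).card : ℝ) * kq z z0 (W0 z0) = Real.pi * Vg z := by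
  rw [card_W0]
  unfold kq Vg
  have hW : (0 : ℝ) < (W0 z0 : ℝ) := by exact_mod_cast W0_pos z0
  have h1 : (Icc 2 z).filter Nat.Prime = (range (z0 + 1)).filter Nat.Prime ∪ PQ z z0 (W0 z0) := by
    ext p
    rw [mem_filter, mem_Icc, mem_union, mem_filter, mem_range, mem_PQ]
    constructor
    · rintro ⟨⟨h2, h3⟩, h4⟩
      by_cases h5 : p ≤ z0
      · left; exact ⟨by omega, h4⟩
      · right
        refine ⟨⟨by omega, h3⟩, h4, fun hd => ?_⟩
        unfold W0 at hd
        obtain ⟨q, hq, hpq⟩ := (Prime.dvd_finset_prod_iff h4.prime _).1 hd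
        rw [mem_filter, mem_range] at hq
        have := (Nat.prime_dvd_prime_iff_eq h4 hq.2).1 hpq
        omega
    · rintro (⟨h2, h3⟩ | ⟨⟨h2, h3⟩, h4, -⟩)
      · exact ⟨⟨h3.two_le, by omega⟩, h3⟩
      · exact ⟨⟨h4.two_le, h3⟩, h4⟩
  have hd : Disjoint ((range (z0 + 1)).filter Nat.Prime) (PQ z z0 (W0 z0)) := by
    rw [disjoint_left]
    intro p hp hp'
    rw [mem_filter, mem_range] at hp
    rw [mem_PQ] at hp'
    omega
  rw [h1, prod_union hd]
  field_simp

/-- the number of the roots -/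
theorem r1_ch {p : ℕ} (hp : p.Prime) (h2 : p ≠ 2) : (r1 p : ℝ) = 1 + ch p := by
  classical
  have : Fact p.Prime := ⟨hp⟩
  have hr : ringChar (ZMod p) ≠ 2 := by
    rw [ZMod.ringChar_zmod_n]
    exact h2
  have h3 := quadraticChar_card_sqrts hr (-1 : ZMod p)
  rw [quadraticChar_neg_one hr, ZMod.card] at h3
  have h4 : r1 p = ({x : ZMod p | x ^ 2 = -1}.toFinset).card := by
    unfold r1
    rw [Nat.card_eq_fintype_card, Fintype.card_subtype]
    congr 1
    ext x
    rw [mem_filter, Set.mem_toFinset, Set.mem_setOf_eq]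
    constructor
    · rintro ⟨-, h⟩
      linear_combination h
    · intro h
      exact ⟨mem_univ _, by rw [h]; ring⟩
  have h5 : ((r1 p : ℕ) : ℤ) = ZMod.χ₄ (p : ZMod 4) + 1 := by
    rw [h4]
    exact h3
  unfold ch
  have h6 : (((r1 p : ℕ) : ℤ) : ℝ) = ((ZMod.χ₄ (p : ZMod 4) + 1 : ℤ) : ℝ) := by rw [h5]
  push_cast at h6
  rw [h6]
  ring

theorem ch_odd {p : ℕ} (hp : p.Prime) (h2 : p ≠ 2) : ch p = 1 ∨ ch p = -1 := by
  have h := hp.eq_two_or_odd.resolve_left h2
  unfold ch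
  rw [ZMod.χ₄_eq_neg_one_pow h]
  rcases neg_one_pow_eq_or ℤ (p / 2) with h1 | h1 <;> rw [h1]
  · left; norm_num
  · right; norm_num

/-- the absolutely convergent factor -/
noncomputable def aa (p : ℕ) : ℝ := ch p / (((p : ℝ) - 1) * ((p : ℝ) - ch p))

theorem aa_bd {p : ℕ} (hp : 3 ≤ p) : |aa p| ≤ 4 * ((p : ℝ) ^ 2)⁻¹ := by
  have h3 : (3 : ℝ) ≤ p := by exact_mod_cast hp
  have hc := abs_ch p
  have hc' := abs_le.1 hc
  unfold aa
  have h1 : 0 < (p : ℝ) - 1 := by linarith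
  have h2 : 0 < (p : ℝ) - ch p := by linarith [hc'.2]
  rw [abs_div, abs_of_pos (mul_pos h1 h2), div_le_iff₀ (mul_pos h1 h2), ← div_eq_mul_inv, div_mul_eq_mul_div,
    le_div_iff₀ (by positivity)]
  have h4 : (p : ℝ) / 2 ≤ (p : ℝ) - 1 := by linarith
  have h5 : (p : ℝ) / 2 ≤ (p : ℝ) - ch p := by linarith [hc'.2]
  have h6 : (p : ℝ) / 2 * ((p : ℝ) / 2) ≤ ((p : ℝ) - 1) * ((p : ℝ) - ch p) := mul_le_mul h4 h5 (by positivity) h1.le
  calc |ch p| * (p : ℝ) ^ 2 ≤ 1 * (p : ℝ) ^ 2 := mul_le_mul_of_nonneg_right hc (by positivity)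
    _ ≤ _ := by linarith

/-- the local factors -/
theorem loc_fac {l p : ℕ} (hp : p.Prime) : 1 - (wl l p : ℝ) / p =
    (1 - gp p) * (if p = 2 then 1 else (1 - aa p) * (if p ∣ l then (1 - ch p / ((p : ℝ) - 1))⁻¹ else 1)) := by
  rw [gp_eq hp]
  by_cases h2 : p = 2
  · rw [if_pos h2, h2, r1_two]
    have : wl l 2 = 1 := by
      unfold wl
      rw [r1_two]
      split_ifs <;> rfl
    rw [this]
    norm_num
  · rw [if_neg h2]
    have hr := r1_ch hp h2
    have h3 : 3 ≤ p := by have := hp.two_le; omega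
    have h3' : (3 : ℝ) ≤ p := by exact_mod_cast h3
    have hp0 : (p : ℝ) ≠ 0 := by linarith
    have hp1 : (p : ℝ) - 1 ≠ 0 := by linarith
    unfold wl aa
    split_ifs with hl
    · rw [hr]
      rcases ch_odd hp h2 with hc | hc <;> rw [hc]
      · have h4 : (p : ℝ) - 1 - 1 ≠ 0 := by linarith
        have e1 : 1 - 1 / ((p : ℝ) - 1) ≠ 0 := by
          rw [sub_ne_zero]
          intro h
          rw [eq_div_iff hp1] at h
          apply h4
          linarith
        push_cast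
        field_simp
        ring
      · have h4 : (p : ℝ) + 1 ≠ 0 := by linarith
        have e1 : 1 - -1 / ((p : ℝ) - 1) = p / ((p : ℝ) - 1) := by field_simp; ring
        have e2 : (p : ℝ) - -1 ≠ 0 := by linarith
        rw [e1, inv_div]
        push_cast
        field_simp
        ring
    · rw [hr, mul_one]
      rcases ch_odd hp h2 with hc | hc <;> rw [hc]
      · push_cast
        field_simp
        ring
      · have e2 : (p : ℝ) - -1 ≠ 0 := by linarith
        push_cast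
        field_simp
        ring

end Pool.Agent.J6H16.E3
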