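import Pool.Agent.J6H16.E3.Cc
import Pool.Agent.N782.GN.All1

/-!
# Project E3 (helper16): the value `L(1, χ) = π / 4` and the rate of convergence of the singular series
-/

set_option autoImplicit false

namespace Pool.Agent.J6H16.E3

open Finset Filter Topology
open Pool.Agent.N782.GN hiding f1 cc
open Pool.Agent.N866.GN.MT (ch abs_ch ch_two x_bd ww ww_summable cc cc_summable abel pp_eq log_prod)

/-- the absolutely convergent part of the logarithm of the factors of `L(s, χ)` -/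
noncomputable def wz (s : ℝ) (n : ℕ) : ℝ :=
  if n.Prime then Real.log (1 - ch n * (n : ℝ) ^ (-s)) + ch n * (n : ℝ) ^ (-s) else 0

theorem cx_bd {n : ℕ} (hn : 2 ≤ n) {s : ℝ} (hs : 1 ≤ s) : |ch n * (n : ℝ) ^ (-s)| ≤ 1 / 2 := by
  obtain ⟨h1, h2, h3⟩ := x_bd hn hs
  rw [abs_mul, abs_of_pos h1]
  calc |ch n| * (n : ℝ) ^ (-s) ≤ 1 * (1 / 2) := mul_le_mul (abs_ch n) h3 h1.le zero_le_one
    _ = _ := one_mul _

theorem wz_bd {s : ℝ} (hs : 1 ≤ s) (n : ℕ) : ‖wz s n‖ ≤ 2 * (1 / (n : ℝ) ^ 2) := by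
  unfold wz
  split_ifs with hp
  · obtain ⟨h1, h2, h3⟩ := x_bd hp.two_le hs
    have hx := cx_bd hp.two_le hs
    have hn0 : (0 : ℝ) < n := by exact_mod_cast hp.pos
    set x := ch n * (n : ℝ) ^ (-s) with hxd
    have h4 := Real.abs_log_sub_add_sum_range_le (show |x| < 1 by linarith) 1
    simp only [range_one, sum_singleton, zero_add, pow_one, Nat.cast_zero, div_one] at h4
    have hx2 : |x| ≤ 1 / (n : ℝ) := by
      rw [hxd, abs_mul, abs_of_pos h1]
      calc |ch n| * (n : ℝ) ^ (-s) ≤ 1 * (1 / n) := mul_le_mul (abs_ch n) h2 h1.le zero_le_one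
        _ = _ := one_mul _
    rw [Real.norm_eq_abs, add_comm]
    refine h4.trans ?_
    rw [div_le_iff₀ (by linarith)]
    have h5 : |x| ^ (1 + 1) ≤ 1 / (n : ℝ) ^ 2 := by
      have h7 : |x| ^ (1 + 1) ≤ (1 / (n : ℝ)) ^ (1 + 1) := pow_le_pow_left₀ (abs_nonneg _) hx2 _
      refine h7.trans (le_of_eq ?_)
      rw [div_pow, one_pow]
    have h6 : 0 ≤ 1 / (n : ℝ) ^ 2 := by positivity
    nlinarith
  · rw [norm_zero]
    positivity

theorem wz_bs : Summable (fun n : ℕ => 2 * (1 / (n : ℝ) ^ 2)) :=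
  (Real.summable_one_div_nat_pow.2 (by norm_num)).mul_left _

theorem wz_summable {s : ℝ} (hs : 1 ≤ s) : Summable (wz s) := Summable.of_norm_bounded wz_bs (wz_bd hs)

theorem wz_tendsto : Tendsto (fun ε : ℝ => ∑' n : ℕ, wz (1 + ε) n) (𝓝[>] 0) (𝓝 (∑' n : ℕ, wz 1 n)) := by
  refine tendsto_tsum_of_dominated_convergence wz_bs ?_ ?_
  · intro n
    unfold wz
    split_ifs with hp
    · have y1 := cx_bd hp.two_le (le_refl (1 : ℝ))
      have hn0 : (0 : ℝ) < n := by exact_mod_cast hp.pos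
      have hc : ContinuousAt (fun ε : ℝ => (n : ℝ) ^ (-(1 + ε))) 0 := by
        refine ContinuousAt.rpow (by fun_prop) (by fun_prop) (Or.inl hn0.ne')
      have hlog : ContinuousAt (fun ε : ℝ => Real.log (1 - ch n * (n : ℝ) ^ (-(1 + ε))) + ch n * (n : ℝ) ^ (-(1 + ε))) 0 := by
        refine ContinuousAt.add (ContinuousAt.log (by fun_prop) ?_) (by fun_prop)
        rw [add_zero]
        have := (abs_le.1 y1).2
        linarith
      have := hlog.tendsto
      rw [add_zero] at this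
      exact this.mono_left nhdsWithin_le_nhds
    · exact tendsto_const_nhds
  · filter_upwards [self_mem_nhdsWithin] with ε hε n
    have hε : 0 < ε := hε
    exact wz_bd (by linarith) n

theorem L_prod {s : ℝ} (hs : 1 ≤ s) (N : ℕ) : ∏ p ∈ Nat.primesBelow N, (1 - ch p * (p : ℝ) ^ (-s)) =
    Real.exp (∑ n ∈ range N, (wz s n - cc n * (n : ℝ) ^ (-(s - 1)))) := by
  have h1 : ∑ n ∈ range N, (wz s n - cc n * (n : ℝ) ^ (-(s - 1))) =
      ∑ p ∈ Nat.primesBelow N, Real.log (1 - ch p * (p : ℝ) ^ (-s)) := by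
    unfold Nat.primesBelow
    rw [sum_filter]
    refine sum_congr rfl fun n _ => ?_
    unfold wz cc
    split_ifs with hp
    · have hn0 : (0 : ℝ) < n := by exact_mod_cast hp.pos
      have e : (n : ℝ) ^ (-s) = (n : ℝ)⁻¹ * (n : ℝ) ^ (-(s - 1)) := by
        rw [← Real.rpow_neg_one, ← Real.rpow_add hn0]
        congr 1
        ring
      rw [e]
      ring
    · ring
  rw [h1, Real.exp_sum]
  refine prod_congr rfl fun p hp => ?_
  have hp' := Nat.prime_of_mem_primesBelow hp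
  have := (abs_le.1 (cx_bd hp'.two_le hs)).2
  rw [Real.exp_log (by linarith)]

/-- the sum over the primes -/
noncomputable def cS : ℝ := ∑' n, ww 1 1 n - Real.log (SS 1)

theorem cc_lim : Tendsto (fun N : ℕ => ∑ n ∈ Icc 1 N, cc n) atTop (𝓝 cS) := by
  obtain ⟨h1, h2⟩ := c_ssl 1 (by omega)
  have h3 : Tendsto (fun z : ℕ => Real.log (pp 1 z)) atTop (𝓝 (Real.log (SS 1))) :=
    (Real.continuousAt_log h2.ne').tendsto.comp h1
  have h4 : ∀ z : ℕ, Real.log (pp 1 z) = ∑ n ∈ range (z + 1), ww 1 1 n - ∑ n ∈ range (z + 1), cc n := by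
    intro z
    rw [pp_eq, log_prod le_rfl, Real.log_exp, ← sum_sub_distrib]
    refine sum_congr rfl fun n _ => ?_
    simp
  have h5 : Tendsto (fun z : ℕ => ∑ n ∈ range (z + 1), ww 1 1 n) atTop (𝓝 (∑' n, ww 1 1 n)) :=
    (ww_summable le_rfl le_rfl).hasSum.tendsto_sum_nat.comp (tendsto_add_atTop_nat 1)
  refine (h5.sub h3).congr fun N => ?_
  rw [h4]
  have e : ∑ n ∈ range (N + 1), cc n = ∑ n ∈ Icc 1 N, cc n := by
    rw [sum_range_succ']
    have e0 : cc 0 = 0 := by
      unfold cc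
      rw [if_neg (by decide)]
    rw [e0, add_zero, Finset.range_eq_Ico, Finset.sum_Ico_add' cc 0 N 1]
    refine sum_congr ?_ fun _ _ => rfl
    ext n
    rw [mem_Ico, mem_Icc]
    omega
  rw [e]
  ring

theorem ch_mul (m n : ℕ) : ch (m * n) = ch m * ch n := by
  unfold ch
  push_cast
  rw [map_mul]
  push_cast
  rfl

theorem ch_one : ch 1 = 1 := by
  unfold ch
  rw [Nat.cast_one, map_one]
  norm_num

theorem ch_zero : ch 0 = 0 := by
  unfold ch
  have : ZMod.χ₄ ((0 : ℕ) : ZMod 4) = 0 := by decide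
  rw [this]; simp

/-- the terms of the Dirichlet series -/
noncomputable def Lf (ε : ℝ) : ℕ →*₀ ℝ where
  toFun n := ch n * (n : ℝ) ^ (-(1 + ε))
  map_zero' := by rw [ch_zero, zero_mul]
  map_one' := by rw [ch_one, Nat.cast_one, Real.one_rpow, mul_one]
  map_mul' m n := by
    rw [ch_mul, Nat.cast_mul, Real.mul_rpow (Nat.cast_nonneg m) (Nat.cast_nonneg n)]
    ring

theorem Lf_apply (ε : ℝ) (n : ℕ) : Lf ε n = ch n * (n : ℝ) ^ (-(1 + ε)) := rfl

theorem Lf_summable {ε : ℝ} (hε : 0 < ε) : Summable (fun n => ‖Lf ε n‖) := by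
  have h1 : Summable (fun n : ℕ => (n : ℝ) ^ (-(1 + ε))) := Real.summable_nat_rpow.2 (by linarith)
  refine Summable.of_nonneg_of_le (fun n => norm_nonneg _) (fun n => ?_) h1
  rw [Lf_apply, norm_mul, Real.norm_eq_abs, Real.norm_of_nonneg (by positivity)]
  exact mul_le_of_le_one_left (by positivity) (abs_ch n)

theorem L_euler {ε : ℝ} (hε : 0 < ε) :
    ∑' n : ℕ, Lf ε n = Real.exp (∑' n : ℕ, cc n * (n : ℝ) ^ (-ε) - ∑' n : ℕ, wz (1 + ε) n) := by
  have hs : (1 : ℝ) ≤ 1 + ε := by linarith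
  have h1 := EulerProduct.eulerProduct_completely_multiplicative (Lf_summable hε)
  have hcs : Summable (fun n : ℕ => cc n * (n : ℝ) ^ (-ε)) := by
    refine Summable.of_norm_bounded (cc_summable ε hε) fun n => ?_
    rw [norm_mul, Real.norm_eq_abs, Real.norm_of_nonneg (by positivity)]
  have h2 := (hcs.hasSum.sub (wz_summable hs).hasSum).tendsto_sum_nat
  have h3 := (Real.continuous_exp.tendsto _).comp h2
  refine tendsto_nhds_unique h1 (h3.congr fun N => ?_)
  simp only [Function.comp]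
  have e : (1 + ε - 1) = ε := by ring
  have h4 := L_prod hs N
  rw [e] at h4
  have h5 : ∏ p ∈ Nat.primesBelow N, (1 - Lf ε p)⁻¹ = (∏ p ∈ Nat.primesBelow N, (1 - ch p * (p : ℝ) ^ (-(1 + ε))))⁻¹ := by
    rw [← prod_inv_distrib]
    rfl
  rw [h5, h4, ← Real.exp_neg, ← sum_neg_distrib]
  congr 1
  exact sum_congr rfl fun n _ => by ring

theorem leib (N : ℕ) : ∑ n ∈ Icc 1 N, ch n / n = ∑ i ∈ range ((N + 1) / 2), (-1 : ℝ) ^ i / (2 * i + 1) := by
  induction N with
  | zero => simp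
  | succ N ih =>
    rw [← Finset.insert_Icc_right_eq_Icc_add_one (by omega), sum_insert (by simp), ih]
    rcases Nat.even_or_odd' (N + 1) with ⟨k, hk | hk⟩
    · have h1 : ch (N + 1) = 0 := by
        rw [hk, ch_mul, ch_two, zero_mul]
      have h2 : (N + 1 + 1) / 2 = (N + 1) / 2 := by omega
      rw [h1, h2, zero_div, zero_add]
    · have h1 : ch (N + 1) = (-1) ^ k := by
        unfold ch
        rw [ZMod.χ₄_eq_neg_one_pow (show (N + 1) % 2 = 1 by omega)]
        have : (N + 1) / 2 = k := by omega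
        rw [this]
        push_cast
        rfl
      have h2 : (N + 1 + 1) / 2 = (N + 1) / 2 + 1 := by omega
      have h3 : (N + 1) / 2 = k := by omega
      rw [h2, sum_range_succ, h3, h1]
      have h4 : ((N + 1 : ℕ) : ℝ) = 2 * (k : ℝ) + 1 := by
        rw [hk]
        push_cast
        ring
      rw [h4]
      ring

theorem L_one : Tendsto (fun ε : ℝ => ∑' n : ℕ, Lf ε n) (𝓝[>] 0) (𝓝 (Real.pi / 4)) := by
  have h1 : Tendsto (fun N : ℕ => ∑ n ∈ Icc 1 N, ch n / n) atTop (𝓝 (Real.pi / 4)) := by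
    have h2 : Tendsto (fun N : ℕ => (N + 1) / 2) atTop atTop :=
      (Nat.tendsto_div_const_atTop (by norm_num)).comp (tendsto_add_atTop_nat 1)
    refine (Real.tendsto_sum_pi_div_four.comp h2).congr fun N => ?_
    rw [leib]
    rfl
  have h3 := abel (f := fun n => ch n / n) (by rw [ch_zero, zero_div]) h1 (fun ε hε => by
    have h1 : Summable (fun n : ℕ => (n : ℝ) ^ (-(1 + ε))) := Real.summable_nat_rpow.2 (by linarith)
    refine Summable.of_nonneg_of_le (fun n => by positivity) (fun n => ?_) h1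
    rcases Nat.eq_zero_or_pos n with rfl | hn
    · rw [ch_zero, zero_div, abs_zero, zero_mul]
      positivity
    · have hn0 : (0 : ℝ) < n := by exact_mod_cast hn
      rw [abs_div, abs_of_pos hn0, neg_add, Real.rpow_add hn0, Real.rpow_neg_one]
      calc |ch n| / n * (n : ℝ) ^ (-ε) ≤ 1 / n * (n : ℝ) ^ (-ε) := by
            gcongr
            exact abs_ch n
        _ = _ := by rw [one_div])
  refine h3.congr fun ε => ?_
  congr 1
  funext n
  rw [Lf_apply]
  rcases Nat.eq_zero_or_pos n with rfl | hn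
  · rw [ch_zero]; simp
  · have hn0 : (0 : ℝ) < n := by exact_mod_cast hn
    rw [neg_add, Real.rpow_add hn0, Real.rpow_neg_one]
    ring

/-- **the value** -/
theorem pi_eq : Real.exp (∑' n, wz 1 n - cS) = 4 / Real.pi := by
  have h1 := abel (f := cc) (by unfold cc; rw [if_neg (by decide)]) cc_lim cc_summable
  have h2 := (Real.continuous_exp.tendsto _).comp (h1.sub wz_tendsto)
  have h3 : Tendsto (fun ε : ℝ => ∑' n : ℕ, Lf ε n) (𝓝[>] 0) (𝓝 (Real.exp (cS - ∑' n, wz 1 n))) := by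
    refine h2.congr' ?_
    filter_upwards [self_mem_nhdsWithin] with ε hε
    exact (L_euler hε).symm
  have h4 := tendsto_nhds_unique L_one h3
  have h5 : Real.exp (∑' n, wz 1 n - cS) = (Real.exp (cS - ∑' n, wz 1 n))⁻¹ := by
    rw [← Real.exp_neg]
    congr 1
    ring
  rw [h5, ← h4, inv_div]

/-- the partial products of `1 / L(1, χ)` -/
noncomputable def PL (z : ℕ) : ℝ := ∏ p ∈ (Icc 3 z).filter Nat.Prime, (1 - ch p / p)

/-- the absolutely convergent product -/
noncomputable def PA (z : ℕ) : ℝ := ∏ p ∈ (Icc 3 z).filter Nat.Prime, (1 - aa p)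

theorem PL_eq (z : ℕ) : PL z = ∏ p ∈ Nat.primesBelow (z + 1), (1 - ch p * (p : ℝ) ^ (-(1 : ℝ))) := by
  unfold PL
  have h1 : ∏ p ∈ (Icc 3 z).filter Nat.Prime, (1 - ch p * (p : ℝ) ^ (-(1 : ℝ))) =
      ∏ p ∈ Nat.primesBelow (z + 1), (1 - ch p * (p : ℝ) ^ (-(1 : ℝ))) := by
    apply prod_subset
    · intro p hp
      rw [mem_filter, mem_Icc] at hp
      rw [Nat.mem_primesBelow]
      exact ⟨by omega, hp.2⟩
    · intro p hp hn
      rw [Nat.mem_primesBelow] at hp
      rw [mem_filter, mem_Icc] at hn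
      have : p = 2 := by
        by_contra h
        exact hn ⟨⟨by have := hp.2.two_le; omega, by omega⟩, hp.2⟩
      rw [this, ch_two]
      simp
  rw [← h1]
  refine prod_congr rfl fun p _ => ?_
  rw [Real.rpow_neg_one, div_eq_mul_inv]

theorem PL_lim : Tendsto PL atTop (𝓝 (4 / Real.pi)) := by
  have h1 : Tendsto (fun z : ℕ => ∑ n ∈ range (z + 1), wz 1 n) atTop (𝓝 (∑' n, wz 1 n)) :=
    (wz_summable le_rfl).hasSum.tendsto_sum_nat.comp (tendsto_add_atTop_nat 1)
  have h2 := (Real.continuous_exp.tendsto _).comp (h1.sub cc_lim)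
  rw [pi_eq] at h2
  refine h2.congr fun N => ?_
  simp only [Function.comp]
  rw [PL_eq, L_prod le_rfl]
  congr 1
  have e : ∑ n ∈ Icc 1 N, cc n = ∑ n ∈ range (N + 1), cc n := by
    symm
    rw [sum_range_succ']
    have e0 : cc 0 = 0 := by
      unfold cc
      rw [if_neg (by decide)]
    rw [e0, add_zero, Finset.range_eq_Ico, Finset.sum_Ico_add' cc 0 N 1]
    refine sum_congr ?_ fun _ _ => rfl
    ext n
    rw [mem_Ico, mem_Icc]
    omega
  rw [e, ← sum_sub_distrib]
  refine sum_congr rfl fun n _ => ?_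
  simp

theorem fac_split {p : ℕ} (hp : p.Prime) (h3 : 3 ≤ p) : 1 - ch p / ((p : ℝ) - 1) = (1 - aa p) * (1 - ch p / p) := by
  have h3' : (3 : ℝ) ≤ p := by exact_mod_cast h3
  have hp0 : (p : ℝ) ≠ 0 := by linarith
  have hp1 : (p : ℝ) - 1 ≠ 0 := by linarith
  unfold aa
  rcases ch_odd hp (by omega) with hc | hc <;> rw [hc]
  · field_simp
    ring
  · have e2 : (p : ℝ) - -1 ≠ 0 := by linarith
    field_simp
    ring

theorem pp_split (z : ℕ) : pp 1 z = PA z * PL z := by
  unfold pp PA PL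
  have h1 : (Icc 3 z).filter (fun p : ℕ => p.Prime ∧ ¬ (p : ℤ) ∣ 1) = (Icc 3 z).filter Nat.Prime := by
    apply filter_congr
    intro p hp
    constructor
    · exact fun h => h.1
    · intro h
      refine ⟨h, fun hd => ?_⟩
      have := Int.natAbs_dvd_natAbs.2 hd
      rw [Int.natAbs_natCast, Int.natAbs_one, Nat.dvd_one] at this
      exact h.one_lt.ne' this
  rw [h1, ← prod_mul_distrib]
  refine prod_congr rfl fun p hp => ?_
  rw [mem_filter, mem_Icc] at hp
  exact fac_split hp.2 hp.1.1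

theorem PL_pos (z : ℕ) : 0 < PL z := by
  unfold PL
  apply prod_pos
  intro p hp
  rw [mem_filter, mem_Icc] at hp
  have h3 : (3 : ℝ) ≤ p := by exact_mod_cast hp.1.1
  have h1 := (abs_le.1 (abs_ch p)).2
  have : ch p / p < 1 := by
    rw [div_lt_one (by linarith)]
    linarith
  linarith

theorem PA_lim : Tendsto PA atTop (𝓝 (SS 1 * (Real.pi / 4))) := by
  obtain ⟨h1, h2⟩ := c_ssl 1 (by omega)
  have hpi := Real.pi_pos
  have h3 := h1.div PL_lim (by positivity)
  have e : SS 1 / (4 / Real.pi) = SS 1 * (Real.pi / 4) := by field_simp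
  rw [e] at h3
  refine h3.congr fun z => ?_
  have := PL_pos z
  simp only [Pi.div_apply]
  rw [pp_split]
  field_simp

theorem exp_two {h : ℝ} (h1 : h ≤ 1 / 2) (h0 : 0 ≤ h) : Real.exp h - 1 ≤ 2 * h := by
  have h3 := Real.add_one_le_exp (-h)
  have h4 : Real.exp (-h) * Real.exp h = 1 := by rw [← Real.exp_add]; simp
  have h5 := Real.exp_pos h
  have h6 : (1 - h) * Real.exp h ≤ 1 := by
    calc (1 - h) * Real.exp h ≤ Real.exp (-h) * Real.exp h := mul_le_mul_of_nonneg_right (by linarith) h5.le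
      _ = 1 := h4
  nlinarith

/-- products over the primes beyond `m` -/
theorem prod_tail {m : ℕ} (hm : 1 ≤ m) {S : Finset ℕ} {n : ℕ} (hmn : m ≤ n) (hS : S ⊆ Ioc m n) (hS3 : ∀ p ∈ S, 3 ≤ p) :
    |∏ p ∈ S, (1 - aa p) - 1| ≤ Real.exp (4 * (m : ℝ)⁻¹) - 1 := by
  have h1 := norm_prod_one_add_sub_one_le S (fun p => -aa p)
  simp only [← sub_eq_add_neg, norm_neg, Real.norm_eq_abs] at h1
  refine h1.trans ?_
  apply sub_le_sub_right
  apply Real.exp_le_exp.2
  have h2 : ∑ p ∈ S, |aa p| ≤ ∑ p ∈ Ioc m n, 4 * ((p : ℝ) ^ 2)⁻¹ := by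
    refine (sum_le_sum fun p hp => aa_bd (hS3 p hp)).trans ?_
    exact sum_le_sum_of_subset_of_nonneg hS fun p _ _ => by positivity
  refine h2.trans ?_
  rw [← mul_sum]
  have h3 := sum_Ioc_inv_sq_le_sub (α := ℝ) (k := m) (n := n) (by omega) hmn
  have h4 : (0 : ℝ) ≤ (n : ℝ)⁻¹ := by positivity
  linarith

theorem PA_bd (z : ℕ) : |PA z| ≤ 9 := by
  have h1 : |PA z - 1| ≤ Real.exp (4 * ((2 : ℕ) : ℝ)⁻¹) - 1 := by
    unfold PA
    apply prod_tail (n := max 2 z) (by norm_num) (le_max_left _ _)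
    · intro p hp
      rw [mem_filter, mem_Icc] at hp
      rw [mem_Ioc]
      exact ⟨by omega, hp.1.2.trans (le_max_right _ _)⟩
    · intro p hp
      rw [mem_filter, mem_Icc] at hp
      exact hp.1.1
  have h2 : Real.exp (4 * ((2 : ℕ) : ℝ)⁻¹) ≤ 9 := by
    have e : 4 * ((2 : ℕ) : ℝ)⁻¹ = (2 : ℕ) * 1 := by norm_num
    rw [e, Real.exp_nat_mul]
    have := Real.exp_one_lt_d9
    have h3 := Real.exp_pos 1
    nlinarith
  have h3 := abs_sub_abs_le_abs_sub (PA z) 1
  rw [abs_one] at h3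
  linarith

/-- **the rate of convergence** -/
theorem PA_rate {z : ℕ} (hz : 8 ≤ z) : |SS 1 * (Real.pi / 4) - PA z| ≤ 72 / z := by
  have hz0 : (8 : ℝ) ≤ z := by exact_mod_cast hz
  have h1 : ∀ x : ℕ, z ≤ x → |PA x - PA z| ≤ 72 / z := by
    intro x hx
    have e : PA x = PA z * ∏ p ∈ (Ioc z x).filter Nat.Prime, (1 - aa p) := by
      unfold PA
      rw [← prod_union]
      · refine prod_congr ?_ fun _ _ => rfl
        ext p
        rw [mem_filter, mem_Icc, mem_union, mem_filter, mem_Icc, mem_filter, mem_Ioc]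
        constructor
        · rintro ⟨⟨h2, h3⟩, h4⟩
          by_cases h5 : p ≤ z
          · left; exact ⟨⟨h2, h5⟩, h4⟩
          · right; exact ⟨⟨by omega, h3⟩, h4⟩
        · rintro (⟨⟨h2, h3⟩, h4⟩ | ⟨⟨h2, h3⟩, h4⟩)
          · exact ⟨⟨h2, by omega⟩, h4⟩
          · exact ⟨⟨by omega, h3⟩, h4⟩
      · rw [disjoint_left]
        intro p hp hp'
        rw [mem_filter, mem_Icc] at hp
        rw [mem_filter, mem_Ioc] at hp'
        omega
    have h2 : |∏ p ∈ (Ioc z x).filter Nat.Prime, (1 - aa p) - 1| ≤ Real.exp (4 * (z : ℝ)⁻¹) - 1 :=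
      prod_tail (by omega) hx (filter_subset _ _) fun p hp => by
        rw [mem_filter, mem_Ioc] at hp
        omega
    have h3 : Real.exp (4 * (z : ℝ)⁻¹) - 1 ≤ 2 * (4 * (z : ℝ)⁻¹) := by
      apply exp_two
      · rw [← div_eq_mul_inv, div_le_iff₀ (by linarith)]
        linarith
      · positivity
    have e2 : PA x - PA z = PA z * (∏ p ∈ (Ioc z x).filter Nat.Prime, (1 - aa p) - 1) := by
      rw [e]
      ring
    rw [e2, abs_mul]
    calc |PA z| * |∏ p ∈ (Ioc z x).filter Nat.Prime, (1 - aa p) - 1| ≤ 9 * (2 * (4 * (z : ℝ)⁻¹)) :=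
          mul_le_mul (PA_bd z) (h2.trans h3) (abs_nonneg _) (by norm_num)
      _ = _ := by
          rw [div_eq_mul_inv]
          ring
  have h2 : Tendsto (fun x => |PA x - PA z|) atTop (𝓝 |SS 1 * (Real.pi / 4) - PA z|) :=
    (PA_lim.sub_const _).abs
  refine le_of_tendsto h2 ?_
  filter_upwards [eventually_ge_atTop z] with x hx
  exact h1 x hx

end Pool.Agent.J6H16.E3
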