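import Pool.Agent.J6H16.E3.Cd
import Pool.Agent.J6H16.E2.Pp
import Pool.Agent.J6H16.PR.Lc

/-!
# Project E3 (helper16): the constant
-/

set_option autoImplicit false

namespace Pool.Agent.J6H16.E3

open Finset Filter Topology
open Pool.Agent.N782.GN hiding f1
open Pool.Agent.N855.GN
open Pool.Agent.H304R3.HK (UH bb LamK CS)
open Pool.Agent.J6H16.PF Pool.Agent.J6H16.PR Pool.Agent.J6H16.E2
open Pool.Agent.N866.GN.MT (ch abs_ch ch_two)

/-- the factor of an odd prime -/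
noncomputable def tt (p : ℕ) : ℝ := 1 - ch p / ((p : ℝ) - 1)

theorem tt_pos {p : ℕ} (h3 : 3 ≤ p) : 0 < tt p := by
  unfold tt
  have h3' : (3 : ℝ) ≤ p := by exact_mod_cast h3
  have h1 := (abs_le.1 (abs_ch p)).2
  have : ch p / ((p : ℝ) - 1) < 1 := by
    rw [div_lt_one (by linarith)]
    linarith
  linarith

/-- the inverse of a factor -/
theorem tt_inv {p : ℕ} (hp : p.Prime) (h4 : 4 ≤ p) : ∃ g : ℝ, (tt p)⁻¹ = 1 + g ∧ |g| ≤ 2 / p := by
  have h4' : (4 : ℝ) ≤ p := by exact_mod_cast h4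
  have hp0 : (p : ℝ) ≠ 0 := by linarith
  have hp1 : (p : ℝ) - 1 ≠ 0 := by linarith
  rcases ch_odd hp (by omega) with hc | hc
  · refine ⟨1 / ((p : ℝ) - 2), ?_, ?_⟩
    · unfold tt
      rw [hc]
      have h2 : (p : ℝ) - 2 ≠ 0 := by linarith
      have e : 1 - 1 / ((p : ℝ) - 1) = ((p : ℝ) - 2) / ((p : ℝ) - 1) := by field_simp; ring
      rw [e, inv_div]
      field_simp
      ring
    · rw [abs_of_pos (by apply div_pos one_pos; linarith), div_le_div_iff₀ (by linarith) (by linarith)]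
      linarith
  · refine ⟨-(1 / (p : ℝ)), ?_, ?_⟩
    · unfold tt
      rw [hc]
      have e : 1 - -1 / ((p : ℝ) - 1) = (p : ℝ) / ((p : ℝ) - 1) := by field_simp; ring
      rw [e, inv_div]
      field_simp
      ring
    · rw [abs_neg, abs_of_pos (by positivity)]
      gcongr
      norm_num

theorem tt_inv_le {p : ℕ} (hp : p.Prime) (h3 : 3 ≤ p) : (tt p)⁻¹ ≤ ((1 - 1 / (p : ℝ))⁻¹) ^ 2 := by
  have h3' : (3 : ℝ) ≤ p := by exact_mod_cast h3
  have hp0 : (p : ℝ) ≠ 0 := by linarith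
  have hp1 : (p : ℝ) - 1 ≠ 0 := by linarith
  have e0 : 1 - 1 / (p : ℝ) = ((p : ℝ) - 1) / p := by field_simp
  rw [e0, inv_div]
  rcases ch_odd hp (by omega) with hc | hc
  · unfold tt
    rw [hc]
    have e : 1 - 1 / ((p : ℝ) - 1) = ((p : ℝ) - 2) / ((p : ℝ) - 1) := by field_simp; ring
    rw [e, inv_div, div_pow, div_le_div_iff₀ (by linarith) (by have : 0 < (p : ℝ) - 1 := by linarith
                                                               positivity)]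
    nlinarith
  · unfold tt
    rw [hc]
    have e : 1 - -1 / ((p : ℝ) - 1) = (p : ℝ) / ((p : ℝ) - 1) := by field_simp; ring
    rw [e, inv_div]
    have h1 : ((p : ℝ) - 1) / p ≤ 1 := by
      rw [div_le_one (by linarith)]
      linarith
    have h2 : 1 ≤ (p : ℝ) / ((p : ℝ) - 1) := by
      rw [one_le_div (by linarith)]
      linarith
    exact h1.trans (one_le_pow₀ h2)

/-- the factor of the primes up to `z` which divide `l` -/
noncomputable def FF (z l : ℕ) : ℝ := ∏ p ∈ (Icc 3 z).filter (fun p => p.Prime ∧ p ∣ l), (tt p)⁻¹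

theorem FF_pos (z l : ℕ) : 0 < FF z l := by
  unfold FF
  apply prod_pos
  intro p hp
  rw [mem_filter, mem_Icc] at hp
  exact inv_pos.2 (tt_pos hp.1.1)

theorem FF_le {z l : ℕ} (hl : 1 ≤ l) {x : ℝ} (hx : 3 ≤ x) (hlx : (l : ℝ) ≤ x) : FF z l ≤ 9 * (Real.log x) ^ 2 := by
  classical
  have h1 : FF z l ≤ ∏ p ∈ (Icc 3 z).filter (fun p => p.Prime ∧ p ∣ l), ((1 - 1 / (p : ℝ))⁻¹) ^ 2 := by
    unfold FF
    apply Finset.prod_le_prod
    · intro p hp
      rw [mem_filter, mem_Icc] at hp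
      exact (inv_pos.2 (tt_pos hp.1.1)).le
    · intro p hp
      rw [mem_filter, mem_Icc] at hp
      exact tt_inv_le hp.2.1 hp.1.1
  have hfac : ∀ p ∈ l.primeFactors, 0 < 1 - 1 / (p : ℝ) ∧ 1 ≤ ((1 - 1 / (p : ℝ))⁻¹) ^ 2 := by
    intro p hp
    have h2 : (2 : ℝ) ≤ p := by exact_mod_cast (Nat.prime_of_mem_primeFactors hp).two_le
    have h3 : 1 / (p : ℝ) ≤ 1 / 2 := one_div_le_one_div_of_le (by norm_num) h2
    have h4 : 0 < 1 / (p : ℝ) := by positivity
    refine ⟨by linarith, one_le_pow₀ ?_⟩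
    rw [one_le_inv₀ (by linarith)]
    linarith
  have h2 : ∏ p ∈ (Icc 3 z).filter (fun p => p.Prime ∧ p ∣ l), ((1 - 1 / (p : ℝ))⁻¹) ^ 2 ≤
      ∏ p ∈ l.primeFactors, ((1 - 1 / (p : ℝ))⁻¹) ^ 2 := by
    have hsub : (Icc 3 z).filter (fun p => p.Prime ∧ p ∣ l) ⊆ l.primeFactors := by
      intro p hp
      rw [mem_filter] at hp
      rw [Nat.mem_primeFactors]
      exact ⟨hp.2.1, hp.2.2, by omega⟩
    rw [← prod_sdiff hsub]
    refine le_mul_of_one_le_left (prod_nonneg fun p _ => by positivity) ?_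
    calc (1 : ℝ) = ∏ p ∈ l.primeFactors \ (Icc 3 z).filter (fun p => p.Prime ∧ p ∣ l), 1 := by rw [prod_const_one]
      _ ≤ _ := Finset.prod_le_prod (fun _ _ => zero_le_one) fun p hp => (hfac p (mem_sdiff.1 hp).1).2
  have h3 : ∏ p ∈ l.primeFactors, ((1 - 1 / (p : ℝ))⁻¹) ^ 2 = ((fr l)⁻¹) ^ 2 := by
    rw [prod_pow, prod_inv_distrib]
    rfl
  have h4 := fr_lo hl hx hlx
  have hlx1 : 1 ≤ Real.log x := one_le_log hx
  have h5 : (fr l)⁻¹ ≤ 3 * Real.log x := by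
    have h6 : 0 < 1 / (3 * Real.log x) := by positivity
    have h7 := inv_anti₀ h6 h4
    rwa [one_div, inv_inv] at h7
  have h6 : 0 ≤ (fr l)⁻¹ := by
    apply inv_nonneg.2
    exact prod_nonneg fun p hp => (hfac p hp).1.le
  calc FF z l ≤ ((fr l)⁻¹) ^ 2 := (h1.trans h2).trans (le_of_eq h3)
    _ ≤ (3 * Real.log x) ^ 2 := pow_le_pow_left₀ h6 h5 2
    _ = _ := by ring

theorem Vp_split (z l : ℕ) : Vp z l = Vg z * (PA z * FF z l) := by
  classical
  unfold Vp Vg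
  rw [prod_congr rfl fun p hp => loc_fac (l := l) (mem_filter.1 hp).2, prod_mul_distrib]
  congr 1
  have h1 : ∏ p ∈ (Icc 2 z).filter Nat.Prime, (if p = 2 then (1 : ℝ) else (1 - aa p) * (if p ∣ l then (1 - ch p / ((p : ℝ) - 1))⁻¹ else 1)) =
      ∏ p ∈ (Icc 3 z).filter Nat.Prime, ((1 - aa p) * (if p ∣ l then (1 - ch p / ((p : ℝ) - 1))⁻¹ else 1)) := by
    have h2 : ∏ p ∈ (Icc 3 z).filter Nat.Prime, (if p = 2 then (1 : ℝ) else (1 - aa p) * (if p ∣ l then (1 - ch p / ((p : ℝ) - 1))⁻¹ else 1)) =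
        ∏ p ∈ (Icc 2 z).filter Nat.Prime, (if p = 2 then (1 : ℝ) else (1 - aa p) * (if p ∣ l then (1 - ch p / ((p : ℝ) - 1))⁻¹ else 1)) := by
      apply prod_subset
      · intro p hp
        rw [mem_filter, mem_Icc] at hp ⊢
        exact ⟨⟨by omega, hp.1.2⟩, hp.2⟩
      · intro p hp hp'
        rw [mem_filter, mem_Icc] at hp hp'
        rw [if_pos]
        by_contra h
        exact hp' ⟨⟨by omega, hp.1.2⟩, hp.2⟩
    rw [← h2]
    refine prod_congr rfl fun p hp => ?_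
    rw [mem_filter, mem_Icc] at hp
    rw [if_neg (by omega)]
  rw [h1, prod_mul_distrib]
  congr 1
  have h3 : FF z l = ∏ p ∈ ((Icc 3 z).filter Nat.Prime).filter (fun p => p ∣ l), (tt p)⁻¹ := by
    unfold FF
    rw [filter_filter]
  rw [h3, prod_filter (p := fun p => p ∣ l)]
  rfl

theorem pp_FF (l x : ℕ) : pp l x = pp 1 x * FF x l := by
  classical
  have h1 : pp 1 x = ∏ p ∈ (Icc 3 x).filter Nat.Prime, tt p := by
    unfold pp
    have h1 : (Icc 3 x).filter (fun p : ℕ => p.Prime ∧ ¬ (p : ℤ) ∣ 1) = (Icc 3 x).filter Nat.Prime := by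
      apply filter_congr
      intro p hp
      constructor
      · exact fun h => h.1
      · intro h
        refine ⟨h, fun hd => ?_⟩
        have := Int.natAbs_dvd_natAbs.2 hd
        rw [Int.natAbs_natCast, Int.natAbs_one, Nat.dvd_one] at this
        exact h.one_lt.ne' this
    rw [h1]
    rfl
  have h2 : pp l x = ∏ p ∈ ((Icc 3 x).filter Nat.Prime).filter (fun p => ¬ p ∣ l), tt p := by
    unfold pp
    rw [filter_filter]
    refine prod_congr ?_ fun _ _ => rfl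
    apply filter_congr
    intro p _
    rw [Int.natCast_dvd_natCast]
  have h3 : FF x l = ∏ p ∈ ((Icc 3 x).filter Nat.Prime).filter (fun p => p ∣ l), (tt p)⁻¹ := by
    unfold FF
    rw [filter_filter]
  rw [h1, h2, h3, ← prod_filter_mul_prod_filter_not ((Icc 3 x).filter Nat.Prime) (fun p => p ∣ l) tt, mul_right_comm,
    ← prod_mul_distrib]
  have h4 : ∏ p ∈ ((Icc 3 x).filter Nat.Prime).filter (fun p => p ∣ l), (tt p * (tt p)⁻¹) = 1 := by
    apply prod_eq_one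
    intro p hp
    rw [mem_filter, mem_filter, mem_Icc] at hp
    exact mul_inv_cancel₀ (tt_pos hp.1.1.1).ne'
  rw [h4, one_mul]

theorem FF_split {z x : ℕ} (h : z ≤ x) (l : ℕ) : FF x l = FF z l * ∏ p ∈ (Ioc z x).filter (fun p => (3 ≤ p ∧ p.Prime) ∧ p ∣ l), (tt p)⁻¹ := by
  unfold FF
  rw [← prod_union]
  · refine prod_congr ?_ fun _ _ => rfl
    ext p
    rw [mem_filter, mem_Icc, mem_union, mem_filter, mem_Icc, mem_filter, mem_Ioc]
    constructor
    · rintro ⟨⟨h2, h3⟩, h4⟩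
      by_cases h5 : p ≤ z
      · left; exact ⟨⟨h2, h5⟩, h4⟩
      · right; exact ⟨⟨by omega, h3⟩, ⟨h2, h4.1⟩, h4.2⟩
    · rintro (⟨⟨h2, h3⟩, h4⟩ | ⟨⟨h2, h3⟩, ⟨h4, h5⟩, h6⟩)
      · exact ⟨⟨h2, by omega⟩, h4⟩
      · exact ⟨⟨h4, h3⟩, h5, h6⟩
  · rw [disjoint_left]
    intro p hp hp'
    rw [mem_filter, mem_Icc] at hp
    rw [mem_filter, mem_Ioc] at hp'
    omega

theorem FF_stab {l x : ℕ} (hl : 1 ≤ l) (h : l ≤ x) : FF x l = FF l l := by
  rw [FF_split h l]
  have : (Ioc l x).filter (fun p => (3 ≤ p ∧ p.Prime) ∧ p ∣ l) = ∅ := by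
    rw [eq_empty_iff_forall_notMem]
    intro p hp
    rw [mem_filter, mem_Ioc] at hp
    have := Nat.le_of_dvd hl hp.2.2
    omega
  rw [this, prod_empty, mul_one]

theorem SS_FF {l : ℕ} (hl : 1 ≤ l) : SS l = SS 1 * FF l l := by
  obtain ⟨h1, -⟩ := c_ssl (l : ℤ) (by omega)
  obtain ⟨h2, -⟩ := c_ssl 1 (by omega)
  have h3 := h2.mul_const (FF l l)
  refine tendsto_nhds_unique (h1.congr' ?_) h3
  filter_upwards [eventually_ge_atTop l] with z hz
  rw [pp_FF, FF_stab hl hz]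

/-- **the truncated singular series** -/
theorem SS_near : ∃ C : ℝ, 0 < C ∧ ∀ (z l : ℕ) (x : ℝ), 1 ≤ l → 3 ≤ x → (l : ℝ) ≤ x → 8 * Real.log x ≤ z →
    |SS l - 4 / Real.pi * (PA z * FF z l)| ≤ C * (Real.log x) ^ 3 / z := by
  classical
  have hS1 := (c_ssl 1 (by omega)).2
  refine ⟨72 * SS 1 + 1296, by positivity, ?_⟩
  intro z l x hl hx hlx hz
  have hlx1 : 1 ≤ Real.log x := one_le_log hx
  set ℓ := Real.log x with hℓ
  have hz8 : (8 : ℝ) ≤ z := by linarith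
  have hz8' : 8 ≤ z := by exact_mod_cast hz8
  have hz0 : (0 : ℝ) < z := by linarith
  set Y := max z l with hY
  set Ft := ∏ p ∈ (Ioc z Y).filter (fun p => (3 ≤ p ∧ p.Prime) ∧ p ∣ l), (tt p)⁻¹ with hFt
  have e1 : SS l = SS 1 * (FF z l * Ft) := by
    rw [SS_FF hl, hFt, ← FF_split (le_max_left z l), ← FF_stab hl (le_max_right z l)]
  have hFtb : |Ft - 1| ≤ 8 * ℓ / z := by
    set S := (Ioc z Y).filter (fun p => (3 ≤ p ∧ p.Prime) ∧ p ∣ l) with hS
    have hSm : ∀ p ∈ S, z < p ∧ p.Prime ∧ p ∣ l := by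
      intro p hp
      rw [hS, mem_filter, mem_Ioc] at hp
      exact ⟨hp.1.1, hp.2.1.2, hp.2.2⟩
    have hex : ∀ p : ℕ, ∃ g : ℝ, p ∈ S → (tt p)⁻¹ = 1 + g ∧ |g| ≤ 2 / p := by
      intro p
      by_cases hp : p ∈ S
      · obtain ⟨g, hg⟩ := tt_inv (hSm p hp).2.1 (by have := (hSm p hp).1; omega)
        exact ⟨g, fun _ => hg⟩
      · exact ⟨0, fun h => absurd h hp⟩
    choose g hg using hex
    have e2 : Ft = ∏ p ∈ S, (1 + g p) := prod_congr rfl fun p hp => (hg p hp).1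
    have h1 := norm_prod_one_add_sub_one_le S g
    simp only [Real.norm_eq_abs] at h1
    rw [e2]
    refine h1.trans ?_
    have hcard : ((S.card : ℕ) : ℝ) ≤ 2 * ℓ := by
      have h2 : S ⊆ l.primeFactors := by
        intro p hp
        rw [Nat.mem_primeFactors]
        exact ⟨(hSm p hp).2.1, (hSm p hp).2.2, by omega⟩
      have h3 : (2 : ℕ) ^ l.primeFactors.card ≤ l := by
        calc 2 ^ l.primeFactors.card = ∏ p ∈ l.primeFactors, 2 := by rw [prod_const]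
          _ ≤ ∏ p ∈ l.primeFactors, p := prod_le_prod' fun p hp => (Nat.prime_of_mem_primeFactors hp).two_le
          _ ≤ l := Nat.le_of_dvd hl (Nat.prod_primeFactors_dvd l)
      have h4 : (l.primeFactors.card : ℝ) * Real.log 2 ≤ Real.log x := by
        rw [← Real.log_pow]
        apply Real.log_le_log (by positivity)
        refine le_trans ?_ hlx
        exact_mod_cast h3
      have h5 : ((S.card : ℕ) : ℝ) ≤ l.primeFactors.card := by exact_mod_cast card_le_card h2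
      have h6 := Real.log_two_gt_d9
      have h7 : (0 : ℝ) ≤ l.primeFactors.card := Nat.cast_nonneg _
      nlinarith
    have h2 : ∑ p ∈ S, |g p| ≤ 4 * ℓ / z := by
      calc ∑ p ∈ S, |g p| ≤ ∑ p ∈ S, 2 / (z : ℝ) := by
            refine sum_le_sum fun p hp => (hg p hp).2.trans ?_
            have : (z : ℝ) ≤ p := by exact_mod_cast (hSm p hp).1.le
            exact div_le_div_of_nonneg_left (by norm_num) hz0 this
        _ = ((S.card : ℕ) : ℝ) * (2 / z) := by rw [sum_const, nsmul_eq_mul]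
        _ ≤ (2 * ℓ) * (2 / z) := mul_le_mul_of_nonneg_right hcard (by positivity)
        _ = _ := by ring
    have h3 : 4 * ℓ / z ≤ 1 / 2 := by
      rw [div_le_iff₀ hz0]
      linarith
    calc Real.exp (∑ p ∈ S, |g p|) - 1 ≤ Real.exp (4 * ℓ / z) - 1 := by
          apply sub_le_sub_right
          exact Real.exp_le_exp.2 h2
      _ ≤ 2 * (4 * ℓ / z) := exp_two h3 (by positivity)
      _ = _ := by ring
  have hF := FF_le (z := z) hl hx hlx
  have hF0 := FF_pos z l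
  have hr := PA_rate hz8'
  have hpi := Real.pi_pos
  have hpi3 := Real.pi_gt_three
  have e3 : SS l - 4 / Real.pi * (PA z * FF z l) =
      FF z l * (SS 1 * (Ft - 1) + 4 / Real.pi * (SS 1 * (Real.pi / 4) - PA z)) := by
    rw [e1]
    field_simp
    ring
  rw [e3, abs_mul, abs_of_pos hF0]
  have h4 : |SS 1 * (Ft - 1) + 4 / Real.pi * (SS 1 * (Real.pi / 4) - PA z)| ≤ (8 * SS 1 + 144) * ℓ / z := by
    refine (abs_add_le _ _).trans ?_
    rw [abs_mul, abs_mul, abs_of_pos hS1, abs_of_pos (by positivity : 0 < 4 / Real.pi)]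
    have h5 : 4 / Real.pi ≤ 2 := by
      rw [div_le_iff₀ hpi]
      linarith
    calc SS 1 * |Ft - 1| + 4 / Real.pi * |SS 1 * (Real.pi / 4) - PA z| ≤ SS 1 * (8 * ℓ / z) + 2 * (72 / z) := by
          gcongr
      _ = (8 * SS 1 * ℓ + 144) / z := by ring
      _ ≤ (8 * SS 1 + 144) * ℓ / z := by
          apply div_le_div_of_nonneg_right _ hz0.le
          nlinarith
  calc FF z l * |SS 1 * (Ft - 1) + 4 / Real.pi * (SS 1 * (Real.pi / 4) - PA z)| ≤
        (9 * ℓ ^ 2) * ((8 * SS 1 + 144) * ℓ / z) := mul_le_mul hF h4 (abs_nonneg _) (by positivity)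
    _ = _ := by ring

open Classical in
/-- **the constant** -/
theorem const (z0 A : ℕ) {c : ℝ} (hc : 0 < c) (hc1 : c ≤ 1) : ∃ C : ℝ, 0 < C ∧ ∀ᶠ M : ℝ in atTop, ∀ l : ℕ, 1 ≤ l → (l : ℝ) ≤ M →
    |Sf z0 c M * Real.log M * Vp (zf M) l - SS l| ≤ C / (Real.log M) ^ A := by
  obtain ⟨C1, hC1, h1⟩ := SS_near
  obtain ⟨C2, hC2, h2⟩ := dn_four hc (A + 2)
  set W := W0 z0 with hW
  have hW1 : 1 ≤ W := W0_pos z0
  set G := (lifts 1 W 1).filter (fun r => IsCoprime r ((W : ℕ) : ZI)) with hG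
  set g : ℝ := (G.card : ℝ) with hg
  have hg0 : 0 ≤ g := Nat.cast_nonneg _
  refine ⟨81 * (2 * (1 + g) + C2) + C1, by positivity, ?_⟩
  have hf := reg_f1 hc (A + 3) 1 2
  filter_upwards [hf, h2, eventually_ge_atTop (3 : ℝ), ev_log 1, ev_log W, ev_rp hc 2, ev_qM hc 1, par_c (A + 4), ev_log 8,
    par_c 1, ev_log z0] with M hf h2 hM3 hl1 hlW hM2 hqM hzA hl8 hz1 hlz0
  intro l hl hlM
  have hM0 : 0 < M := by linarith
  have hM1 : 1 ≤ M := by linarith
  set ℓ := Real.log M with hℓ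
  have hℓ0 : 0 < ℓ := by linarith
  set z := zf M with hz
  have hzz : (8 : ℝ) * ℓ ≤ z := by
    refine le_trans ?_ hzA
    calc 8 * ℓ ≤ ℓ * ℓ := mul_le_mul_of_nonneg_right hl8 hℓ0.le
      _ = ℓ ^ 2 := (sq ℓ).symm
      _ ≤ ℓ ^ (A + 4) := pow_le_pow_right₀ hl1 (by omega)
  have hz0 : (0 : ℝ) < z := by linarith
  rw [pow_one] at hz1 hqM
  have hz0z : z0 ≤ z := by
    have : (z0 : ℝ) ≤ z := hlz0.trans hz1
    exact_mod_cast this
  have hX0 : 0 < M ^ c := by positivity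
  have hXX : 2 * M ^ c ≤ M ^ ((2 : ℕ) : ℝ) := by
    calc 2 * M ^ c ≤ M ^ c * M ^ c := by gcongr
      _ = M ^ (c + c) := by rw [← Real.rpow_add hM0]
      _ ≤ M ^ ((2 : ℕ) : ℝ) := Real.rpow_le_rpow_of_exponent_le hM1 (by push_cast; linarith)
  have hd := dens_lift (g := f1 M c (2 : ℕ)) (q0 := 1) (Q := W) hW1 (one_dvd _) hX0 hXX
    (hf 1 le_rfl (by push_cast; rw [pow_one]; exact hl1)) (hf W hW1 (by rw [pow_one]; exact hlW)) (by
      intro t ht _
      have h1 := f1_ne ht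
      exact cop_np h1.1 hW1 (by linarith [h1.2.1, hlW.trans hqM]))
  rw [← hG, ← hg] at hd
  set dW := dn (M ^ (c / 4)) W with hdW
  set d1 := dn (M ^ (c / 4)) 1 with hd1
  have hd2 : |d1 - g * dW| ≤ 2 * (1 + g) / ℓ ^ (A + 2) := by
    have e : d1 / ℓ - g * (dW / ℓ) = (d1 - g * dW) / ℓ := by ring
    rw [e, abs_div, abs_of_pos hℓ0, div_le_iff₀ hℓ0] at hd
    refine hd.trans (le_of_eq ?_)
    rw [show A + 3 = (A + 2) + 1 by ring, pow_succ]
    field_simp
  have hkq := kq_full hz0z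
  rw [← hW, ← hG, ← hg] at hkq
  have hVg : 0 < Vg z := by
    unfold Vg
    exact prod_pos fun p hp => by linarith [gp_lt (mem_filter.1 hp).2]
  have hpi := Real.pi_pos
  have hpi3 := Real.pi_gt_three
  have hgk : 0 < g * kq z z0 W := by
    rw [hkq]
    positivity
  have hk0 : kq z z0 W ≠ 0 := right_ne_zero_of_mul hgk.ne'
  have e1 : Sf z0 c M * ℓ * Vp z l = (g * dW) / Real.pi * (PA z * FF z l) := by
    rw [Vp_split]
    have e2 : Sf z0 c M = dW / ℓ / kq z z0 W := rfl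
    rw [e2]
    have e3 : Vg z = g * kq z z0 W / Real.pi := by
      rw [hkq]
      field_simp
    rw [e3]
    field_simp
  have hF := FF_le (z := z) hl hM3 hlM
  rw [← hℓ] at hF
  have hF0 := FF_pos z l
  have hPF : |PA z * FF z l| ≤ 81 * ℓ ^ 2 := by
    rw [abs_mul, abs_of_pos hF0]
    calc |PA z| * FF z l ≤ 9 * (9 * ℓ ^ 2) := mul_le_mul (PA_bd z) hF hF0.le (by norm_num)
      _ = _ := by ring
  have k1 : |(g * dW - 4) / Real.pi * (PA z * FF z l)| ≤ 81 * (2 * (1 + g) + C2) / ℓ ^ A := by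
    rw [abs_mul, abs_div, abs_of_pos hpi]
    have k2 : |g * dW - 4| ≤ (2 * (1 + g) + C2) / ℓ ^ (A + 2) := by
      have e : g * dW - 4 = -(d1 - g * dW) + (d1 - 4) := by ring
      rw [e]
      refine (abs_add_le _ _).trans ?_
      rw [abs_neg, add_div]
      exact add_le_add hd2 h2
    have k3 : |g * dW - 4| / Real.pi ≤ |g * dW - 4| := div_le_self (abs_nonneg _) (by linarith)
    calc |g * dW - 4| / Real.pi * |PA z * FF z l| ≤ (2 * (1 + g) + C2) / ℓ ^ (A + 2) * (81 * ℓ ^ 2) :=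
          mul_le_mul (k3.trans k2) hPF (abs_nonneg _) (by positivity)
      _ = _ := by
          rw [pow_add]
          field_simp
  have k4 := h1 z l M hl hM3 hlM hzz
  have k5 : C1 * ℓ ^ 3 / z ≤ C1 / ℓ ^ A := by
    rw [div_le_div_iff₀ hz0 (by positivity)]
    calc C1 * ℓ ^ 3 * ℓ ^ A = C1 * ℓ ^ (A + 3) := by ring
      _ ≤ C1 * ℓ ^ (A + 4) := by
          apply mul_le_mul_of_nonneg_left _ hC1.le
          exact pow_le_pow_right₀ hl1 (by omega)
      _ ≤ C1 * z := mul_le_mul_of_nonneg_left hzA hC1.le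
  rw [e1]
  have e4 : g * dW / Real.pi * (PA z * FF z l) - SS l =
      (g * dW - 4) / Real.pi * (PA z * FF z l) - (SS l - 4 / Real.pi * (PA z * FF z l)) := by ring
  rw [e4]
  refine (abs_sub _ _).trans ?_
  rw [add_div]
  exact add_le_add k1 (k4.trans k5)

end Pool.Agent.J6H16.E3
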