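import Pool.Agent.J6H16.E3.Bf
import Pool.Agent.J6H16.E3.Cb
import Pool.Agent.J6H16.E3.Ce

/-!
# Project E3 (helper16): the products of three Gaussian primes in the box, on average over `l`
-/

set_option autoImplicit false

namespace Pool.Agent.J6H16.E3

open Finset Filter Topology
open Pool.Agent.N782.GN hiding f1
open Pool.Agent.N855.GN
open Pool.Agent.H304R3.HK (UH bb LamK CS)
open Pool.Agent.J6H16.PF Pool.Agent.J6H16.PR Pool.Agent.J6H16.E2

theorem cv_lin_left (F H k : ZI → ℝ) (s : ℝ) (w : ZI) : cv (fun t => F t - s * H t) k w = cv F k w - s * cv H k w := by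
  unfold cv cf
  rw [mul_sum, ← sum_sub_distrib]
  refine sum_congr rfl fun p _ => by ring

theorem T3_lin (z0 : ℕ) (c4 M x y u v : ℝ) (l : ℤ) :
    T3 M x y u v (gP z0 c4 M) l = T3 M x y u v (f1 M c4 3) l - Sf z0 c4 M * T3 M x y u v (rg (zf M)) l := by
  unfold T3
  rw [mul_sum, ← sum_sub_distrib]
  refine sum_congr rfl fun m _ => ?_
  have h1 : gP z0 c4 M = fun m => f1 M c4 3 m - Sf z0 c4 M * rg (zf M) m := by
    funext m
    rfl
  have h2 : cv (fw M x y) (gP z0 c4 M) = fun t => cv (fw M x y) (f1 M c4 3) t - Sf z0 c4 M * cv (fw M x y) (rg (zf M)) t := by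
    funext t
    rw [h1, cv_lin]
  rw [h2, cv_lin_left]

/-- **the asymptotic formula over the Gaussian integers** -/
theorem main_e3 (ε : ℝ) (A : ℕ) (hε : 0 < ε) (hε1 : ε ≤ 1) {c3 c4 : ℝ} (hc3 : 0 < c3) (h34 : c3 < c4)
    (hc4 : 6 * c4 ≤ ε) : ∃ C : ℝ, 0 < C ∧ ∀ᶠ M : ℝ in atTop, ∀ (L x y u v : ℝ),
    1 ≤ L → L ≤ M ^ (1 - ε) → M / L * M ^ ε ≤ u → u ≤ v → v ≤ M ^ (1 - ε) → M ^ c3 ≤ x → x ≤ y → y ≤ M ^ c4 →
    ∑ l ∈ Icc 1 ⌊L⌋, |T3 M x y u v (f1 M c4 3) l - 2 * M * SS l * sW M x y * sW M u v / Real.log M| ≤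
      C * (L * M) / (Real.log M) ^ A := by
  obtain ⟨z0, hra⟩ := regall
  obtain ⟨A2, B2, C1, hC1, h1⟩ := sumP ε A hε hε1 hc3 h34 hc4
  obtain ⟨C2, hC2, h2⟩ := const z0 A (c := c4) (by linarith) (by linarith)
  refine ⟨C1 + 6 * 600000 + 2 * 288 * 288 * C2, by positivity, ?_⟩
  filter_upwards [h1 z0, hra A2 B2 c3 c4 hc3 h34 (by linarith), h2, model (ε := ε) A hε hc3 (show 2 * c4 ≤ ε by linarith)
    (by linarith) hε1, eventually_ge_atTop (3 : ℝ), ev_log 1] with M h1 hra h2 h3 hM3 hl1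
  intro L x y u v hL1 hL2 hu huv hv hx hxy hy
  obtain ⟨hra, -⟩ := hra
  have hM0 : 0 < M := by linarith
  have hM1 : 1 ≤ M := by linarith
  have hM1' : 1 < M := by linarith
  set ℓ := Real.log M with hℓ
  have hℓ0 : 0 < ℓ := by linarith
  have hL0 : 0 < L := by linarith
  have hLM : L ≤ M := by
    refine hL2.trans ?_
    calc M ^ (1 - ε) ≤ M ^ (1 : ℝ) := Real.rpow_le_rpow_of_exponent_le hM1 (by linarith)
      _ = M := Real.rpow_one M
  have hc4u : M ^ c4 ≤ u := by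
    refine le_trans ?_ hu
    have a1 : 1 ≤ M / L := by
      rw [le_div_iff₀ hL0, one_mul]
      exact hLM
    calc M ^ c4 ≤ M ^ ε := Real.rpow_le_rpow_of_exponent_le hM1 (by linarith)
      _ = 1 * M ^ ε := (one_mul _).symm
      _ ≤ M / L * M ^ ε := mul_le_mul_of_nonneg_right a1 (by positivity)
  have hS0 := hra.1.S0
  have hS6 := hra.1.S6
  have hx1 : 1 ≤ x := (Real.one_le_rpow hM1 hc3.le).trans hx
  have hyM : y ≤ M := by
    calc y ≤ M ^ c4 := hy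
      _ ≤ M ^ (1 : ℝ) := Real.rpow_le_rpow_of_exponent_le hM1 (by linarith)
      _ = M := Real.rpow_one M
  have hvM : v ≤ M := by
    calc v ≤ M ^ (1 - ε) := hv
      _ ≤ M ^ (1 : ℝ) := Real.rpow_le_rpow_of_exponent_le hM1 (by linarith)
      _ = M := Real.rpow_one M
  have w1 := sW_le (x := x) hM1' (hx1.trans hxy) hyM
  have w2 := sW_le (x := u) hM1' ((hx1.trans hxy).trans (hy.trans (hc4u.trans huv))) hvM
  have w3 := sW_nonneg hM1 x y
  have w4 := sW_nonneg hM1 u v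
  have k1 := h1 hra L x y u v hL1 hL2 hu hv hx hy
  have hpt : ∀ l ∈ Icc 1 ⌊L⌋, |T3 M x y u v (f1 M c4 3) l - 2 * M * SS l * sW M x y * sW M u v / ℓ| ≤
      |T3 M x y u v (gP z0 c4 M) l| + (6 * 600000 + 2 * 288 * 288 * C2) * M / ℓ ^ A := by
    intro l hl
    rw [mem_box] at hl
    obtain ⟨n, rfl⟩ := Int.eq_ofNat_of_zero_le (by omega : 0 ≤ l)
    have hn1 : 1 ≤ n := by omega
    have hnL : (n : ℝ) ≤ L := by exact_mod_cast hl.2
    have hnM : (n : ℝ) ≤ M := hnL.trans hLM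
    have k2 := h3 n x y u v hn1 hnM hx hxy hy hc4u huv hv
    have k3 := h2 n hn1 hnM
    have e0 : ∑ m ∈ Icc ⌈-M⌉ ⌊M⌋, cv (cv (fw M x y) (rg (zf M))) (fw M u v) (⟨(n : ℤ), m⟩ : ZI) =
        T3 M x y u v (rg (zf M)) n := rfl
    rw [e0] at k2
    set V := Vp (zf M) n with hV
    set S := Sf z0 c4 M with hS
    have e1 : T3 M x y u v (f1 M c4 3) n - 2 * M * SS n * sW M x y * sW M u v / ℓ =
        T3 M x y u v (gP z0 c4 M) n + (S * (T3 M x y u v (rg (zf M)) n - 2 * M * V * sW M x y * sW M u v) +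
        2 * M * sW M x y * sW M u v * ((S * ℓ * V - SS n) / ℓ)) := by
      rw [T3_lin z0 c4 M x y u v]
      field_simp
      ring
    rw [e1]
    refine (abs_add_le _ _).trans (add_le_add le_rfl ((abs_add_le _ _).trans ?_))
    have k4 : |S * (T3 M x y u v (rg (zf M)) n - 2 * M * V * sW M x y * sW M u v)| ≤ 6 * (600000 * M / ℓ ^ A) := by
      rw [abs_mul, abs_of_nonneg hS0]
      exact mul_le_mul hS6 k2 (abs_nonneg _) (by norm_num)
    have k5 : |2 * M * sW M x y * sW M u v * ((S * ℓ * V - SS n) / ℓ)| ≤ 2 * 288 * 288 * M * (C2 / ℓ ^ A) := by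
      rw [abs_mul, abs_of_nonneg (by positivity)]
      have k6 : |(S * ℓ * V - SS n) / ℓ| ≤ C2 / ℓ ^ A := by
        rw [abs_div, abs_of_pos hℓ0]
        exact (div_le_self (abs_nonneg _) hl1).trans k3
      have k7 : 2 * M * sW M x y * sW M u v ≤ 2 * 288 * 288 * M := by
        calc 2 * M * sW M x y * sW M u v ≤ 2 * M * 288 * 288 := by gcongr
          _ = _ := by ring
      exact mul_le_mul k7 k6 (abs_nonneg _) (by positivity)
    calc _ ≤ 6 * (600000 * M / ℓ ^ A) + 2 * 288 * 288 * M * (C2 / ℓ ^ A) := add_le_add k4 k5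
      _ = _ := by ring
  refine (sum_le_sum hpt).trans ?_
  rw [sum_add_distrib, sum_const, nsmul_eq_mul]
  have hcard : (((Icc 1 ⌊L⌋).card : ℕ) : ℝ) ≤ L := by
    rw [Int.card_Icc, show ⌊L⌋ + 1 - 1 = ⌊L⌋ by ring]
    have h5 : ((⌊L⌋.toNat : ℕ) : ℤ) = ⌊L⌋ := Int.toNat_of_nonneg (Int.floor_nonneg.2 hL0.le)
    have h6 : ((⌊L⌋.toNat : ℕ) : ℝ) = (⌊L⌋ : ℝ) := by exact_mod_cast h5
    rw [h6]
    exact Int.floor_le _
  calc _ ≤ C1 * (L * M) / ℓ ^ A + L * ((6 * 600000 + 2 * 288 * 288 * C2) * M / ℓ ^ A) := by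
        apply add_le_add k1
        exact mul_le_mul_of_nonneg_right hcard (by positivity)
    _ = _ := by ring

end Pool.Agent.J6H16.E3
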