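import Pool.Agent.J6H16.E3.Cb
import Pool.Agent.N782.GN.All2

/-!
# Project E3 (helper16): from the Gaussian integers to the rational primes
-/

set_option autoImplicit false

namespace Pool.Agent.J6H16.E3

open Finset Filter Topology
open Pool.Agent.N782.GN hiding f1
open Pool.Agent.N855.GN
open Pool.Agent.H304R3.HK (UH bb LamK CS)
open Pool.Agent.J6H16.PF Pool.Agent.J6H16.PR Pool.Agent.J6H16.E2

/-- the units -/
def U4 : Finset (ℤ × ℤ) := {(1, 0), (-1, 0), (0, 1), (0, -1)}

theorem U4_mem {v : ZI} (h : nn v = 1) : (v.re, v.im) ∈ U4 := by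
  have h1 : Zsqrtd.norm v = 1 := by
    have h2 : 0 ≤ Zsqrtd.norm v := GaussianInt.norm_nonneg v
    have h3 : ((nn v : ℕ) : ℤ) = Zsqrtd.norm v := Int.natAbs_of_nonneg h2
    rw [← h3, h]
    rfl
  rw [Zsqrtd.norm_def] at h1
  have ha : v.re ≤ 1 := by nlinarith [sq_nonneg v.im]
  have hb : -1 ≤ v.re := by nlinarith [sq_nonneg v.im]
  have hc : v.im ≤ 1 := by nlinarith [sq_nonneg v.re]
  have hd : -1 ≤ v.im := by nlinarith [sq_nonneg v.re]
  generalize v.re = r at *
  generalize v.im = s at *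
  unfold U4
  interval_cases r <;> interval_cases s <;> simp_all

theorem U4_norm {p : ℤ × ℤ} (h : p ∈ U4) : (⟨p.1, p.2⟩ : ZI) * star (⟨p.1, p.2⟩ : ZI) = 1 := by
  unfold U4 at h
  simp only [mem_insert, mem_singleton] at h
  rcases h with rfl | rfl | rfl | rfl <;> rfl

theorem U4_nn {p : ℤ × ℤ} (h : p ∈ U4) : nn (⟨p.1, p.2⟩ : ZI) = 1 := by
  unfold U4 at h
  simp only [mem_insert, mem_singleton] at h
  rcases h with rfl | rfl | rfl | rfl <;> rfl

theorem nn_star (z : ZI) : nn (star z) = nn z := by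
  unfold nn
  rw [Zsqrtd.norm_conj]

theorem nn_cast (z : ZI) : ((nn z : ℕ) : ZI) = z * star z := by
  rw [← Zsqrtd.norm_eq_mul_conj]
  have h10 : 0 ≤ Zsqrtd.norm z := GaussianInt.norm_nonneg z
  have h11 : ((nn z : ℕ) : ℤ) = Zsqrtd.norm z := Int.natAbs_of_nonneg h10
  rw [← h11]
  push_cast
  rfl

/-- a factor of prime norm -/
theorem ex_factor {z : ZI} {p q : ℕ} (hp : p.Prime) (hpq : ¬ p ∣ q) (h : nn z = p * q) :
    ∃ a b : ZI, a * b = z ∧ nn a = p := by
  haveI := Fact.mk hp
  have hpz : ((p : ℕ) : ZI) ∣ z * star z := by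
    rw [← nn_cast, h]
    push_cast
    exact dvd_mul_right _ _
  have hnot : ¬ ((p : ℕ) : ZI) ∣ z := by
    rintro ⟨w, hw⟩
    have h1 : nn z = p * p * nn w := by
      rw [hw, nn_mul, nn_nat]
    rw [h, mul_assoc] at h1
    have h2 : q = p * nn w := Nat.eq_of_mul_eq_mul_left hp.pos h1
    exact hpq ⟨_, h2⟩
  have hirr : ¬ Irreducible ((p : ℕ) : ZI) := by
    intro hirr
    rcases hirr.prime.dvd_or_dvd hpz with h1 | h1
    · exact hnot h1
    · apply hnot
      obtain ⟨w, hw⟩ := h1
      refine ⟨star w, ?_⟩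
      rw [← star_star z, hw, star_mul, mul_comm, star_natCast]
  obtain ⟨a, b, hab⟩ := GaussianInt.sq_add_sq_of_nat_prime_of_not_irreducible p hirr
  set π : ZI := ⟨a, b⟩ with hπ
  have hnπ : nn π = p := by
    unfold nn
    rw [Zsqrtd.norm_def, hπ]
    have : a * a - -1 * b * b = ((a ^ 2 + b ^ 2 : ℕ) : ℤ) := by
      push_cast
      ring
    simp only
    rw [this, hab]
    rfl
  have hπp : Prime π := np_prime (show (nn π).Prime by rw [hnπ]; exact hp)
  have hπd : π ∣ z * star z := (Dvd.intro _ (by rw [← nn_cast, hnπ])).trans hpz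
  rcases hπp.dvd_or_dvd hπd with ⟨w, hw⟩ | ⟨w, hw⟩
  · exact ⟨π, w, hw.symm, hnπ⟩
  · refine ⟨star π, star w, ?_, by rw [nn_star, hnπ]⟩
    rw [← star_star z, hw, star_mul, mul_comm]

/-- the pairs of factors with a prime norm -/
theorem four_pairs {z : ZI} {p q : ℕ} (hz : z ≠ 0) (hp : p.Prime) (hpq : ¬ p ∣ q) (h : nn z = p * q) :
    (((bl (nz z) ×ˢ bl (nz z)).filter (fun c : ZI × ZI => c.1 * c.2 = z)).filter (fun c => nn c.1 = p)).card = 4 := by
  classical
  obtain ⟨a, b, hab, ha⟩ := ex_factor hp hpq h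
  have ha0 : a ≠ 0 := by
    rintro rfl
    rw [zero_mul] at hab
    exact hz hab.symm
  have hnb : nn b = q := by
    have h1 : nn z = nn a * nn b := by rw [← hab, nn_mul]
    rw [h, ha] at h1
    exact (Nat.eq_of_mul_eq_mul_left hp.pos h1).symm
  have key : ((bl (nz z) ×ˢ bl (nz z)).filter (fun c : ZI × ZI => c.1 * c.2 = z)).filter (fun c => nn c.1 = p) =
      U4.image (fun u => ((⟨u.1, u.2⟩ : ZI) * a, star (⟨u.1, u.2⟩ : ZI) * b)) := by
    ext ⟨c, d⟩
    rw [mem_filter, mem_filter, mem_product, mem_image]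
    constructor
    · rintro ⟨⟨⟨h1, h2⟩, h3⟩, h4⟩
      simp only at h1 h2 h3 h4
      have hcp : Prime c := np_prime (show (nn c).Prime by rw [h4]; exact hp)
      have hcd : c ∣ a * b := by rw [hab, ← h3]; exact dvd_mul_right _ _
      have hca : c ∣ a := by
        rcases hcp.dvd_or_dvd hcd with h5 | h5
        · exact h5
        · exfalso
          obtain ⟨e, he⟩ := h5
          have h6 : nn b = nn c * nn e := by rw [he, nn_mul]
          rw [hnb, h4] at h6
          exact hpq ⟨_, h6⟩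
      obtain ⟨v, hv⟩ := hca
      have hnv : nn v = 1 := by
        have h6 : nn a = nn c * nn v := by rw [hv, nn_mul]
        rw [ha, h4] at h6
        have h8 : p * 1 = p * nn v := by rw [mul_one]; exact h6
        exact (Nat.eq_of_mul_eq_mul_left hp.pos h8).symm
      have hu := U4_mem (v := star v) (by rw [nn_star, hnv])
      have hve : (⟨(star v).re, (star v).im⟩ : ZI) = star v := rfl
      have hvv : v * star v = 1 := by
        rw [← nn_cast, hnv]
        simp
      refine ⟨((star v).re, (star v).im), hu, ?_⟩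
      simp only [hve, star_star]
      have hc : star v * a = c := by
        rw [hv]
        linear_combination c * hvv
      have hc0 : c ≠ 0 := hcp.ne_zero
      have hd : v * b = d := by
        apply mul_left_cancel₀ hc0
        rw [h3, ← hab, hv]
        ring
      rw [hc, hd]
    · rintro ⟨u, hu, hue⟩
      have h1 := U4_norm hu
      have h2 := U4_nn hu
      set w : ZI := ⟨u.1, u.2⟩ with hw
      simp only [Prod.mk.injEq] at hue
      obtain ⟨rfl, rfl⟩ := hue
      have h3 : w * a * (star w * b) = z := by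
        rw [← hab]
        linear_combination a * b * h1
      have hne : w * a ≠ 0 := by
        intro h0
        rw [h0, zero_mul] at h3
        exact hz h3.symm
      have hne2 : star w * b ≠ 0 := by
        intro h0
        rw [h0, mul_zero] at h3
        exact hz h3.symm
      have h4 : nz (w * a) * nz (star w * b) = nz z := by rw [← Pool.Agent.N855.GN.nz_mul, h3]
      have h5 := nz_one_le hne
      have h6 := nz_one_le hne2
      refine ⟨⟨⟨(mem_bl _ _).2 ⟨hne, by nlinarith⟩, (mem_bl _ _).2 ⟨hne2, by nlinarith⟩⟩, h3⟩, ?_⟩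
      simp only
      rw [nn_mul, h2, one_mul, ha]
  rw [key, card_image_of_injective]
  · rfl
  · intro u u' huu
    simp only [Prod.mk.injEq] at huu
    have h1 := mul_right_cancel₀ ha0 huu.1
    rw [Zsqrtd.mk.injEq] at h1
    exact Prod.ext h1.1 h1.2


/-- the prime factor in a window -/
theorem cv_first {M x y : ℝ} {z : ZI} (hz : z ≠ 0) (G : ZI → ℝ) (H : ℕ → ℝ)
    (hG : ∀ a b : ZI, a * b = z → (nn a).Prime → x < nz a → nz a ≤ y → G b = H (nn b))
    (hH : ∀ p : ℕ, p.Prime → p ∣ nn z → x < (p : ℝ) → (p : ℝ) ≤ y → p ∣ nn z / p → H (nn z / p) = 0) :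
    cv (fw M x y) G z = 4 / Real.log M * ∑ p ∈ (nn z).primeFactors.filter (fun p : ℕ => x < (p : ℝ) ∧ (p : ℝ) ≤ y),
      Real.log p * H (nn z / p) := by
  classical
  have hn0 : nn z ≠ 0 := nn_ne_zero hz
  set n := nn z with hn
  set P := (bl (nz z) ×ˢ bl (nz z)).filter (fun c : ZI × ZI => c.1 * c.2 = z) with hP
  set F := n.primeFactors.filter (fun p : ℕ => x < (p : ℝ) ∧ (p : ℝ) ≤ y) with hF
  have hPm : ∀ c ∈ P, nn c.1 * nn c.2 = n := by
    intro c hc
    rw [hP, mem_filter] at hc
    rw [← nn_mul, hc.2]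
  have e1 : cv (fw M x y) G z = ∑ c ∈ P.filter (fun c => nn c.1 ∈ F), fw M x y c.1 * G c.2 := by
    unfold cv cf
    rw [← hP]
    symm
    apply sum_subset (filter_subset _ _)
    intro c hc hc'
    by_contra hne
    apply hc'
    rw [mem_filter]
    refine ⟨hc, ?_⟩
    have h1 := fw_ne (left_ne_zero_of_mul hne)
    have h3 : (nn c.1).Prime := h1.1
    have h5 := hPm c hc
    rw [hF, mem_filter, Nat.mem_primeFactors]
    refine ⟨⟨h3, ⟨_, h5.symm⟩, hn0⟩, ?_, ?_⟩
    · rw [← nz_nn]; exact h1.2.1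
    · rw [← nz_nn]; exact h1.2.2
  rw [e1]
  have e2 : ∑ c ∈ P.filter (fun c => nn c.1 ∈ F), fw M x y c.1 * G c.2 =
      ∑ p ∈ F, ∑ c ∈ (P.filter (fun c => nn c.1 ∈ F)).filter (fun c => nn c.1 = p), fw M x y c.1 * G c.2 := by
    rw [sum_fiberwise_of_maps_to]
    intro c hc
    exact (mem_filter.1 hc).2
  rw [e2, mul_sum]
  refine sum_congr rfl fun p hp => ?_
  have hpF : p ∈ F := hp
  rw [mem_filter, Nat.mem_primeFactors] at hp
  obtain ⟨⟨hpp, hpn, -⟩, hxp, hpy⟩ := hp
  have hnpq : n = p * (n / p) := (Nat.mul_div_cancel' hpn).symm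
  have e3 : (P.filter (fun c => nn c.1 ∈ F)).filter (fun c => nn c.1 = p) = P.filter (fun c => nn c.1 = p) := by
    rw [filter_filter]
    apply filter_congr
    intro c _
    constructor
    · exact fun h => h.2
    · exact fun h => ⟨by rw [h]; exact hpF, h⟩
  rw [e3]
  have e4 : ∀ c ∈ P.filter (fun c => nn c.1 = p), fw M x y c.1 * G c.2 =
      Real.log p / Real.log M * H (n / p) := by
    intro c hc
    rw [mem_filter] at hc
    have h1 := hPm c hc.1
    have h2 : nn c.2 = n / p := by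
      rw [← h1, hc.2, Nat.mul_div_cancel_left _ hpp.pos]
    have h3 : np c.1 := by
      show (nn c.1).Prime
      rw [hc.2]; exact hpp
    have h5 : nz c.1 = p := by rw [nz_nn, hc.2]
    have hcz : c.1 * c.2 = z := by
      have := hc.1
      rw [hP, mem_filter] at this
      exact this.2
    rw [hG c.1 c.2 hcz h3 (by rw [h5]; exact hxp) (by rw [h5]; exact hpy), h2]
    unfold fw Lp
    rw [if_pos h3, h5, if_pos ⟨hxp, hpy⟩]
  rw [sum_congr rfl e4, sum_const, nsmul_eq_mul]
  by_cases hd : p ∣ n / p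
  · rw [hH p hpp hpn hxp hpy hd]
    ring
  · have e5 : (P.filter (fun c => nn c.1 = p)).card = 4 := four_pairs hz hpp hd hnpq
    rw [e5]
    push_cast
    ring

open Classical in
/-- the weighted number of the representations `n = p q`, `x < p ≤ y` -/
noncomputable def w2 (x y : ℝ) (n : ℕ) : ℝ :=
  ∑ p ∈ n.primeFactors.filter (fun p => (n / p).Prime ∧ x < (p : ℝ) ∧ (p : ℝ) ≤ y),
    Real.log p * Real.log ((n / p : ℕ) : ℝ)

/-- the weighted number of the representations `n = p₁ p₂ p₃`, `x < p₁ ≤ y`, `u < p₂ ≤ v` -/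
noncomputable def w3 (x y u v : ℝ) (n : ℕ) : ℝ :=
  ∑ p ∈ n.primeFactors.filter (fun p : ℕ => x < (p : ℝ) ∧ (p : ℝ) ≤ y), Real.log p * w2 u v (n / p)

theorem w2_nonneg (x y : ℝ) (n : ℕ) : 0 ≤ w2 x y n := by
  unfold w2
  exact sum_nonneg fun p _ => mul_nonneg (Real.log_natCast_nonneg _) (Real.log_natCast_nonneg _)

theorem w3_nonneg (x y u v : ℝ) (n : ℕ) : 0 ≤ w3 x y u v n := by
  unfold w3
  exact sum_nonneg fun p _ => mul_nonneg (Real.log_natCast_nonneg _) (w2_nonneg _ _ _)

/-- two factors -/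
theorem cv_w2 {M u v Q1 Q2 : ℝ} {z : ZI} (hz : z ≠ 0) (hv : v ^ 2 < nz z) (hQ1 : Q1 * v < nz z) (hQ2 : nz z ≤ Q2) (hQ0 : 0 ≤ Q1)
    (r : ZI → ℝ) (hr : ∀ q : ZI, Q1 < nz q → nz q ≤ Q2 → r q = Lp q / Real.log M) :
    cv (fw M u v) r z = 4 / (Real.log M) ^ 2 * w2 u v (nn z) := by
  classical
  have hn0 : nn z ≠ 0 := nn_ne_zero hz
  set H : ℕ → ℝ := fun k => (if k.Prime then Real.log k else 0) / Real.log M with hH
  rw [cv_first (M := M) hz r H]
  · have e1 : ∑ p ∈ (nn z).primeFactors.filter (fun p : ℕ => u < (p : ℝ) ∧ (p : ℝ) ≤ v), Real.log p * H (nn z / p) =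
        1 / Real.log M * w2 u v (nn z) := by
      unfold w2
      rw [sum_filter, sum_filter, mul_sum]
      refine sum_congr rfl fun p _ => ?_
      simp only [hH]
      by_cases h1 : (nn z / p).Prime <;> by_cases h2 : u < (p : ℝ) <;> by_cases h3 : (p : ℝ) ≤ v <;>
        simp [h1, h2, h3] <;> ring
    rw [e1]
    ring
  · intro a b hab hpa hua hav
    have ha0 : a ≠ 0 := by
      rintro rfl
      rw [zero_mul] at hab
      exact hz hab.symm
    have hb0 : b ≠ 0 := by
      rintro rfl
      rw [mul_zero] at hab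
      exact hz hab.symm
    have h1 : nz z = nz a * nz b := by rw [← hab, Pool.Agent.N855.GN.nz_mul]
    have h2 := nz_one_le ha0
    have h4 := nz_pos hb0
    have h3 : Q1 < nz b := by
      by_contra hc
      push Not at hc
      have : nz a * nz b ≤ v * Q1 := mul_le_mul hav hc h4.le (by linarith)
      linarith
    have h5 : nz b ≤ Q2 := by nlinarith
    rw [hr b h3 h5]
    simp only [hH]
    congr 1
    unfold Lp
    rw [nz_nn]
    by_cases hb : (nn b).Prime
    · rw [if_pos hb, if_pos (show np b from hb)]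
    · rw [if_neg hb, if_neg (show ¬ np b from hb)]
  · intro p hp hpn hup hpv hd
    simp only [hH]
    rw [if_neg, zero_div]
    intro hq
    have h1 := (Nat.prime_dvd_prime_iff_eq hp hq).1 hd
    have h2 : nn z = p * p := by
      have := (Nat.mul_div_cancel' hpn).symm
      rwa [← h1] at this
    have h3 : nz z = (p : ℝ) * p := by
      rw [nz_nn, h2]
      push_cast
      ring
    have h4 : (0 : ℝ) ≤ p := Nat.cast_nonneg p
    nlinarith

/-- three factors -/
theorem cv_w3 {M x y u v Q1 Q2 : ℝ} {z : ZI} (hz : z ≠ 0) (hv : v ^ 2 * y < nz z) (hQ1 : Q1 * v * y < nz z) (hQ2 : nz z ≤ Q2)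
    (hQ0 : 0 ≤ Q1) (hyu : y ≤ u) (hv0 : 0 ≤ v)
    (r : ZI → ℝ) (hr : ∀ q : ZI, Q1 < nz q → nz q ≤ Q2 → r q = Lp q / Real.log M) :
    cv (fw M x y) (cv (fw M u v) r) z = 16 / (Real.log M) ^ 3 * w3 x y u v (nn z) := by
  classical
  have hn0 : nn z ≠ 0 := nn_ne_zero hz
  rw [cv_first (M := M) hz (cv (fw M u v) r) (fun k => 4 / (Real.log M) ^ 2 * w2 u v k)]
  · unfold w3
    rw [mul_sum, mul_sum]
    refine sum_congr rfl fun p _ => ?_
    ring
  · intro a b hab hpa hua hay
    have ha0 : a ≠ 0 := by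
      rintro rfl
      rw [zero_mul] at hab
      exact hz hab.symm
    have hb0 : b ≠ 0 := by
      rintro rfl
      rw [mul_zero] at hab
      exact hz hab.symm
    have h1 : nz z = nz a * nz b := by rw [← hab, Pool.Agent.N855.GN.nz_mul]
    have h2 := nz_one_le ha0
    have h4 := nz_pos hb0
    have h6 : nz z ≤ y * nz b := by
      rw [h1]
      exact mul_le_mul_of_nonneg_right hay h4.le
    have hy0 : 0 < y := by linarith
    refine cv_w2 hb0 ?_ ?_ ?_ hQ0 r hr
    · have : v ^ 2 * y < nz b * y := by linarith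
      exact lt_of_mul_lt_mul_right this hy0.le
    · have : Q1 * v * y < nz b * y := by linarith
      exact lt_of_mul_lt_mul_right this hy0.le
    · nlinarith
  · intro p hp hpn hxp hpy hd
    have hw : w2 u v (nn z / p) = 0 := by
      unfold w2
      rw [filter_false_of_mem, sum_empty]
      rintro q hq ⟨hs, huq, hqv⟩
      rw [Nat.mem_primeFactors] at hq
      obtain ⟨hqp, hqd, -⟩ := hq
      have h1 : nn z / p = q * (nn z / p / q) := (Nat.mul_div_cancel' hqd).symm
      have h2 : nn z = p * (nn z / p) := (Nat.mul_div_cancel' hpn).symm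
      rw [h1] at hd
      rcases (Nat.Prime.dvd_mul hp).1 hd with h | h
      · have h3 := (Nat.prime_dvd_prime_iff_eq hp hqp).1 h
        rw [h3] at hpy
        linarith
      · have h3 := (Nat.prime_dvd_prime_iff_eq hp hs).1 h
        have h4 : nn z = p * (q * p) := by
          rw [h2]
          congr 1
          rw [h1]
          congr 1
          exact h3.symm
        have h5 : nz z = (p : ℝ) * (q * p) := by
          rw [nz_nn, h4]
          push_cast
          ring
        have h6 : (0 : ℝ) ≤ p := Nat.cast_nonneg p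
        have h7 : (0 : ℝ) ≤ q := Nat.cast_nonneg q
        have hyv : y ≤ v := by linarith
        have h8 : (p : ℝ) * (q * p) ≤ y * (v * v) := by
          apply mul_le_mul hpy _ (by positivity) (by linarith)
          exact mul_le_mul hqv (hpy.trans hyv) h6 hv0
        nlinarith
    rw [hw, mul_zero]

/-- the convolution of three functions -/
theorem cv_assoc (f r g : ZI → ℝ) {z : ZI} (hz : z ≠ 0) : cv (cv f r) g z = cv f (cv g r) z := by
  classical
  set X := nz z with hX
  have hX1 : 1 ≤ X := nz_one_le hz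
  set H : ZI → ℝ := fun t => if t = z then 1 else 0 with hH
  have hHz : ∀ t : ZI, t ∉ bl X → H t = 0 := by
    intro t ht
    simp only [hH]
    rw [if_neg]
    rintro rfl
    exact ht ((mem_bl _ _).2 ⟨hz, le_rfl⟩)
  have hHw : ∀ w ∈ bl X, ∀ t : ZI, t ∉ bl X → H (t * w) = 0 := by
    intro w hw t ht
    simp only [hH]
    rw [if_neg]
    intro h
    apply ht
    rw [mem_bl] at hw ⊢
    have ht0 : t ≠ 0 := by
      rintro rfl
      rw [zero_mul] at h
      exact hz h.symm
    refine ⟨ht0, ?_⟩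
    have h1 : X = nz t * nz w := by rw [hX, ← h, Pool.Agent.N855.GN.nz_mul]
    have h2 := nz_one_le hw.1
    have h3 := nz_nonneg t
    nlinarith
  have one : ∀ F : ZI → ℝ, F z = ∑ t ∈ bl X, F t * H t := by
    intro F
    rw [sum_eq_single_of_mem z ((mem_bl _ _).2 ⟨hz, le_rfl⟩)]
    · have : H z = 1 := if_pos rfl
      rw [this, mul_one]
    · intro t _ ht
      simp only [hH]
      rw [if_neg ht, mul_zero]
  have e1 : cv (cv f r) g z = ∑ w ∈ bl X, ∑ a ∈ bl X, ∑ q ∈ bl X, f a * g w * r q * H (a * w * q) := by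
    rw [one (cv (cv f r) g), cv_sum (cv f r) g H hX1 hHz, sum_comm]
    refine sum_congr rfl fun w hw => ?_
    have e1 : ∑ t ∈ bl X, cv f r t * g w * H (t * w) = g w * ∑ t ∈ bl X, cv f r t * H (t * w) := by
      rw [mul_sum]
      exact sum_congr rfl fun t _ => by ring
    rw [e1, cv_sum f r (fun t => H (t * w)) hX1 (hHw w hw), mul_sum]
    refine sum_congr rfl fun a _ => ?_
    rw [mul_sum]
    refine sum_congr rfl fun q _ => ?_
    rw [show a * q * w = a * w * q by ring]
    ring
  have e2 : cv f (cv g r) z = ∑ a ∈ bl X, ∑ w ∈ bl X, ∑ q ∈ bl X, f a * g w * r q * H (a * w * q) := by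
    rw [one (cv f (cv g r)), cv_sum f (cv g r) H hX1 hHz]
    refine sum_congr rfl fun a ha => ?_
    have e1 : ∑ t ∈ bl X, f a * cv g r t * H (a * t) = f a * ∑ t ∈ bl X, cv g r t * H (t * a) := by
      rw [mul_sum]
      exact sum_congr rfl fun t _ => by rw [mul_comm a t]; ring
    rw [e1, cv_sum g r (fun t => H (t * a)) hX1 (hHw a ha), mul_sum]
    refine sum_congr rfl fun w _ => ?_
    rw [mul_sum]
    refine sum_congr rfl fun q _ => ?_
    rw [show w * q * a = a * w * q by ring]
    ring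
  rw [e1, e2, sum_comm]

/-- the sum of `log p` over the prime divisors -/
theorem sum_log_pf {n : ℕ} (hn : n ≠ 0) : ∑ p ∈ n.primeFactors, Real.log p ≤ Real.log n := by
  have h1 : ∏ p ∈ n.primeFactors, p ≤ n := Nat.le_of_dvd (Nat.pos_of_ne_zero hn) (Nat.prod_primeFactors_dvd n)
  have h2 : ∑ p ∈ n.primeFactors, Real.log p = Real.log ((∏ p ∈ n.primeFactors, p : ℕ) : ℝ) := by
    push_cast
    rw [Real.log_prod]
    intro p hp
    exact_mod_cast (Nat.prime_of_mem_primeFactors hp).ne_zero
  rw [h2]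
  apply Real.log_le_log
  · have h3 : ∏ p ∈ n.primeFactors, p ≠ 0 :=
      prod_ne_zero_iff.2 fun p hp => (Nat.prime_of_mem_primeFactors hp).ne_zero
    exact_mod_cast Nat.pos_of_ne_zero h3
  · exact_mod_cast h1

theorem w2_le {u v : ℝ} {n : ℕ} (hn : n ≠ 0) : w2 u v n ≤ (Real.log n) ^ 2 := by
  classical
  have hln : 0 ≤ Real.log n := Real.log_natCast_nonneg n
  unfold w2
  calc _ ≤ ∑ p ∈ n.primeFactors, Real.log p * Real.log n := by
        refine (sum_le_sum_of_subset_of_nonneg (filter_subset _ _) fun p _ _ =>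
          mul_nonneg (Real.log_natCast_nonneg _) (Real.log_natCast_nonneg _)).trans (sum_le_sum fun p hp => ?_)
        apply mul_le_mul_of_nonneg_left _ (Real.log_natCast_nonneg _)
        rcases Nat.eq_zero_or_pos (n / p) with h | h
        · rw [h]
          simpa using hln
        · apply Real.log_le_log (by exact_mod_cast h)
          exact_mod_cast Nat.div_le_self n p
    _ = (∑ p ∈ n.primeFactors, Real.log p) * Real.log n := by rw [sum_mul]
    _ ≤ Real.log n * Real.log n := mul_le_mul_of_nonneg_right (sum_log_pf hn) hln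
    _ = _ := (sq _).symm

theorem w3_le {x y u v : ℝ} {n : ℕ} (hn : n ≠ 0) : w3 x y u v n ≤ (Real.log n) ^ 3 := by
  classical
  have hln : 0 ≤ Real.log n := Real.log_natCast_nonneg n
  unfold w3
  calc _ ≤ ∑ p ∈ n.primeFactors, Real.log p * (Real.log n) ^ 2 := by
        refine (sum_le_sum_of_subset_of_nonneg (filter_subset _ _) fun p _ _ =>
          mul_nonneg (Real.log_natCast_nonneg _) (w2_nonneg _ _ _)).trans (sum_le_sum fun p hp => ?_)
        apply mul_le_mul_of_nonneg_left _ (Real.log_natCast_nonneg _)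
        have hp' := Nat.mem_primeFactors.1 hp
        have h0 : n / p ≠ 0 := by
          have := Nat.div_pos (Nat.le_of_dvd (Nat.pos_of_ne_zero hn) hp'.2.1) hp'.1.pos
          omega
        refine (w2_le h0).trans ?_
        apply pow_le_pow_left₀ (Real.log_natCast_nonneg _)
        apply Real.log_le_log (by exact_mod_cast Nat.pos_of_ne_zero h0)
        exact_mod_cast Nat.div_le_self n p
    _ = (∑ p ∈ n.primeFactors, Real.log p) * (Real.log n) ^ 2 := by rw [sum_mul]
    _ ≤ Real.log n * (Real.log n) ^ 2 := mul_le_mul_of_nonneg_right (sum_log_pf hn) (by positivity)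
    _ = _ := by ring

end Pool.Agent.J6H16.E3
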