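import Pool.Agent.J6H16.E3.Cf
import Pool.Agent.J6H16.E3.Cg

/-!
# Project E3 (helper16): the formula for the rational primes, on average over `l`
-/

set_option autoImplicit false

namespace Pool.Agent.J6H16.E3

open Finset Filter Topology
open Pool.Agent.N782.GN hiding f1
open Pool.Agent.N855.GN
open Pool.Agent.H304R3.HK (UH bb LamK CS)
open Pool.Agent.J6H16.PF Pool.Agent.J6H16.PR Pool.Agent.J6H16.E2

/-- the weighted number of the representations `l² + m² = p₁ p₂ p₃`, `1 ≤ m ≤ M` -/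
noncomputable def Wt (l : ℤ) (M x y u v : ℝ) : ℝ := ∑ m ∈ Icc 1 ⌊M⌋, w3 x y u v (l ^ 2 + m ^ 2).natAbs

theorem nn_abs (l m : ℤ) : nn (⟨l, m⟩ : ZI) = (l ^ 2 + m ^ 2).natAbs := by
  rw [← Pool.Agent.J6H16.PR.nn_mk, Int.natAbs_natCast]

theorem cv3_le {M x y u v c c' : ℝ} (hM : 1 < M) {z : ZI} (hz : z ≠ 0) (hz3 : nz z ≤ M ^ 3) :
    0 ≤ cv (cv (fw M x y) (f1 M c c')) (fw M u v) z ∧ cv (cv (fw M x y) (f1 M c c')) (fw M u v) z ≤ 1728 := by
  have h1 : ∀ a, 0 ≤ fw M x y a := fw_nonneg hM.le _ _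
  have h2 : ∀ a, 0 ≤ fw M u v a := fw_nonneg hM.le _ _
  have h3 : ∀ a, 0 ≤ f1 M c c' a := f1_nonneg hM.le _ _
  have h4 : ∀ a, 0 ≤ cv (fw M x y) (f1 M c c') a := fun a => cf_nonneg h1 h3 _ _ _
  refine ⟨cf_nonneg h4 h2 _ _ _, ?_⟩
  have h5 : cv (cv (fw M x y) (f1 M c c')) (fw M u v) z ≤ ∑ w ∈ Dv z, cv (cv (fw M x y) (f1 M c c')) (fw M u v) w :=
    single_le_sum (f := fun w => cv (cv (fw M x y) (f1 M c c')) (fw M u v) w) (fun w _ => cf_nonneg h4 h2 _ _ _)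
      ((mem_Dv hz).2 dvd_rfl)
  have h6 := cv_div h4 h2 hz
  have h7 := cv_div h1 h3 hz
  have h8 := fw_div (x := x) (y := y) hM hz hz3
  have h9 := fw_div (x := u) (y := v) hM hz hz3
  have h10 := f1_div (c := c) (c' := c') hM hz hz3
  have s1 : 0 ≤ ∑ a ∈ Dv z, f1 M c c' a := sum_nonneg fun a _ => h3 a
  have s2 : 0 ≤ ∑ a ∈ Dv z, fw M u v a := sum_nonneg fun a _ => h2 a
  have s3 : ∑ a ∈ Dv z, cv (fw M x y) (f1 M c c') a ≤ 144 := by
    refine h7.trans ?_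
    calc _ ≤ (12 : ℝ) * 12 := mul_le_mul h8 h10 s1 (by norm_num)
      _ = 144 := by norm_num
  refine h5.trans (h6.trans ?_)
  calc _ ≤ (144 : ℝ) * 12 := mul_le_mul s3 h9 s2 (by norm_num)
    _ = 1728 := by norm_num

/-- **from the Gaussian primes to the rational primes, one line** -/
theorem T3_Wt {ε c3 c4 : ℝ} (hε : 0 < ε) (hε1 : ε ≤ 1) (hc3 : 0 < c3) (hc4 : 6 * c4 ≤ ε) :
    ∀ᶠ M : ℝ in atTop, ∀ (l : ℤ) (x y u v : ℝ), 1 ≤ l → (l : ℝ) ≤ M → M ^ c3 ≤ x → x ≤ y → y ≤ M ^ c4 → M ^ c4 ≤ u → u ≤ v →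
      v ≤ M ^ (1 - ε) →
      |T3 M x y u v (f1 M c4 3) l - 32 / (Real.log M) ^ 3 * Wt l M x y u v| ≤ 7000 * M ^ (1 - ε / 2) := by
  classical
  filter_upwards [eventually_ge_atTop (3 : ℝ), ev_log 1] with M hM3 hl1
  intro l x y u v hl hlM hx hxy hy hu huv hv
  have hM0 : 0 < M := by linarith
  have hM1 : 1 ≤ M := by linarith
  have hM1' : 1 < M := by linarith
  set ℓ := Real.log M with hℓ
  have hℓ0 : 0 < ℓ := by linarith
  have hx1 : 1 ≤ x := (Real.one_le_rpow hM1 hc3.le).trans hx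
  have hy0 : 0 < y := by linarith
  have hv0 : 0 < v := by linarith
  set B := M ^ (1 - ε / 2) with hB
  have hB1 : 1 ≤ B := Real.one_le_rpow hM1 (by linarith)
  have hB0 : 0 < B := by linarith
  have hB2 : B ^ 2 = M ^ (2 - ε) := by
    rw [hB, ← Real.rpow_natCast, ← Real.rpow_mul hM0.le]
    congr 1
    push_cast
    ring
  have hne : ∀ m : ℤ, (⟨l, m⟩ : ZI) ≠ 0 := by
    intro m h0
    have h3 := congrArg Zsqrtd.re h0
    simp only [Zsqrtd.re_zero] at h3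
    omega
  have hl0 : (1 : ℝ) ≤ l := by exact_mod_cast hl
  have hnzM : ∀ m ∈ Icc ⌈-M⌉ ⌊M⌋, nz (⟨l, m⟩ : ZI) ≤ M ^ 3 := by
    intro m hm
    rw [mem_box2] at hm
    rw [Pool.Agent.N782.GN.nz_mk]
    have h4 : (l : ℝ) ^ 2 ≤ M ^ 2 := pow_le_pow_left₀ (by linarith) hlM 2
    have h5 : (m : ℝ) ^ 2 ≤ M ^ 2 := by
      rw [← sq_abs]
      exact pow_le_pow_left₀ (abs_nonneg _) hm 2
    nlinarith [sq_nonneg M]
  have hw3 : ∀ m ∈ Icc ⌈-M⌉ ⌊M⌋, 16 / ℓ ^ 3 * w3 x y u v (l ^ 2 + m ^ 2).natAbs ≤ 432 := by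
    intro m hm
    have h1 := hnzM m hm
    have h2 : w3 x y u v (l ^ 2 + m ^ 2).natAbs ≤ (3 * ℓ) ^ 3 := by
      have hnn : nn (⟨l, m⟩ : ZI) ≠ 0 := nn_ne_zero (hne m)
      rw [← nn_abs]
      refine (w3_le hnn).trans ?_
      apply pow_le_pow_left₀ (Real.log_natCast_nonneg _)
      rw [← nz_nn]
      have := Real.log_le_log (nz_pos (hne m)) h1
      rwa [Real.log_pow, Nat.cast_ofNat] at this
    calc 16 / ℓ ^ 3 * w3 x y u v (l ^ 2 + m ^ 2).natAbs ≤ 16 / ℓ ^ 3 * (3 * ℓ) ^ 3 := by gcongr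
      _ = 432 := by
          field_simp
          norm_num
  set D : ℤ → ℝ := fun m => cv (cv (fw M x y) (f1 M c4 3)) (fw M u v) (⟨l, m⟩ : ZI) -
    16 / ℓ ^ 3 * w3 x y u v (l ^ 2 + m ^ 2).natAbs with hD
  have hDbig : ∀ m ∈ Icc ⌈-M⌉ ⌊M⌋, B < |(m : ℝ)| → D m = 0 := by
    intro m hm hBm
    simp only [hD]
    have h1 : M ^ (2 - ε) < nz (⟨l, m⟩ : ZI) := by
      rw [Pool.Agent.N782.GN.nz_mk, ← hB2, ← sq_abs (m : ℝ)]
      have := pow_lt_pow_left₀ hBm hB0.le two_ne_zero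
      have := sq_nonneg (l : ℝ)
      linarith
    have hvy : v ^ 2 * y ≤ M ^ (2 - ε) := by
      calc v ^ 2 * y ≤ (M ^ (1 - ε)) ^ 2 * M ^ c4 :=
            mul_le_mul (pow_le_pow_left₀ hv0.le hv 2) hy hy0.le (by positivity)
        _ = M ^ (2 * (1 - ε) + c4) := by
            rw [← Real.rpow_natCast, ← Real.rpow_mul hM0.le, ← Real.rpow_add hM0]
            congr 1
            push_cast
            ring
        _ ≤ M ^ (2 - ε) := Real.rpow_le_rpow_of_exponent_le hM1 (by linarith)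
    have hqy : M ^ c4 * v * y ≤ M ^ (2 - ε) := by
      calc M ^ c4 * v * y ≤ M ^ c4 * M ^ (1 - ε) * M ^ c4 := by gcongr
        _ = M ^ (c4 + (1 - ε) + c4) := by rw [← Real.rpow_add hM0, ← Real.rpow_add hM0]
        _ ≤ M ^ (2 - ε) := Real.rpow_le_rpow_of_exponent_le hM1 (by linarith)
    have h2 := cv_w3 (M := M) (x := x) (y := y) (u := u) (v := v) (Q1 := M ^ c4) (Q2 := M ^ (3 : ℝ)) (hne m) (by linarith)
      (by linarith) (by
        have := hnzM m hm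
        rw [← Real.rpow_natCast] at this
        exact_mod_cast this) (by positivity) (hy.trans hu) hv0.le (f1 M c4 3) (fun q hq1 hq2 => by
        unfold f1
        rw [if_pos ⟨hq1, hq2⟩])
    rw [cv_assoc _ _ _ (hne m), h2, nn_abs, sub_self]
  have hDsm : ∀ m ∈ Icc ⌈-M⌉ ⌊M⌋, |D m| ≤ 2160 := by
    intro m hm
    obtain ⟨h1, h2⟩ := cv3_le (x := x) (y := y) (u := u) (v := v) (c := c4) (c' := 3) hM1' (hne m) (hnzM m hm)
    have h3 := hw3 m hm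
    have h4 : 0 ≤ 16 / ℓ ^ 3 * w3 x y u v (l ^ 2 + m ^ 2).natAbs := mul_nonneg (by positivity) (w3_nonneg _ _ _ _ _)
    simp only [hD]
    rw [abs_le]
    constructor <;> linarith
  have hsum : |∑ m ∈ Icc ⌈-M⌉ ⌊M⌋, D m| ≤ 2160 * (2 * B + 1) := by
    have e1 : ∑ m ∈ Icc ⌈-M⌉ ⌊M⌋, D m = ∑ m ∈ (Icc ⌈-M⌉ ⌊M⌋).filter (fun m : ℤ => |(m : ℝ)| ≤ B), D m := by
      symm
      apply sum_subset (filter_subset _ _)
      intro m hm hm'
      rw [mem_filter] at hm'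
      push Not at hm'
      exact hDbig m hm (hm' hm)
    rw [e1]
    refine (abs_sum_le_sum_abs _ _).trans ((sum_le_sum fun m hm => hDsm m (mem_filter.1 hm).1).trans ?_)
    rw [sum_const, nsmul_eq_mul, mul_comm]
    apply mul_le_mul_of_nonneg_left _ (by norm_num)
    have h1 : (Icc ⌈-M⌉ ⌊M⌋).filter (fun m : ℤ => |(m : ℝ)| ≤ B) ⊆ Icc ⌈-B⌉ ⌊B⌋ := by
      intro m hm
      rw [mem_filter] at hm
      rw [mem_box2]
      exact hm.2
    have h2 : (((Icc ⌈-M⌉ ⌊M⌋).filter (fun m : ℤ => |(m : ℝ)| ≤ B)).card : ℝ) ≤ (Icc ⌈-B⌉ ⌊B⌋).card := by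
      exact_mod_cast card_le_card h1
    refine h2.trans ?_
    rw [Int.card_Icc, Int.ceil_neg]
    have h3 : 0 ≤ ⌊B⌋ := Int.floor_nonneg.2 hB0.le
    have h5 : (((⌊B⌋ + 1 - -⌊B⌋).toNat : ℕ) : ℤ) = 2 * ⌊B⌋ + 1 := by
      rw [Int.toNat_of_nonneg (by omega)]
      ring
    have h6 : (((⌊B⌋ + 1 - -⌊B⌋).toNat : ℕ) : ℝ) = 2 * (⌊B⌋ : ℝ) + 1 := by exact_mod_cast h5
    rw [h6]
    have := Int.floor_le B
    linarith
  have h0 : (0 : ℤ) ∈ Icc ⌈-M⌉ ⌊M⌋ := by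
    rw [mem_box2]
    simp only [Int.cast_zero, abs_zero]
    linarith
  have e2 : T3 M x y u v (f1 M c4 3) l = ∑ m ∈ Icc ⌈-M⌉ ⌊M⌋, D m + 16 / ℓ ^ 3 * ∑ m ∈ Icc ⌈-M⌉ ⌊M⌋, w3 x y u v (l ^ 2 + m ^ 2).natAbs := by
    unfold T3
    rw [mul_sum, ← sum_add_distrib]
    refine sum_congr rfl fun m _ => ?_
    simp only [hD]
    ring
  have e3 := two_sided hM1 (fun m => w3 x y u v (l ^ 2 + m ^ 2).natAbs) (fun m => by simp only [neg_sq])
  have e4 : T3 M x y u v (f1 M c4 3) l - 32 / ℓ ^ 3 * Wt l M x y u v =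
      ∑ m ∈ Icc ⌈-M⌉ ⌊M⌋, D m + 16 / ℓ ^ 3 * w3 x y u v (l ^ 2 + 0 ^ 2).natAbs := by
    rw [e2, e3]
    unfold Wt
    ring
  rw [e4]
  refine (abs_add_le _ _).trans ?_
  have h5 := hw3 0 h0
  have h6 : 0 ≤ 16 / ℓ ^ 3 * w3 x y u v (l ^ 2 + 0 ^ 2).natAbs := mul_nonneg (by positivity) (w3_nonneg _ _ _ _ _)
  rw [abs_of_nonneg h6]
  linarith

/-- the mean value of the singular series -/
theorem SS_mean : ∃ C : ℝ, 0 < C ∧ ∀ L : ℝ, 1 ≤ L → ∑ l ∈ Icc 1 ⌊L⌋, |SS l| ≤ C * L := by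
  obtain ⟨C, hC, h⟩ := c_mt1 0
  refine ⟨C + 27, by positivity, fun L hL => ?_⟩
  have h1 := (h L 3 hL le_rfl).2
  rw [pow_zero, div_one] at h1
  have hl3 : Real.log 3 ≤ 2 := by
    have := Real.log_le_sub_one_of_pos (show (0 : ℝ) < 3 by norm_num)
    linarith
  have e1 : ∀ l ∈ Icc 1 ⌊L⌋, |SS l| ≤ |1 / 4 * ∑ b ∈ bl 3, mu b * (kap l b / nz b) * Real.log (nz b) + SS l| +
      1 / 2 * ∑ b ∈ bl 3, kap l b := by
    intro l _
    have e2 : |1 / 4 * ∑ b ∈ bl 3, mu b * (kap l b / nz b) * Real.log (nz b)| ≤ 1 / 2 * ∑ b ∈ bl 3, kap l b := by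
      rw [abs_mul, abs_of_pos (by norm_num : (0 : ℝ) < 1 / 4)]
      have e3 : |∑ b ∈ bl 3, mu b * (kap l b / nz b) * Real.log (nz b)| ≤ ∑ b ∈ bl 3, 2 * kap l b := by
        refine (abs_sum_le_sum_abs _ _).trans (sum_le_sum fun b hb => ?_)
        rw [mem_bl] at hb
        have hb1 := nz_one_le hb.1
        have hk := kap_nn l b
        rw [abs_mul, abs_mul, abs_of_nonneg (Real.log_nonneg hb1), abs_of_nonneg (div_nonneg hk (nz_nonneg b))]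
        have h2 : Real.log (nz b) ≤ 2 := (Real.log_le_log (by linarith) hb.2).trans hl3
        calc |mu b| * (kap l b / nz b) * Real.log (nz b) ≤ 1 * (kap l b / 1) * 2 := by
              refine mul_le_mul (mul_le_mul (abs_mu_le b) ?_ (div_nonneg hk (nz_nonneg b)) zero_le_one) h2
                (Real.log_nonneg hb1) (by positivity)
              exact div_le_div_of_nonneg_left hk one_pos hb1
          _ = _ := by ring
      rw [← mul_sum] at e3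
      linarith
    have e4 := abs_sub (1 / 4 * ∑ b ∈ bl 3, mu b * (kap l b / nz b) * Real.log (nz b) + SS l)
      (1 / 4 * ∑ b ∈ bl 3, mu b * (kap l b / nz b) * Real.log (nz b))
    rw [add_sub_cancel_left] at e4
    linarith
  refine (sum_le_sum e1).trans ?_
  rw [sum_add_distrib, ← mul_sum, sum_comm]
  have e5 : ∑ b ∈ bl 3, ∑ l ∈ Icc 1 ⌊L⌋, kap l b ≤ 27 * L := by
    calc _ ≤ ∑ b ∈ bl 3, L := sum_le_sum fun b hb => kap_sum (by linarith) ((mem_bl _ _).1 hb).1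
      _ = ((bl 3).card : ℝ) * L := by rw [sum_const, nsmul_eq_mul]
      _ ≤ 27 * L := by
        have := card_bl (X := 3) (by norm_num)
        exact mul_le_mul_of_nonneg_right (by linarith) (by linarith)
  linarith

/-- **the asymptotic formula, on average over `l`** -/
theorem avg_w3 (ε : ℝ) (A : ℕ) (hε : 0 < ε) (hε1 : ε ≤ 1) {c3 c4 : ℝ} (hc3 : 0 < c3) (h34 : c3 < c4)
    (hc4 : 6 * c4 ≤ ε) : ∃ C : ℝ, 0 < C ∧ ∀ᶠ M : ℝ in atTop, ∀ (L x y u v : ℝ),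
    1 ≤ L → L ≤ M ^ (1 - ε) → M / L * M ^ ε ≤ u → u ≤ v → v ≤ M ^ (1 - ε) → M ^ c3 ≤ x → x ≤ y → y ≤ M ^ c4 →
    ∑ l ∈ Icc 1 ⌊L⌋, |Wt l M x y u v - M * SS l * (Real.log (y / x) * Real.log (v / u))| ≤ C * (L * M / (Real.log M) ^ A) := by
  classical
  obtain ⟨C1, hC1, h1⟩ := main_e3 ε (A + 3) hε hε1 hc3 h34 hc4
  obtain ⟨C2, hC2, h2⟩ := Lp_log hc3 (show (0 : ℝ) ≤ 1 by norm_num) (A + 1)
  obtain ⟨C3, hC3, h3⟩ := SS_mean
  refine ⟨C1 + 7000 + 300 * C2 * C3, by positivity, ?_⟩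
  filter_upwards [h1, h2, T3_Wt hε hε1 hc3 hc4, eventually_ge_atTop (3 : ℝ), ev_log 1, ev_qM (show 0 < ε / 2 by positivity) (A + 3)]
    with M h1 h2 h4 hM3 hl1 hqM
  intro L x y u v hL1 hL2 hu huv hv hx hxy hy
  have hM0 : 0 < M := by linarith
  have hM1 : 1 ≤ M := by linarith
  have hM1' : 1 < M := by linarith
  set ℓ := Real.log M with hℓ
  have hℓ0 : 0 < ℓ := by linarith
  have hL0 : 0 < L := by linarith
  have hLM : L ≤ M := by
    refine hL2.trans ?_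
    calc M ^ (1 - ε) ≤ M ^ (1 : ℝ) := Real.rpow_le_rpow_of_exponent_le hM1 (by linarith)
      _ = M := Real.rpow_one M
  have hc4u : M ^ c4 ≤ u := by
    refine le_trans ?_ hu
    have a1 : 1 ≤ M / L := by
      rw [le_div_iff₀ hL0, one_mul]
      exact hLM
    calc M ^ c4 ≤ M ^ ε := Real.rpow_le_rpow_of_exponent_le hM1 (by linarith)
      _ = 1 * M ^ ε := (one_mul _).symm
      _ ≤ M / L * M ^ ε := mul_le_mul_of_nonneg_right a1 (by positivity)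
  have hx1 : 1 ≤ x := (Real.one_le_rpow hM1 hc3.le).trans hx
  have hyM : y ≤ M := by
    calc y ≤ M ^ c4 := hy
      _ ≤ M ^ (1 : ℝ) := Real.rpow_le_rpow_of_exponent_le hM1 (by linarith)
      _ = M := Real.rpow_one M
  have hvM : v ≤ M := by
    calc v ≤ M ^ (1 - ε) := hv
      _ ≤ M ^ (1 : ℝ) := Real.rpow_le_rpow_of_exponent_le hM1 (by linarith)
      _ = M := Real.rpow_one M
  have hM1r : M ^ (1 : ℝ) = M := Real.rpow_one M
  have hc3u : M ^ c3 ≤ u := le_trans (Real.rpow_le_rpow_of_exponent_le hM1 h34.le) hc4u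
  have g1 := h1 L x y u v hL1 hL2 hu huv hv hx hxy hy
  have g2 := h2 x y hx hxy (by rw [hM1r]; exact hyM)
  have g3 := h2 u v hc3u huv (by rw [hM1r]; exact hvM)
  have g5 := h3 L hL1
  rw [← sW_log hM1', ← hℓ] at g2 g3
  have w2' := sW_le (x := u) hM1' ((hx1.trans hxy).trans (hy.trans (hc4u.trans huv))) hvM
  have w3' := sW_nonneg hM1 x y
  have w4' := sW_nonneg hM1 u v
  set a := ℓ * sW M x y with ha
  set b := ℓ * sW M u v with hb
  set qq1 := Real.log (y / x) with hqq1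
  set qq2 := Real.log (v / u) with hqq2
  have hqq10 : 0 ≤ qq1 := Real.log_nonneg (by rw [le_div_iff₀ (by linarith)]; linarith)
  have hqq1l : qq1 ≤ ℓ := by
    have e1 : y / x ≤ y := div_le_self (by linarith) hx1
    exact Real.log_le_log (div_pos (by linarith) (by linarith)) (e1.trans hyM)
  have hb0 : 0 ≤ b := mul_nonneg hℓ0.le w4'
  have hbℓ : b ≤ 288 * ℓ := by
    rw [hb]
    nlinarith
  have hab : |a * b - 16 * (qq1 * qq2)| ≤ 300 * C2 / ℓ ^ A := by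
    have e : a * b - 16 * (qq1 * qq2) = (a - 4 * qq1) * b + 4 * qq1 * (b - 4 * qq2) := by ring
    rw [e]
    refine (abs_add_le _ _).trans ?_
    rw [abs_mul (a - 4 * qq1) b, abs_mul (4 * qq1) (b - 4 * qq2), abs_of_nonneg hb0, abs_of_nonneg (by positivity : 0 ≤ 4 * qq1)]
    calc |a - 4 * qq1| * b + 4 * qq1 * |b - 4 * qq2| ≤ C2 / ℓ ^ (A + 1) * (288 * ℓ) + 4 * ℓ * (C2 / ℓ ^ (A + 1)) := by
          gcongr
      _ = 292 * C2 / ℓ ^ A := by
          rw [pow_succ]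
          field_simp
          ring
      _ ≤ 300 * C2 / ℓ ^ A := by
          apply div_le_div_of_nonneg_right _ (by positivity)
          linarith
  have hpt : ∀ l ∈ Icc 1 ⌊L⌋, |Wt l M x y u v - M * SS l * (qq1 * qq2)| ≤
      ℓ ^ 3 * |T3 M x y u v (f1 M c4 3) l - 2 * M * SS l * sW M x y * sW M u v / ℓ| +
      7000 * ℓ ^ 3 * M ^ (1 - ε / 2) + M * (300 * C2 / ℓ ^ A) * |SS l| := by
    intro l hl
    rw [mem_box] at hl
    have k1 := h4 l x y u v hl.1 (hl.2.trans hLM) hx hxy hy hc4u huv hv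
    have e2 : Wt l M x y u v - M * SS l * (qq1 * qq2) =
        ℓ ^ 3 / 32 * (T3 M x y u v (f1 M c4 3) l - 2 * M * SS l * sW M x y * sW M u v / ℓ) -
        ℓ ^ 3 / 32 * (T3 M x y u v (f1 M c4 3) l - 32 / ℓ ^ 3 * Wt l M x y u v) +
        M / 16 * SS l * (a * b - 16 * (qq1 * qq2)) := by
      rw [ha, hb]
      field_simp
      ring
    rw [e2]
    have hp : 0 < ℓ ^ 3 := by positivity
    have b1 : |ℓ ^ 3 / 32 * (T3 M x y u v (f1 M c4 3) l - 2 * M * SS l * sW M x y * sW M u v / ℓ)| ≤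
        ℓ ^ 3 * |T3 M x y u v (f1 M c4 3) l - 2 * M * SS l * sW M x y * sW M u v / ℓ| := by
      rw [abs_mul, abs_of_pos (by positivity : 0 < ℓ ^ 3 / 32)]
      exact mul_le_mul_of_nonneg_right (by linarith) (abs_nonneg _)
    have b2 : |ℓ ^ 3 / 32 * (T3 M x y u v (f1 M c4 3) l - 32 / ℓ ^ 3 * Wt l M x y u v)| ≤ 7000 * ℓ ^ 3 * M ^ (1 - ε / 2) := by
      rw [abs_mul, abs_of_pos (by positivity : 0 < ℓ ^ 3 / 32)]
      calc ℓ ^ 3 / 32 * |T3 M x y u v (f1 M c4 3) l - 32 / ℓ ^ 3 * Wt l M x y u v| ≤ ℓ ^ 3 * (7000 * M ^ (1 - ε / 2)) :=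
            mul_le_mul (by linarith) k1 (abs_nonneg _) hp.le
        _ = _ := by ring
    have b3 : |M / 16 * SS l * (a * b - 16 * (qq1 * qq2))| ≤ M * (300 * C2 / ℓ ^ A) * |SS l| := by
      rw [abs_mul, abs_mul, abs_of_pos (by positivity : 0 < M / 16)]
      calc M / 16 * |SS l| * |a * b - 16 * (qq1 * qq2)| ≤ M * |SS l| * (300 * C2 / ℓ ^ A) := by
            refine mul_le_mul ?_ hab (abs_nonneg _) (by positivity)
            exact mul_le_mul_of_nonneg_right (by linarith) (abs_nonneg _)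
        _ = _ := by ring
    exact (abs_add_le _ _).trans (add_le_add ((abs_sub _ _).trans (add_le_add b1 b2)) b3)
  refine (sum_le_sum hpt).trans ?_
  rw [sum_add_distrib, sum_add_distrib, sum_const, nsmul_eq_mul, ← mul_sum, ← mul_sum]
  have hcard : (((Icc 1 ⌊L⌋).card : ℕ) : ℝ) ≤ L := by
    rw [Int.card_Icc, show ⌊L⌋ + 1 - 1 = ⌊L⌋ by ring]
    have h5 : ((⌊L⌋.toNat : ℕ) : ℤ) = ⌊L⌋ := Int.toNat_of_nonneg (Int.floor_nonneg.2 hL0.le)
    have h6 : ((⌊L⌋.toNat : ℕ) : ℝ) = (⌊L⌋ : ℝ) := by exact_mod_cast h5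
    rw [h6]
    exact Int.floor_le _
  have c1 : ℓ ^ 3 * ∑ l ∈ Icc 1 ⌊L⌋, |T3 M x y u v (f1 M c4 3) l - 2 * M * SS l * sW M x y * sW M u v / ℓ| ≤
      C1 * (L * M / ℓ ^ A) := by
    calc _ ≤ ℓ ^ 3 * (C1 * (L * M) / ℓ ^ (A + 3)) := mul_le_mul_of_nonneg_left g1 (by positivity)
      _ = _ := by
        rw [pow_add]
        field_simp
  have c2 : (((Icc 1 ⌊L⌋).card : ℕ) : ℝ) * (7000 * ℓ ^ 3 * M ^ (1 - ε / 2)) ≤ 7000 * (L * M / ℓ ^ A) := by
    have d1 : ℓ ^ 3 * M ^ (1 - ε / 2) ≤ M / ℓ ^ A := by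
      rw [le_div_iff₀ (by positivity)]
      calc ℓ ^ 3 * M ^ (1 - ε / 2) * ℓ ^ A = ℓ ^ (A + 3) * M ^ (1 - ε / 2) := by ring
        _ ≤ M ^ (ε / 2) * M ^ (1 - ε / 2) := mul_le_mul_of_nonneg_right hqM (by positivity)
        _ = M := by
          rw [← Real.rpow_add hM0, show ε / 2 + (1 - ε / 2) = 1 by ring, Real.rpow_one]
    calc _ ≤ L * (7000 * ℓ ^ 3 * M ^ (1 - ε / 2)) := mul_le_mul_of_nonneg_right hcard (by positivity)
      _ = 7000 * L * (ℓ ^ 3 * M ^ (1 - ε / 2)) := by ring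
      _ ≤ 7000 * L * (M / ℓ ^ A) := mul_le_mul_of_nonneg_left d1 (by positivity)
      _ = _ := by ring
  have c3' : M * (300 * C2 / ℓ ^ A) * ∑ l ∈ Icc 1 ⌊L⌋, |SS l| ≤ 300 * C2 * C3 * (L * M / ℓ ^ A) := by
    calc _ ≤ M * (300 * C2 / ℓ ^ A) * (C3 * L) := mul_le_mul_of_nonneg_left g5 (by positivity)
      _ = _ := by ring
  calc _ ≤ C1 * (L * M / ℓ ^ A) + 7000 * (L * M / ℓ ^ A) + 300 * C2 * C3 * (L * M / ℓ ^ A) :=
        add_le_add (add_le_add c1 c2) c3'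
    _ = _ := by ring

end Pool.Agent.J6H16.E3
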