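import Pool.Agent.J6H16.E3.Ch

/-!
# Project E3 (helper16): from the grid to all the parameters
-/

set_option autoImplicit false

namespace Pool.Agent.J6H16.E3

open Finset Filter Topology
open Pool.Agent.N782.GN hiding f1
open Pool.Agent.N855.GN
open Pool.Agent.H304R3.HK (UH bb LamK CS)
open Pool.Agent.J6H16.PF Pool.Agent.J6H16.PR Pool.Agent.J6H16.E2

theorem w2_mono {x y x' y' : ℝ} (hx : x' ≤ x) (hy : y ≤ y') (n : ℕ) : w2 x y n ≤ w2 x' y' n := by
  classical
  unfold w2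
  apply sum_le_sum_of_subset_of_nonneg
  · intro p hp
    rw [mem_filter] at hp ⊢
    exact ⟨hp.1, hp.2.1, lt_of_le_of_lt hx hp.2.2.1, hp.2.2.2.trans hy⟩
  · intro p _ _
    exact mul_nonneg (Real.log_natCast_nonneg _) (Real.log_natCast_nonneg _)

theorem w3_mono {x y u v x' y' u' v' : ℝ} (hx : x' ≤ x) (hy : y ≤ y') (hu : u' ≤ u) (hv : v ≤ v') (n : ℕ) :
    w3 x y u v n ≤ w3 x' y' u' v' n := by
  classical
  unfold w3
  calc _ ≤ ∑ p ∈ n.primeFactors.filter (fun p : ℕ => x < (p : ℝ) ∧ (p : ℝ) ≤ y), Real.log p * w2 u' v' (n / p) :=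
        sum_le_sum fun p _ => mul_le_mul_of_nonneg_left (w2_mono hu hv _) (Real.log_natCast_nonneg _)
    _ ≤ _ := by
      apply sum_le_sum_of_subset_of_nonneg
      · intro p hp
        rw [mem_filter] at hp ⊢
        exact ⟨hp.1, lt_of_le_of_lt hx hp.2.1, hp.2.2.trans hy⟩
      · intro p _ _
        exact mul_nonneg (Real.log_natCast_nonneg _) (w2_nonneg _ _ _)

theorem Wt_mono {l : ℤ} {M M' x y u v x' y' u' v' : ℝ} (hM : M ≤ M') (hx : x' ≤ x) (hy : y ≤ y') (hu : u' ≤ u) (hv : v ≤ v') :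
    Wt l M x y u v ≤ Wt l M' x' y' u' v' := by
  unfold Wt
  calc ∑ m ∈ Icc 1 ⌊M⌋, w3 x y u v (l ^ 2 + m ^ 2).natAbs ≤ ∑ m ∈ Icc 1 ⌊M'⌋, w3 x y u v (l ^ 2 + m ^ 2).natAbs := by
        apply sum_le_sum_of_subset_of_nonneg
        · exact Icc_subset_Icc le_rfl (Int.floor_le_floor hM)
        · intro m _ _
          exact w3_nonneg _ _ _ _ _
    _ ≤ _ := sum_le_sum fun m _ => w3_mono hx hy hu hv _

theorem Wt_nonneg (l : ℤ) (M x y u v : ℝ) : 0 ≤ Wt l M x y u v := sum_nonneg fun m _ => w3_nonneg _ _ _ _ _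

theorem exp_small {h : ℝ} (h0 : 0 ≤ h) (h1 : h ≤ 1 / 2) : Real.exp h ≤ 1 + 2 * h ∧ Real.exp h ≤ 2 ∧ 1 - h ≤ Real.exp (-h) := by
  have h2 := exp_two h1 h0
  refine ⟨by linarith, by linarith, ?_⟩
  have := Real.add_one_le_exp (-h)
  linarith

/-- the upper part -/
theorem sand_up {N Np s lam Lp D h η W e : ℝ} (hN : 0 < N) (hNp : Np ≤ N * e) (hNp0 : 0 ≤ Np) (he : e ≤ 1 + 2 * h)
    (he2 : e ≤ 2) (hs : 0 ≤ s) (h0 : 0 ≤ h) (hlam0 : 0 ≤ lam) (hlam : lam ≤ Lp)
    (hD : D ≤ lam + 2 * h) (hη : 0 ≤ η) (hW : W ≤ Np * s * D + Np * η) :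
    W - N * s * lam ≤ N * (s * (4 * h * (1 + Lp)) + 2 * η) := by
  have h1 : Np * s * D ≤ N * e * s * (lam + 2 * h) := by
    have a1 : Np * s * D ≤ Np * s * (lam + 2 * h) := mul_le_mul_of_nonneg_left hD (mul_nonneg hNp0 hs)
    have a2 : Np * s * (lam + 2 * h) ≤ N * e * s * (lam + 2 * h) :=
      mul_le_mul_of_nonneg_right (mul_le_mul_of_nonneg_right hNp hs) (by linarith)
    linarith
  have h2 : Np * η ≤ N * 2 * η := by
    have a1 : Np ≤ N * 2 := hNp.trans (mul_le_mul_of_nonneg_left he2 hN.le)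
    exact mul_le_mul_of_nonneg_right a1 hη
  have h3 : N * e * s * (lam + 2 * h) ≤ N * s * lam + N * (s * (4 * h * (1 + Lp))) := by
    have a1 : e * (lam + 2 * h) ≤ lam + 4 * h * (1 + Lp) := by
      have b1 : e * lam ≤ (1 + 2 * h) * lam := mul_le_mul_of_nonneg_right he hlam0
      have b2 : e * (2 * h) ≤ 2 * (2 * h) := mul_le_mul_of_nonneg_right he2 (by linarith)
      have b3 : h * lam ≤ h * Lp := mul_le_mul_of_nonneg_left hlam h0
      have b4 : 0 ≤ h * Lp := mul_nonneg h0 (by linarith)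
      linarith
    have a2 := mul_le_mul_of_nonneg_left a1 (mul_nonneg hN.le hs)
    calc N * e * s * (lam + 2 * h) = N * s * (e * (lam + 2 * h)) := by ring
      _ ≤ N * s * (lam + 4 * h * (1 + Lp)) := a2
      _ = _ := by ring
  linarith

/-- the lower part -/
theorem sand_lo {N Np s lam Lp D h η W : ℝ} (hN : 0 < N) (hNp : N * (1 - h) ≤ Np) (hNp1 : Np ≤ N)
    (hs : 0 ≤ s) (h0 : 0 ≤ h) (hlam0 : 0 ≤ lam) (hlam : lam ≤ Lp)
    (hD0 : 0 ≤ D) (hD : lam - 2 * h ≤ D) (hD1 : D ≤ lam) (hη : 0 ≤ η) (hW : Np * s * D - Np * η ≤ W) :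
    N * s * lam - W ≤ N * (s * (4 * h * (1 + Lp)) + 2 * η) := by
  have hsD : 0 ≤ s * D := mul_nonneg hs hD0
  have h1 : N * (1 - h) * (s * D) ≤ Np * (s * D) := mul_le_mul_of_nonneg_right hNp hsD
  have h2 : Np * η ≤ N * η := mul_le_mul_of_nonneg_right hNp1 hη
  have h3 : N * s * (lam - 2 * h) ≤ N * s * D := mul_le_mul_of_nonneg_left hD (mul_nonneg hN.le hs)
  have h4 : N * h * (s * D) ≤ N * h * (s * Lp) :=
    mul_le_mul_of_nonneg_left (mul_le_mul_of_nonneg_left (hD1.trans hlam) hs) (mul_nonneg hN.le h0)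
  have h5 : 0 ≤ N * (s * h) := mul_nonneg hN.le (mul_nonneg hs h0)
  have h6 : 0 ≤ N * η := mul_nonneg hN.le hη
  have h7 : 0 ≤ N * h * (s * Lp) := mul_nonneg (mul_nonneg hN.le h0) (mul_nonneg hs (by linarith))
  have e1 : Np * s * D = Np * (s * D) := by ring
  have e2 : N * (1 - h) * (s * D) = N * s * D - N * h * (s * D) := by ring
  have e3 : N * s * (lam - 2 * h) = N * s * lam - 2 * (N * (s * h)) := by ring
  have e4 : N * (s * (4 * h * (1 + Lp)) + 2 * η) = 4 * (N * (s * h)) + 4 * (N * h * (s * Lp)) + 2 * (N * η) := by ring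
  rw [e1] at hW
  rw [e2] at h1
  rw [e3] at h3
  rw [e4]
  linarith

/-- the points of the grid around a number -/
theorem grid_key {h : ℝ} (h0 : 0 < h) (h1 : h ≤ 1 / 2) {u : ℝ} (hu : 1 ≤ u) : ∃ i : ℕ,
    (i : ℝ) * h ≤ Real.log u ∧ Real.log u ≤ ((i : ℝ) + 1) * h ∧
    u / 2 ≤ Real.exp (i * h) ∧ Real.exp (i * h) ≤ u ∧ u ≤ Real.exp ((i + 1 : ℕ) * h) ∧
    Real.exp ((i + 1 : ℕ) * h) ≤ u * Real.exp h ∧ u * (1 - h) ≤ Real.exp (i * h) := by
  obtain ⟨he1, he2, he3⟩ := exp_small h0.le h1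
  have hu0 : 0 < u := by linarith
  have hlu : 0 ≤ Real.log u := Real.log_nonneg hu
  have f1 : (⌊Real.log u / h⌋₊ : ℝ) * h ≤ Real.log u := by
    have := Nat.floor_le (show 0 ≤ Real.log u / h by positivity)
    rwa [le_div_iff₀ h0] at this
  have f2 : Real.log u ≤ ((⌊Real.log u / h⌋₊ : ℝ) + 1) * h := by
    have := (Nat.lt_floor_add_one (Real.log u / h)).le
    rwa [div_le_iff₀ h0] at this
  set i := ⌊Real.log u / h⌋₊ with hi
  have f3 : Real.exp (i * h) ≤ u := by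
    calc Real.exp (i * h) ≤ Real.exp (Real.log u) := Real.exp_le_exp.2 f1
      _ = u := Real.exp_log hu0
  have f4 : u ≤ Real.exp ((i + 1 : ℕ) * h) := by
    calc u = Real.exp (Real.log u) := (Real.exp_log hu0).symm
      _ ≤ Real.exp ((i + 1 : ℕ) * h) := Real.exp_le_exp.2 (by push_cast; exact f2)
  have f5 : Real.exp ((i + 1 : ℕ) * h) = Real.exp (i * h) * Real.exp h := by
    rw [← Real.exp_add]
    congr 1
    push_cast
    ring
  have f6 : u * Real.exp (-h) ≤ Real.exp (i * h) := by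
    have h4 : Real.exp h * Real.exp (-h) = 1 := by rw [← Real.exp_add]; simp
    calc u * Real.exp (-h) ≤ (Real.exp (i * h) * Real.exp h) * Real.exp (-h) := by
          rw [← f5]
          exact mul_le_mul_of_nonneg_right f4 (Real.exp_pos _).le
      _ = _ := by rw [mul_assoc, h4, mul_one]
  have f7 : u * (1 - h) ≤ Real.exp (i * h) := (mul_le_mul_of_nonneg_left he3 hu0.le).trans f6
  refine ⟨i, f1, f2, ?_, f3, f4, ?_, f7⟩
  · nlinarith
  · rw [f5]
    exact mul_le_mul_of_nonneg_right f3 (Real.exp_pos _).le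

/-- the differences of the grid points -/
theorem diff_key {h a b z y : ℝ} (hz : 0 < z) (hy : 0 < y) (ha : a * h ≤ Real.log z) (ha' : Real.log z ≤ (a + 1) * h)
    (hb : b * h ≤ Real.log y) (hb' : Real.log y ≤ (b + 1) * h) :
    ((a + 1) - b) * h ≤ Real.log (z / y) + 2 * h ∧ Real.log (z / y) - 2 * h ≤ (a - (b + 1)) * h ∧
    (a - (b + 1)) * h ≤ Real.log (z / y) := by
  rw [Real.log_div hz.ne' hy.ne']
  refine ⟨by linarith, by linarith, by linarith⟩

/-- from the grid to all the parameters -/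
theorem sand3 {l : ℤ} {h η s Lp N y z u v : ℝ} (h0 : 0 < h) (h1 : h ≤ 1 / 2) (hη : 0 ≤ η) (hs : 0 ≤ s)
    (hN : 1 ≤ N) (hy : 1 ≤ y) (hyz : y ≤ z) (hu : 1 ≤ u) (huv : u ≤ v)
    (hLp : Real.log (z / y) ≤ Lp) (hLp' : Real.log (v / u) ≤ Lp)
    (hg : ∀ i j k a b : ℕ, N / 2 ≤ Real.exp (i * h) → Real.exp (i * h) ≤ 2 * N → y / 2 ≤ Real.exp (j * h) → j ≤ k →
      Real.exp (k * h) ≤ 2 * z → u / 2 ≤ Real.exp (a * h) → a ≤ b → Real.exp (b * h) ≤ 2 * v →
      |Wt l (Real.exp (i * h)) (Real.exp (j * h)) (Real.exp (k * h)) (Real.exp (a * h)) (Real.exp (b * h)) -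
        Real.exp (i * h) * s * (((k - j) * h) * ((b - a) * h))| ≤ Real.exp (i * h) * η) :
    |Wt l N y z u v - N * s * (Real.log (z / y) * Real.log (v / u))| ≤
      N * (s * (4 * (h * (2 * Lp + 1)) * (1 + Lp ^ 2)) + 2 * η) := by
  obtain ⟨he1, he2, he3⟩ := exp_small h0.le h1
  have hz : 1 ≤ z := hy.trans hyz
  have hv : 1 ≤ v := hu.trans huv
  have hN0 : 0 < N := by linarith
  have hy0 : 0 < y := by linarith
  have hz0 : 0 < z := by linarith
  have hu0 : 0 < u := by linarith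
  have hv0 : 0 < v := by linarith
  obtain ⟨i, hi1, hi2, hi3, hi4, hi5, hi6, hi7⟩ := grid_key h0 h1 hN
  obtain ⟨j, hj1, hj2, hj3, hj4, hj5, hj6, hj7⟩ := grid_key h0 h1 hy
  obtain ⟨k, hk1, hk2, hk3, hk4, hk5, hk6, hk7⟩ := grid_key h0 h1 hz
  obtain ⟨a, ha1, ha2, ha3, ha4, ha5, ha6, ha7⟩ := grid_key h0 h1 hu
  obtain ⟨b, hb1, hb2, hb3, hb4, hb5, hb6, hb7⟩ := grid_key h0 h1 hv
  obtain ⟨d1, d2, d3⟩ := diff_key hz0 hy0 hk1 hk2 hj1 hj2
  obtain ⟨d4, d5, d6⟩ := diff_key hv0 hu0 hb1 hb2 ha1 ha2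
  set lam1 := Real.log (z / y) with hlam1
  set lam2 := Real.log (v / u) with hlam2
  have hlam10 : 0 ≤ lam1 := Real.log_nonneg (by rw [le_div_iff₀ hy0]; linarith)
  have hlam20 : 0 ≤ lam2 := Real.log_nonneg (by rw [le_div_iff₀ hu0]; linarith)
  have hLp0 : 0 ≤ Lp := hlam10.trans hLp
  set h' := h * (2 * Lp + 1) with hh'
  have hh'h : h ≤ h' := le_mul_of_one_le_right h0.le (by linarith)
  have hh'e : h' = 2 * (h * Lp) + h := by
    rw [hh']
    ring
  have hh'0 : 0 ≤ h' := h0.le.trans hh'h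
  have hprod : lam1 * lam2 ≤ Lp ^ 2 := by
    rw [sq]
    exact mul_le_mul hLp hLp' hlam20 hLp0
  have hprod0 : 0 ≤ lam1 * lam2 := mul_nonneg hlam10 hlam20
  have cmp : ∀ {p q : ℕ} {r s : ℝ}, (p : ℝ) * h ≤ Real.log r → Real.log s ≤ ((q : ℝ) + 1) * h → 0 < r → r ≤ s → p ≤ q + 1 := by
    intro p q r s h2 h3 h4 h5
    by_contra hcon
    push Not at hcon
    have h6 : ((q + 1 : ℕ) : ℝ) + 1 ≤ p := by exact_mod_cast hcon
    push_cast at h6
    have h7 : ((q : ℝ) + 1 + 1) * h ≤ p * h := mul_le_mul_of_nonneg_right h6 h0.le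
    have h8 := Real.log_le_log h4 h5
    linarith
  -- upper bound
  have hjk := cmp hj1 hk2 hy0 hyz
  have hab := cmp ha1 hb2 hu0 huv
  have two : ∀ {r : ℝ} {i : ℕ}, 0 < r → Real.exp ((i + 1 : ℕ) * h) ≤ r * Real.exp h → Real.exp ((i + 1 : ℕ) * h) ≤ 2 * r := by
    intro r i hr h2
    have h3 : r * Real.exp h ≤ r * 2 := mul_le_mul_of_nonneg_left he2 hr.le
    linarith
  have low : ∀ {r : ℝ} {i : ℕ}, 0 < r → r ≤ Real.exp ((i + 1 : ℕ) * h) → r / 2 ≤ Real.exp ((i + 1 : ℕ) * h) := by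
    intro r i hr h2
    linarith
  have u1 := hg (i + 1) j (k + 1) a (b + 1) (low hN0 hi5) (two hN0 hi6) hj3 hjk (two hz0 hk6) ha3 hab (two hv0 hb6)
  have m1 : Wt l N y z u v ≤ Wt l (Real.exp ((i + 1 : ℕ) * h)) (Real.exp (j * h)) (Real.exp ((k + 1 : ℕ) * h))
      (Real.exp (a * h)) (Real.exp ((b + 1 : ℕ) * h)) := Wt_mono hi5 hj4 hk5 ha4 hb5
  have U : Wt l N y z u v - N * s * (lam1 * lam2) ≤ N * (s * (4 * h' * (1 + Lp ^ 2)) + 2 * η) := by
    refine sand_up (Np := Real.exp ((i + 1 : ℕ) * h)) (D := ((((k + 1 : ℕ) : ℝ) - j) * h) * ((((b + 1 : ℕ) : ℝ) - a) * h))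
      (e := Real.exp h) hN0 hi6 (Real.exp_pos _).le (by linarith) he2 hs hh'0 hprod0 hprod ?_ hη ?_
    · have p1 : 0 ≤ (((k + 1 : ℕ) : ℝ) - j) * h := by
        apply mul_nonneg _ h0.le
        have : (j : ℝ) ≤ ((k + 1 : ℕ) : ℝ) := by exact_mod_cast hjk
        linarith
      have p2 : 0 ≤ (((b + 1 : ℕ) : ℝ) - a) * h := by
        apply mul_nonneg _ h0.le
        have : (a : ℝ) ≤ ((b + 1 : ℕ) : ℝ) := by exact_mod_cast hab
        linarith
      have p3 : (((k + 1 : ℕ) : ℝ) - j) * h ≤ lam1 + 2 * h := by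
        push_cast
        exact d1
      have p4 : (((b + 1 : ℕ) : ℝ) - a) * h ≤ lam2 + 2 * h := by
        push_cast
        exact d4
      have p5 := mul_le_mul p3 p4 p2 (by linarith)
      have p6 : (lam1 + 2 * h) * (lam2 + 2 * h) ≤ lam1 * lam2 + 2 * h' := by
        have q1 : h * lam1 ≤ h * Lp := mul_le_mul_of_nonneg_left hLp h0.le
        have q2 : h * lam2 ≤ h * Lp := mul_le_mul_of_nonneg_left hLp' h0.le
        have q3 : h * h ≤ h * (1 / 2) := mul_le_mul_of_nonneg_left h1 h0.le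
        have q4 : (lam1 + 2 * h) * (lam2 + 2 * h) = lam1 * lam2 + 2 * (h * lam1) + 2 * (h * lam2) + 4 * (h * h) := by ring
        rw [hh'e, q4]
        linarith
      exact p5.trans p6
    · have := (abs_le.1 u1).2
      linarith
  -- lower bound
  have V : N * s * (lam1 * lam2) - Wt l N y z u v ≤ N * (s * (4 * h' * (1 + Lp ^ 2)) + 2 * η) := by
    have triv : lam1 * lam2 ≤ 2 * h * Lp → N * s * (lam1 * lam2) - Wt l N y z u v ≤ N * (s * (4 * h' * (1 + Lp ^ 2)) + 2 * η) := by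
      intro h2
      have h5 := Wt_nonneg l N y z u v
      have h6 : N * s * (lam1 * lam2) ≤ N * s * (2 * h * Lp) := mul_le_mul_of_nonneg_left h2 (mul_nonneg hN0.le hs)
      have h7 : 2 * h * Lp ≤ 4 * h' * (1 + Lp ^ 2) := by
        have q1 : 2 * h * Lp ≤ h' := by
          rw [hh'e]
          linarith
        have q2 : h' * 1 ≤ h' * (4 * (1 + Lp ^ 2)) := by
          apply mul_le_mul_of_nonneg_left _ hh'0
          have := sq_nonneg Lp
          linarith
        linarith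
      have h8 : N * s * (2 * h * Lp) ≤ N * s * (4 * h' * (1 + Lp ^ 2)) := mul_le_mul_of_nonneg_left h7 (mul_nonneg hN0.le hs)
      have h9 : 0 ≤ N * η := mul_nonneg hN0.le hη
      have e : N * (s * (4 * h' * (1 + Lp ^ 2)) + 2 * η) = N * s * (4 * h' * (1 + Lp ^ 2)) + 2 * (N * η) := by ring
      rw [e]
      linarith
    by_cases hjk : j + 1 ≤ k
    · by_cases hab : a + 1 ≤ b
      · have v1 := hg i (j + 1) k (a + 1) b hi3 (by linarith) (low hy0 hj5) hjk (by linarith) (low hu0 ha5) hab (by linarith)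
        have m2 : Wt l (Real.exp (i * h)) (Real.exp ((j + 1 : ℕ) * h)) (Real.exp (k * h)) (Real.exp ((a + 1 : ℕ) * h))
            (Real.exp (b * h)) ≤ Wt l N y z u v := Wt_mono hi4 hj5 hk4 ha5 hb4
        have hjk' : ((j + 1 : ℕ) : ℝ) ≤ k := by exact_mod_cast hjk
        have hab' : ((a + 1 : ℕ) : ℝ) ≤ b := by exact_mod_cast hab
        have p1 : 0 ≤ ((k : ℝ) - (j + 1 : ℕ)) * h := mul_nonneg (by linarith) h0.le
        have p2 : 0 ≤ ((b : ℝ) - (a + 1 : ℕ)) * h := mul_nonneg (by linarith) h0.le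
        have p3 : lam1 - 2 * h ≤ ((k : ℝ) - (j + 1 : ℕ)) * h := by
          push_cast
          exact d2
        have p4 : lam2 - 2 * h ≤ ((b : ℝ) - (a + 1 : ℕ)) * h := by
          push_cast
          exact d5
        have p5 : ((k : ℝ) - (j + 1 : ℕ)) * h ≤ lam1 := by
          push_cast
          exact d3
        have p6 : ((b : ℝ) - (a + 1 : ℕ)) * h ≤ lam2 := by
          push_cast
          exact d6
        refine sand_lo (Np := Real.exp (i * h)) (D := (((k : ℝ) - (j + 1 : ℕ)) * h) * (((b : ℝ) - (a + 1 : ℕ)) * h)) hN0 ?_ hi4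
          hs hh'0 hprod0 hprod (mul_nonneg p1 p2) ?_ (mul_le_mul p5 p6 p2 hlam10) hη ?_
        · have : N * (1 - h') ≤ N * (1 - h) := mul_le_mul_of_nonneg_left (by linarith) hN0.le
          linarith
        · generalize ((k : ℝ) - (j + 1 : ℕ)) * h = D1 at *
          generalize ((b : ℝ) - (a + 1 : ℕ)) * h = D2 at *
          have q1 : lam1 * (lam2 - D2) ≤ lam1 * (2 * h) := mul_le_mul_of_nonneg_left (by linarith) hlam10
          have q2 : D2 * (lam1 - D1) ≤ D2 * (2 * h) := mul_le_mul_of_nonneg_left (by linarith) p2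
          have q3 : D2 * (2 * h) ≤ lam2 * (2 * h) := mul_le_mul_of_nonneg_right p6 (by linarith)
          have q4 : h * lam1 ≤ h * Lp := mul_le_mul_of_nonneg_left hLp h0.le
          have q5 : h * lam2 ≤ h * Lp := mul_le_mul_of_nonneg_left hLp' h0.le
          have q6 : lam1 * (lam2 - D2) = lam1 * lam2 - lam1 * D2 := by ring
          have q7 : D2 * (lam1 - D1) = lam1 * D2 - D1 * D2 := by ring
          have q8 : lam1 * (2 * h) = 2 * (h * lam1) := by ring
          have q9 : lam2 * (2 * h) = 2 * (h * lam2) := by ring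
          rw [hh'e]
          linarith
        · have := (abs_le.1 v1).1
          linarith
      · apply triv
        push Not at hab
        have h2 : (b : ℝ) ≤ a := by exact_mod_cast (by omega : b ≤ a)
        have h3 : (b : ℝ) * h ≤ a * h := mul_le_mul_of_nonneg_right h2 h0.le
        have h4 : lam2 ≤ 2 * h := by
          have : (b - ((a : ℝ) + 1)) * h ≤ 0 := by
            apply mul_nonpos_of_nonpos_of_nonneg _ h0.le
            linarith
          linarith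
        calc lam1 * lam2 ≤ Lp * (2 * h) := mul_le_mul hLp h4 hlam20 hLp0
          _ = _ := by ring
    · apply triv
      push Not at hjk
      have h2 : (k : ℝ) ≤ j := by exact_mod_cast (by omega : k ≤ j)
      have h4 : lam1 ≤ 2 * h := by
        have : (k - ((j : ℝ) + 1)) * h ≤ 0 := by
          apply mul_nonpos_of_nonpos_of_nonneg _ h0.le
          linarith
        linarith
      calc lam1 * lam2 ≤ (2 * h) * Lp := mul_le_mul h4 hLp' hlam20 (by linarith)
        _ = _ := by ring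
  rw [abs_le]
  constructor <;> linarith

theorem markov {α : Type} (S : Finset α) (f : α → ℝ) (hf : ∀ a, 0 ≤ f a) {c : ℝ} (hc : 0 < c) :
    (((S.filter (fun a => c < f a)).card : ℕ) : ℝ) ≤ (∑ a ∈ S, f a) / c := by
  classical
  rw [le_div_iff₀ hc]
  calc ((S.filter (fun a => c < f a)).card : ℝ) * c = ∑ a ∈ S.filter (fun a => c < f a), c := by
        rw [sum_const, nsmul_eq_mul]
    _ ≤ ∑ a ∈ S.filter (fun a => c < f a), f a := sum_le_sum fun a ha => (mem_filter.1 ha).2.le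
    _ ≤ _ := sum_le_sum_of_subset_of_nonneg (filter_subset _ _) fun a _ _ => hf a

end Pool.Agent.J6H16.E3
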