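import Pool.Agent.J6H16.E3.Ci

/-!
# Project E3 (helper16): almost all `l`
-/

set_option autoImplicit false

namespace Pool.Agent.J6H16.E3

open Finset Filter Topology
open Pool.Agent.N782.GN hiding f1
open Pool.Agent.N855.GN
open Pool.Agent.H304R3.HK (UH bb LamK CS)
open Pool.Agent.J6H16.PF Pool.Agent.J6H16.PR Pool.Agent.J6H16.E2

/-- one point of the grid -/
theorem one_pt3 (ε δ : ℝ) (E A2 : ℕ) (hε : 0 < ε) (hε1 : ε ≤ 1) (hδ : 0 < δ) : ∃ C : ℝ, 0 < C ∧ ∀ᶠ K : ℝ in atTop,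
    ∀ M x y u v : ℝ, K ^ (1 + ε / 2) ≤ M → M ≤ K ^ ((E : ℝ) + 1) → K ^ (δ / 2) ≤ x → x ≤ y → y ≤ K ^ (ε / 18) →
      M ^ (1 + ε / 2) / K ≤ u → u ≤ v → v ≤ M ^ (1 - ε / 2) →
      ∑ l ∈ Icc 1 ⌊K⌋, |Wt l M x y u v - M * SS l * (Real.log (y / x) * Real.log (v / u))| ≤
        C * (K * M / (Real.log K) ^ A2) := by
  set c3 : ℝ := min (δ / (2 * ((E : ℝ) + 1))) (ε / 36) with hc3
  have hE0 : (0 : ℝ) < (E : ℝ) + 1 := by positivity
  have hc30 : 0 < c3 := lt_min (by positivity) (by positivity)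
  have hc31 : c3 ≤ δ / (2 * ((E : ℝ) + 1)) := min_le_left _ _
  have hc32 : c3 ≤ ε / 36 := min_le_right _ _
  obtain ⟨C, hC, h⟩ := avg_w3 (ε / 3) A2 (by positivity) (by linarith) (c3 := c3) (c4 := ε / 18) hc30 (by linarith)
    (by linarith)
  obtain ⟨M0, hM0⟩ := eventually_atTop.1 h
  refine ⟨C, hC, ?_⟩
  filter_upwards [eventually_ge_atTop (3 : ℝ), eventually_ge_atTop M0] with K hK3 hKM0
  intro M x y u v hM1 hM2 hx hxy hy hu huv hv
  have hK0 : 0 < K := by linarith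
  have hK1 : 1 ≤ K := by linarith
  have hKM : K ≤ M := by
    calc K = K ^ (1 : ℝ) := (Real.rpow_one K).symm
      _ ≤ K ^ (1 + ε / 2) := Real.rpow_le_rpow_of_exponent_le hK1 (by linarith)
      _ ≤ M := hM1
  have hM0' : 0 < M := by linarith
  have hM1' : 1 ≤ M := by linarith
  have g := hM0 M (hKM0.trans hKM) K x y u v hK1 ?_ ?_ huv ?_ ?_ hxy ?_
  · refine g.trans ?_
    apply mul_le_mul_of_nonneg_left _ hC.le
    have hlK : 0 < Real.log K := Real.log_pos (by linarith)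
    apply div_le_div_of_nonneg_left (by positivity) (by positivity)
    exact pow_le_pow_left₀ hlK.le (Real.log_le_log hK0 hKM) _
  · calc K = K ^ (1 : ℝ) := (Real.rpow_one K).symm
      _ ≤ K ^ ((1 + ε / 2) * (1 - ε / 3)) := Real.rpow_le_rpow_of_exponent_le hK1 (by
          have e : (1 + ε / 2) * (1 - ε / 3) = 1 + ε * (1 - ε) / 6 := by ring
          have e2 : 0 ≤ ε * (1 - ε) := mul_nonneg hε.le (by linarith)
          rw [e]
          linarith)
      _ = (K ^ (1 + ε / 2)) ^ (1 - ε / 3) := by rw [← Real.rpow_mul hK0.le]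
      _ ≤ M ^ (1 - ε / 3) := Real.rpow_le_rpow (by positivity) hM1 (by linarith)
  · refine le_trans ?_ hu
    calc M / K * M ^ (ε / 3) ≤ M / K * M ^ (ε / 2) := by
          apply mul_le_mul_of_nonneg_left _ (by positivity)
          exact Real.rpow_le_rpow_of_exponent_le hM1' (by linarith)
      _ = M ^ (1 + ε / 2) / K := by
          rw [Real.rpow_add hM0', Real.rpow_one]
          ring
  · exact hv.trans (Real.rpow_le_rpow_of_exponent_le hM1' (by linarith))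
  · calc M ^ c3 ≤ (K ^ ((E : ℝ) + 1)) ^ c3 := Real.rpow_le_rpow hM0'.le hM2 hc30.le
      _ = K ^ (((E : ℝ) + 1) * c3) := by rw [← Real.rpow_mul hK0.le]
      _ ≤ K ^ (δ / 2) := by
          apply Real.rpow_le_rpow_of_exponent_le hK1
          calc ((E : ℝ) + 1) * c3 ≤ ((E : ℝ) + 1) * (δ / (2 * ((E : ℝ) + 1))) := mul_le_mul_of_nonneg_left hc31 hE0.le
            _ = δ / 2 := by field_simp
      _ ≤ x := hx
  · calc y ≤ K ^ (ε / 18) := hy
      _ ≤ M ^ (ε / 18) := Real.rpow_le_rpow hK0.le hKM (by positivity)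

/-- the conditions on the second window -/
theorem win2 {ε K N P a b u v : ℝ} (hε : 0 < ε) (hε1 : ε ≤ 1) (hK : 0 < K) (hN : 1 ≤ N) (h8 : 8 ≤ N ^ (ε / 2))
    (hP1 : N / 2 ≤ P) (hP2 : P ≤ 2 * N) (hu : N ^ (1 + ε) / K ≤ u) (ha : u / 2 ≤ a) (hv : v ≤ N ^ (1 - ε)) (hb : b ≤ 2 * v) :
    P ^ (1 + ε / 2) / K ≤ a ∧ b ≤ P ^ (1 - ε / 2) := by
  have hN0 : 0 < N := by linarith
  have hP0 : 0 < P := by linarith
  constructor
  · refine le_trans ?_ ha
    have h1 : P ^ (1 + ε / 2) ≤ 4 * N ^ (1 + ε / 2) := by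
      calc P ^ (1 + ε / 2) ≤ (2 * N) ^ (1 + ε / 2) := Real.rpow_le_rpow hP0.le hP2 (by positivity)
        _ = 2 ^ (1 + ε / 2) * N ^ (1 + ε / 2) := Real.mul_rpow (by norm_num) hN0.le
        _ ≤ 4 * N ^ (1 + ε / 2) := by
            apply mul_le_mul_of_nonneg_right _ (by positivity)
            calc (2 : ℝ) ^ (1 + ε / 2) ≤ 2 ^ (2 : ℝ) := Real.rpow_le_rpow_of_exponent_le (by norm_num) (by linarith)
              _ = 4 := by
                rw [Real.rpow_ofNat]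
                norm_num
    have h2 : N ^ (1 + ε) = N ^ (1 + ε / 2) * N ^ (ε / 2) := by
      rw [← Real.rpow_add hN0]
      congr 1
      ring
    have h3 : 0 < N ^ (1 + ε / 2) := by positivity
    have h4 : P ^ (1 + ε / 2) ≤ N ^ (1 + ε) / 2 := by
      have h5 : N ^ (1 + ε / 2) * 8 ≤ N ^ (1 + ε / 2) * N ^ (ε / 2) := mul_le_mul_of_nonneg_left h8 h3.le
      rw [h2]
      linarith
    calc P ^ (1 + ε / 2) / K ≤ N ^ (1 + ε) / 2 / K := div_le_div_of_nonneg_right h4 hK.le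
      _ = (N ^ (1 + ε) / K) / 2 := by ring
      _ ≤ u / 2 := by linarith
  · refine hb.trans ?_
    have h1 : N ^ (1 - ε / 2) / 2 ≤ P ^ (1 - ε / 2) := by
      calc N ^ (1 - ε / 2) / 2 ≤ N ^ (1 - ε / 2) / 2 ^ (1 - ε / 2) := by
            apply div_le_div_of_nonneg_left (by positivity) (by positivity)
            calc (2 : ℝ) ^ (1 - ε / 2) ≤ 2 ^ (1 : ℝ) := Real.rpow_le_rpow_of_exponent_le (by norm_num) (by linarith)
              _ = 2 := Real.rpow_one 2
        _ = (N / 2) ^ (1 - ε / 2) := (Real.div_rpow hN0.le (by norm_num) _).symm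
        _ ≤ P ^ (1 - ε / 2) := Real.rpow_le_rpow (by positivity) hP1 (by linarith)
    have h2 : N ^ (1 - ε / 2) = N ^ (1 - ε) * N ^ (ε / 2) := by
      rw [← Real.rpow_add hN0]
      congr 1
      ring
    have h3 : 0 < N ^ (1 - ε) := by positivity
    rw [h2] at h1
    have h5 : N ^ (1 - ε) * 8 ≤ N ^ (1 - ε) * N ^ (ε / 2) := mul_le_mul_of_nonneg_left h8 h3.le
    linarith

open Classical in
/-- **almost all `l`** -/
theorem grid_e3 (ε δ : ℝ) (E A : ℕ) (hε : 0 < ε) (hε1 : ε ≤ 1) (hδ : 0 < δ) : ∀ᶠ K : ℝ in atTop,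
    (((Icc 1 ⌊K⌋).filter (fun l : ℤ => ¬ ∀ N y z u v : ℝ, K ^ (1 + ε) ≤ N → N ≤ K ^ (E : ℝ) → K ^ δ ≤ y → y ≤ z →
      z ≤ K ^ (ε / 20) → N ^ (1 + ε) / K ≤ u → u ≤ v → v ≤ N ^ (1 - ε) →
      |Wt l N y z u v - N * SS l * (Real.log (z / y) * Real.log (v / u))| ≤ N / (Real.log K) ^ A)).card : ℝ) ≤
      K / (Real.log K) ^ A := by
  classical
  set B := 2 * A + 6 with hB
  set A2 := (A + 1) + (5 * (B + 1)) + (A + 1) with hA2
  obtain ⟨C, hC, h⟩ := one_pt3 ε δ E A2 hε hε1 hδ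
  obtain ⟨C3, hC3, h3⟩ := SS_mean
  set e1 : ℝ := (E : ℝ) + 1 with he1
  have he10 : 1 ≤ e1 := by
    rw [he1]
    have : (0 : ℝ) ≤ E := Nat.cast_nonneg E
    linarith
  set CE : ℝ := 4 * (3 * e1) * (2 * e1 ^ 2) with hCE
  have hCE0 : 0 < CE := by positivity
  filter_upwards [h, eventually_ge_atTop (3 : ℝ), ev_log (10 + C3 + (e1 + 1) ^ 5 * C + CE), ev_rp (show 0 < ε / 2 by positivity) 8,
    ev_rp (show 0 < δ / 2 by positivity) 2, ev_rp (show 0 < ε / 18 - ε / 20 by linarith) 2]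
    with K h hK3 hℓK hKε hKδ hKβ
  have hK0 : 0 < K := by linarith
  have hK1 : 1 ≤ K := by linarith
  have h3 := h3 K hK1
  have hp5 : 0 < (e1 + 1) ^ 5 * C := by positivity
  set ℓ := Real.log K with hℓ
  have hℓ10 : 10 ≤ ℓ := by linarith
  have hℓ0 : 0 < ℓ := by linarith
  have hℓ1 : 1 ≤ ℓ := by linarith
  set h0 : ℝ := 1 / ℓ ^ B with hh0
  have hh0p : 0 < h0 := by positivity
  have hh02 : h0 ≤ 1 / 2 := by
    rw [hh0]
    apply one_div_le_one_div_of_le (by norm_num)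
    calc (2 : ℝ) ≤ ℓ := by linarith
      _ = ℓ ^ 1 := (pow_one ℓ).symm
      _ ≤ ℓ ^ B := pow_le_pow_right₀ hℓ1 (by omega)
  set η : ℝ := 1 / ℓ ^ (A + 1) with hη
  have hηp : 0 < η := by positivity
  set I : ℕ := ⌊e1 * ℓ ^ (B + 1)⌋₊ + 1 with hI
  have hIb : (I : ℝ) ≤ (e1 + 1) * ℓ ^ (B + 1) := by
    have h1 : (⌊e1 * ℓ ^ (B + 1)⌋₊ : ℝ) ≤ e1 * ℓ ^ (B + 1) := Nat.floor_le (by positivity)
    have h2 : 1 ≤ ℓ ^ (B + 1) := one_le_pow₀ hℓ1
    rw [hI]
    push_cast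
    linarith
  have hIlt : ∀ i : ℕ, Real.exp (i * h0) ≤ K ^ e1 → i < I := by
    intro i hi
    have h1 := Real.log_le_log (Real.exp_pos _) hi
    rw [Real.log_exp, Real.log_rpow hK0, ← hℓ, hh0, mul_one_div, div_le_iff₀ (by positivity)] at h1
    have h2 : (i : ℝ) ≤ e1 * ℓ ^ (B + 1) := by
      refine h1.trans (le_of_eq ?_)
      ring
    rw [hI, Nat.lt_succ_iff]
    exact Nat.le_floor h2
  -- the sets
  set S0 := Icc 1 ⌊K⌋ with hS0
  set S2 := S0.filter (fun l : ℤ => ℓ ^ (A + 1) < |SS l|) with hS2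
  set T := (range I ×ˢ (range I ×ˢ (range I ×ˢ (range I ×ˢ range I)))).filter (fun t : ℕ × ℕ × ℕ × ℕ × ℕ =>
    (K ^ (1 + ε / 2) ≤ Real.exp (t.1 * h0) ∧
    Real.exp (t.1 * h0) ≤ K ^ e1) ∧ (K ^ (δ / 2) ≤ Real.exp (t.2.1 * h0) ∧ t.2.1 ≤ t.2.2.1 ∧
    Real.exp (t.2.2.1 * h0) ≤ K ^ (ε / 18)) ∧ ((Real.exp (t.1 * h0)) ^ (1 + ε / 2) / K ≤ Real.exp (t.2.2.2.1 * h0) ∧
    t.2.2.2.1 ≤ t.2.2.2.2 ∧ Real.exp (t.2.2.2.2 * h0) ≤ (Real.exp (t.1 * h0)) ^ (1 - ε / 2))) with hT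
  set F : ℕ × ℕ × ℕ × ℕ × ℕ → ℤ → ℝ := fun t l =>
    |Wt l (Real.exp (t.1 * h0)) (Real.exp (t.2.1 * h0)) (Real.exp (t.2.2.1 * h0)) (Real.exp (t.2.2.2.1 * h0))
      (Real.exp (t.2.2.2.2 * h0)) -
    Real.exp (t.1 * h0) * SS l * (((t.2.2.1 - t.2.1) * h0) * ((t.2.2.2.2 - t.2.2.2.1) * h0))| with hF
  set St : ℕ × ℕ × ℕ × ℕ × ℕ → Finset ℤ := fun t => S0.filter (fun l => Real.exp (t.1 * h0) * η < F t l) with hSt
  have hcardS2 : (S2.card : ℝ) ≤ C3 * (K / ℓ ^ (A + 1)) := by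
    refine (markov S0 (fun l => |SS l|) (fun _ => abs_nonneg _) (by positivity)).trans ?_
    rw [mul_div_assoc']
    exact div_le_div_of_nonneg_right h3 (by positivity)
  have hlogd : ∀ a b : ℕ, Real.log (Real.exp (b * h0) / Real.exp (a * h0)) = (b - a) * h0 := by
    intro a b
    rw [← Real.exp_sub, Real.log_exp]
    ring
  have hcardSt : ∀ t ∈ T, ((St t).card : ℝ) ≤ C * (K / ℓ ^ (A2 - (A + 1))) := by
    intro t ht
    rw [hT, mem_filter] at ht
    obtain ⟨-, ⟨t1, t2⟩, ⟨t3, t4, t5⟩, t6, t7, t8⟩ := ht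
    have hE := Real.exp_pos (t.1 * h0)
    have hle : ∀ a b : ℕ, a ≤ b → Real.exp (a * h0) ≤ Real.exp (b * h0) := by
      intro a b hab
      apply Real.exp_le_exp.2
      exact mul_le_mul_of_nonneg_right (by exact_mod_cast hab) hh0p.le
    have k1 := h (Real.exp (t.1 * h0)) (Real.exp (t.2.1 * h0)) (Real.exp (t.2.2.1 * h0)) (Real.exp (t.2.2.2.1 * h0))
      (Real.exp (t.2.2.2.2 * h0)) t1 t2 t3 (hle _ _ t4) t5 t6 (hle _ _ t7) t8
    rw [hlogd, hlogd] at k1
    have k3 := markov S0 (F t) (fun _ => abs_nonneg _) (mul_pos hE hηp)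
    refine k3.trans ?_
    rw [div_le_iff₀ (mul_pos hE hηp)]
    refine k1.trans (le_of_eq ?_)
    have : ℓ ^ A2 = ℓ ^ (A2 - (A + 1)) * ℓ ^ (A + 1) := by
      rw [← pow_add]
      congr 1
      omega
    rw [this, hη]
    field_simp
  have hcardT : (T.card : ℝ) ≤ (e1 + 1) ^ 5 * ℓ ^ (5 * (B + 1)) := by
    have a1 : T.card ≤ I ^ 5 := by
      refine (card_filter_le _ _).trans (le_of_eq ?_)
      rw [card_product, card_product, card_product, card_product, card_range]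
      ring
    have a2 : (T.card : ℝ) ≤ (I : ℝ) ^ 5 := by exact_mod_cast a1
    refine a2.trans ?_
    calc (I : ℝ) ^ 5 ≤ ((e1 + 1) * ℓ ^ (B + 1)) ^ 5 := pow_le_pow_left₀ (Nat.cast_nonneg I) hIb 5
      _ = (e1 + 1) ^ 5 * ℓ ^ (5 * (B + 1)) := by
        rw [mul_pow, ← pow_mul, mul_comm (B + 1) 5]
  -- the inclusion
  have hincl : S0.filter (fun l : ℤ => ¬ ∀ N y z u v : ℝ, K ^ (1 + ε) ≤ N → N ≤ K ^ (E : ℝ) → K ^ δ ≤ y → y ≤ z →
      z ≤ K ^ (ε / 20) → N ^ (1 + ε) / K ≤ u → u ≤ v → v ≤ N ^ (1 - ε) →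
      |Wt l N y z u v - N * SS l * (Real.log (z / y) * Real.log (v / u))| ≤ N / ℓ ^ A) ⊆ S2 ∪ T.biUnion St := by
    intro l hl
    rw [mem_filter] at hl
    by_contra hcon
    rw [mem_union, mem_biUnion] at hcon
    push Not at hcon
    obtain ⟨n2, n3⟩ := hcon
    apply hl.2
    have hl1 : 1 ≤ l := by
      have := hl.1
      rw [hS0, mem_Icc] at this
      exact this.1
    have m2 : |SS l| ≤ ℓ ^ (A + 1) := by
      by_contra hc
      push Not at hc
      exact n2 (by rw [hS2, mem_filter]; exact ⟨hl.1, hc⟩)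
    have hSS : 0 < SS l := (c_ssl l (by omega)).2
    rw [abs_of_pos hSS] at m2
    intro N y z u v hN1 hN2 hy hyz hz hu huv hv
    have hKN : K ≤ N := by
      calc K = K ^ (1 : ℝ) := (Real.rpow_one K).symm
        _ ≤ K ^ (1 + ε) := Real.rpow_le_rpow_of_exponent_le hK1 (by linarith)
        _ ≤ N := hN1
    have hN0 : 0 < N := by linarith
    have hN1' : 1 ≤ N := by linarith
    have hy1 : 1 ≤ y := (Real.one_le_rpow hK1 hδ.le).trans hy
    have hz1 : 1 ≤ z := hy1.trans hyz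
    have hN8 : 8 ≤ N ^ (ε / 2) := hKε.trans (Real.rpow_le_rpow hK0.le hKN (by positivity))
    have hu1 : 1 ≤ u := by
      refine le_trans ?_ hu
      rw [le_div_iff₀ hK0, one_mul]
      calc K ≤ N := hKN
        _ = N ^ (1 : ℝ) := (Real.rpow_one N).symm
        _ ≤ N ^ (1 + ε) := Real.rpow_le_rpow_of_exponent_le hN1' (by linarith)
    have hℓe : ℓ ≤ e1 * ℓ := le_mul_of_one_le_left hℓ0.le he10
    have hLp : Real.log (z / y) ≤ e1 * ℓ := by
      have a1 : z / y ≤ z := div_le_self (by linarith) hy1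
      have a2 : z ≤ K := by
        calc z ≤ K ^ (ε / 20) := hz
          _ ≤ K ^ (1 : ℝ) := Real.rpow_le_rpow_of_exponent_le hK1 (by linarith)
          _ = K := Real.rpow_one K
      exact (Real.log_le_log (div_pos (by linarith) (by linarith)) (a1.trans a2)).trans hℓe
    have hLp' : Real.log (v / u) ≤ e1 * ℓ := by
      have a1 : v / u ≤ v := div_le_self (by linarith) hu1
      have a2 : v ≤ K ^ e1 := by
        calc v ≤ N ^ (1 - ε) := hv
          _ ≤ N ^ (1 : ℝ) := Real.rpow_le_rpow_of_exponent_le hN1' (by linarith)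
          _ = N := Real.rpow_one N
          _ ≤ K ^ (E : ℝ) := hN2
          _ ≤ K ^ e1 := Real.rpow_le_rpow_of_exponent_le hK1 (by rw [he1]; linarith)
      have a3 := Real.log_le_log (div_pos (by linarith) (by linarith) : 0 < v / u) (a1.trans a2)
      rwa [Real.log_rpow hK0] at a3
    have key := sand3 (l := l) (h := h0) (η := η) (s := SS l) (Lp := e1 * ℓ) (N := N) (y := y) (z := z) (u := u) (v := v)
      hh0p hh02 hηp.le hSS.le hN1' hy1 hyz hu1 huv hLp hLp'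
      (fun i j k a b hi1 hi2 hj hjk hk ha hab hb => by
        have t1 : K ^ (1 + ε / 2) ≤ Real.exp (i * h0) := by
          refine le_trans ?_ hi1
          rw [le_div_iff₀ (by norm_num)]
          calc K ^ (1 + ε / 2) * 2 ≤ K ^ (1 + ε / 2) * K ^ (ε / 2) := mul_le_mul_of_nonneg_left (by linarith) (by positivity)
            _ = K ^ (1 + ε) := by
              rw [← Real.rpow_add hK0]
              congr 1
              ring
            _ ≤ N := hN1
        have t2 : Real.exp (i * h0) ≤ K ^ e1 := by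
          refine hi2.trans ?_
          calc 2 * N ≤ K * K ^ (E : ℝ) := mul_le_mul (by linarith) hN2 hN0.le hK0.le
            _ = K ^ e1 := by
              rw [he1, Real.rpow_add hK0, Real.rpow_one]
              ring
        have t3 : K ^ (δ / 2) ≤ Real.exp (j * h0) := by
          refine le_trans ?_ hj
          rw [le_div_iff₀ (by norm_num)]
          calc K ^ (δ / 2) * 2 ≤ K ^ (δ / 2) * K ^ (δ / 2) := mul_le_mul_of_nonneg_left hKδ (by positivity)
            _ = K ^ δ := by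
              rw [← Real.rpow_add hK0]
              congr 1
              ring
            _ ≤ y := hy
        have t5 : Real.exp (k * h0) ≤ K ^ (ε / 18) := by
          refine hk.trans ?_
          calc 2 * z ≤ K ^ (ε / 18 - ε / 20) * K ^ (ε / 20) := mul_le_mul hKβ hz (by linarith) (by positivity)
            _ = K ^ (ε / 18) := by
              rw [← Real.rpow_add hK0]
              congr 1
              ring
        obtain ⟨t6, t8⟩ := win2 hε hε1 hK0 hN1' hN8 hi1 hi2 hu ha hv hb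
        have hPge : 1 ≤ Real.exp (i * h0) := (Real.one_le_rpow hK1 (by positivity)).trans t1
        have hkK : Real.exp (k * h0) ≤ K ^ e1 :=
          t5.trans (Real.rpow_le_rpow_of_exponent_le hK1 (by linarith))
        have hbK : Real.exp (b * h0) ≤ K ^ e1 := by
          refine t8.trans ?_
          calc (Real.exp (i * h0)) ^ (1 - ε / 2) ≤ (Real.exp (i * h0)) ^ (1 : ℝ) :=
                Real.rpow_le_rpow_of_exponent_le hPge (by linarith)
            _ = Real.exp (i * h0) := Real.rpow_one _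
            _ ≤ K ^ e1 := t2
        have hjI : j < I := lt_of_le_of_lt hjk (hIlt k hkK)
        have haI : a < I := lt_of_le_of_lt hab (hIlt b hbK)
        have htT : (i, j, k, a, b) ∈ T := by
          rw [hT, mem_filter, mem_product, mem_product, mem_product, mem_product, mem_range, mem_range, mem_range, mem_range,
            mem_range]
          exact ⟨⟨hIlt i t2, hjI, hIlt k hkK, haI, hIlt b hbK⟩, ⟨t1, t2⟩, ⟨t3, hjk, t5⟩, t6, hab, t8⟩
        have n4 := n3 _ htT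
        by_contra hc
        push Not at hc
        apply n4
        rw [hSt]
        simp only
        rw [mem_filter]
        exact ⟨hl.1, hc⟩)
    refine key.trans ?_
    have b1 : SS l * (4 * (h0 * (2 * (e1 * ℓ) + 1)) * (1 + (e1 * ℓ) ^ 2)) ≤ CE / ℓ ^ (A + 1) := by
      have c0 : 1 ≤ e1 * ℓ := one_le_mul_of_one_le_of_one_le he10 hℓ1
      have c1 : 2 * (e1 * ℓ) + 1 ≤ 3 * e1 * ℓ := by linarith
      have c2 : 1 + (e1 * ℓ) ^ 2 ≤ 2 * e1 ^ 2 * ℓ ^ 2 := by
        have c3 : 1 ≤ (e1 * ℓ) ^ 2 := one_le_pow₀ c0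
        have c4 : 2 * e1 ^ 2 * ℓ ^ 2 = 2 * (e1 * ℓ) ^ 2 := by ring
        linarith
      calc SS l * (4 * (h0 * (2 * (e1 * ℓ) + 1)) * (1 + (e1 * ℓ) ^ 2)) ≤
            ℓ ^ (A + 1) * (4 * (h0 * (3 * e1 * ℓ)) * (2 * e1 ^ 2 * ℓ ^ 2)) := by
            have : 0 ≤ 2 * (e1 * ℓ) + 1 := by positivity
            gcongr
        _ = CE * ℓ ^ (A + 4) * h0 := by
            rw [hCE, show A + 4 = (A + 1) + 3 by ring, pow_add ℓ (A + 1) 3]
            ring
        _ = CE / ℓ ^ (A + 2) := by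
            have : ℓ ^ B = ℓ ^ (A + 4) * ℓ ^ (A + 2) := by
              rw [← pow_add]
              congr 1
              omega
            rw [hh0, this]
            field_simp
        _ ≤ CE / ℓ ^ (A + 1) := div_le_div_of_nonneg_left hCE0.le (by positivity)
            (pow_le_pow_right₀ hℓ1 (by omega))
    calc N * (SS l * (4 * (h0 * (2 * (e1 * ℓ) + 1)) * (1 + (e1 * ℓ) ^ 2)) + 2 * η) ≤ N * (CE / ℓ ^ (A + 1) + 2 * (1 / ℓ ^ (A + 1))) :=
          mul_le_mul_of_nonneg_left (add_le_add b1 le_rfl) hN0.le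
      _ = N * ((CE + 2) / ℓ) / ℓ ^ A := by
          rw [pow_succ]
          field_simp
      _ ≤ N * 1 / ℓ ^ A := by
          apply div_le_div_of_nonneg_right _ (by positivity)
          apply mul_le_mul_of_nonneg_left _ hN0.le
          rw [div_le_one hℓ0]
          linarith
      _ = _ := by rw [mul_one]
  -- the end
  have hfin : (((S0.filter (fun l : ℤ => ¬ ∀ N y z u v : ℝ, K ^ (1 + ε) ≤ N → N ≤ K ^ (E : ℝ) → K ^ δ ≤ y → y ≤ z →
      z ≤ K ^ (ε / 20) → N ^ (1 + ε) / K ≤ u → u ≤ v → v ≤ N ^ (1 - ε) →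
      |Wt l N y z u v - N * SS l * (Real.log (z / y) * Real.log (v / u))| ≤ N / ℓ ^ A)).card : ℕ) : ℝ) ≤
      (S2.card : ℝ) + ∑ t ∈ T, ((St t).card : ℝ) := by
    have a1 := card_le_card hincl
    have a2 := card_union_le S2 (T.biUnion St)
    have a4 : (T.biUnion St).card ≤ ∑ t ∈ T, (St t).card := card_biUnion_le
    have a5 := a1.trans (a2.trans (Nat.add_le_add le_rfl a4))
    exact_mod_cast a5
  refine hfin.trans ?_
  have hsumT : ∑ t ∈ T, ((St t).card : ℝ) ≤ (e1 + 1) ^ 5 * C * (K / ℓ ^ (A + 1)) := by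
    calc ∑ t ∈ T, ((St t).card : ℝ) ≤ ∑ t ∈ T, C * (K / ℓ ^ (A2 - (A + 1))) := sum_le_sum hcardSt
      _ = (T.card : ℝ) * (C * (K / ℓ ^ (A2 - (A + 1)))) := by rw [sum_const, nsmul_eq_mul]
      _ ≤ (e1 + 1) ^ 5 * ℓ ^ (5 * (B + 1)) * (C * (K / ℓ ^ (A2 - (A + 1)))) :=
          mul_le_mul_of_nonneg_right hcardT (by positivity)
      _ = (e1 + 1) ^ 5 * C * (K / ℓ ^ (A + 1)) := by
          have : ℓ ^ (A2 - (A + 1)) = ℓ ^ (5 * (B + 1)) * ℓ ^ (A + 1) := by
            rw [← pow_add]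
            congr 1
            omega
          rw [this]
          field_simp
  calc (S2.card : ℝ) + ∑ t ∈ T, ((St t).card : ℝ) ≤
      C3 * (K / ℓ ^ (A + 1)) + (e1 + 1) ^ 5 * C * (K / ℓ ^ (A + 1)) := add_le_add hcardS2 hsumT
    _ = K * (C3 + (e1 + 1) ^ 5 * C) / ℓ / ℓ ^ A := by
        rw [pow_succ]
        field_simp
    _ ≤ K / ℓ ^ A := by
        apply div_le_div_of_nonneg_right _ (by positivity)
        rw [div_le_iff₀ hℓ0]
        exact mul_le_mul_of_nonneg_left (by linarith) hK0.le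

end Pool.Agent.J6H16.E3
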